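import Pool.Agent.W115.Vis.Reg
import Pool.Agent.H247R2.Warren

set_option autoImplicit false

/-! The upper bound. -/

namespace Pool.Agent.W115.Vis

open MvPolynomial

abbrev JV (n : ℕ) : Type := (Fin n × Bool) ⊕ Unit

/-- the parameters of a polygon and a box -/
def par {n : ℕ} (v : Fin n → ℝ × ℝ) (M : ℝ) : JV n → ℝ
  | .inl (i, false) => (v i).1
  | .inl (i, true) => (v i).2
  | .inr _ => M

section

variable (n : ℕ)

noncomputable def px (i : Fin n) : MvPolynomial (JV n) ℝ := X (.inl (i, false))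
noncomputable def py (i : Fin n) : MvPolynomial (JV n) ℝ := X (.inl (i, true))
noncomputable def pm : MvPolynomial (JV n) ℝ := X (.inr ())

noncomputable def cA : EI n → MvPolynomial (JV n) ℝ
  | .inl (i, j, false) => -(py n j - py n i)
  | .inl (i, j, true) => px n j - px n i
  | .inr (false, false) => -1
  | .inr (false, true) => 1
  | .inr (true, _) => 0

noncomputable def cB : EI n → MvPolynomial (JV n) ℝ
  | .inl (i, j, false) => px n j - px n i
  | .inl (i, j, true) => py n j - py n i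
  | .inr (true, false) => -1
  | .inr (true, true) => 1
  | .inr (false, _) => 0

noncomputable def cC : EI n → MvPolynomial (JV n) ℝ
  | .inl (i, j, false) => -(px n j - px n i) * py n i + (py n j - py n i) * px n i
  | .inl (i, j, true) => -(px n j - px n i) * px n i - (py n j - py n i) * py n i
  | .inr _ => pm n

variable {n}

lemma ev_A (v : Fin n → ℝ × ℝ) (M : ℝ) (e : EI n) :
    eval (par v M) (cA n e) = (arr v M e).a := by
  rcases e with ⟨i, j, b⟩ | ⟨b, c⟩ <;> cases b <;> try cases c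
  all_goals simp [cA, arr, px, py, par]

lemma ev_B (v : Fin n → ℝ × ℝ) (M : ℝ) (e : EI n) :
    eval (par v M) (cB n e) = (arr v M e).b := by
  rcases e with ⟨i, j, b⟩ | ⟨b, c⟩ <;> cases b <;> try cases c
  all_goals simp [cB, arr, px, py, par]

lemma ev_C (v : Fin n → ℝ × ℝ) (M : ℝ) (e : EI n) :
    eval (par v M) (cC n e) = (arr v M e).c := by
  rcases e with ⟨i, j, b⟩ | ⟨b, c⟩ <;> cases b <;> try cases c
  all_goals simp [cC, arr, px, py, pm, par]

lemma td_mul {p q : MvPolynomial (JV n) ℝ} {a b c : ℕ} (hp : p.totalDegree ≤ a)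
    (hq : q.totalDegree ≤ b) (h : a + b ≤ c) : (p * q).totalDegree ≤ c :=
  (totalDegree_mul p q).trans ((add_le_add hp hq).trans h)

lemma td_add {p q : MvPolynomial (JV n) ℝ} {a : ℕ} (hp : p.totalDegree ≤ a)
    (hq : q.totalDegree ≤ a) : (p + q).totalDegree ≤ a :=
  (totalDegree_add p q).trans (max_le hp hq)

lemma td_sub {p q : MvPolynomial (JV n) ℝ} {a : ℕ} (hp : p.totalDegree ≤ a)
    (hq : q.totalDegree ≤ a) : (p - q).totalDegree ≤ a :=
  (totalDegree_sub p q).trans (max_le hp hq)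

lemma td_neg {p : MvPolynomial (JV n) ℝ} {a : ℕ} (hp : p.totalDegree ≤ a) :
    (-p).totalDegree ≤ a := by
  rw [totalDegree_neg]; exact hp

lemma td_x (i : Fin n) : (px n i).totalDegree ≤ 1 := (totalDegree_X _).le
lemma td_y (i : Fin n) : (py n i).totalDegree ≤ 1 := (totalDegree_X _).le
lemma td_m : (pm n).totalDegree ≤ 1 := (totalDegree_X _).le
lemma td_one {a : ℕ} : (1 : MvPolynomial (JV n) ℝ).totalDegree ≤ a := by
  rw [totalDegree_one]; exact Nat.zero_le _
lemma td_zero {a : ℕ} : (0 : MvPolynomial (JV n) ℝ).totalDegree ≤ a := by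
  rw [totalDegree_zero]; exact Nat.zero_le _

lemma td_A (e : EI n) : (cA n e).totalDegree ≤ 1 := by
  rcases e with ⟨i, j, b⟩ | ⟨b, c⟩
  · cases b
    · exact td_neg (td_sub (td_y _) (td_y _))
    · exact td_sub (td_x _) (td_x _)
  · cases b
    · cases c
      · exact td_neg td_one
      · exact td_one
    · exact td_zero

lemma td_B (e : EI n) : (cB n e).totalDegree ≤ 1 := by
  rcases e with ⟨i, j, b⟩ | ⟨b, c⟩
  · cases b
    · exact td_sub (td_x _) (td_x _)
    · exact td_sub (td_y _) (td_y _)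
  · cases b
    · exact td_zero
    · cases c
      · exact td_neg td_one
      · exact td_one

lemma td_C (e : EI n) : (cC n e).totalDegree ≤ 2 := by
  rcases e with ⟨i, j, b⟩ | ⟨b, c⟩
  · cases b
    · exact td_add (td_mul (td_neg (td_sub (td_x _) (td_x _))) (td_y _) le_rfl)
        (td_mul (td_sub (td_y _) (td_y _)) (td_x _) le_rfl)
    · exact td_sub (td_mul (td_neg (td_sub (td_x _) (td_x _))) (td_x _) le_rfl)
        (td_mul (td_sub (td_y _) (td_y _)) (td_y _) le_rfl)
  · exact td_m.trans (by norm_num)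

noncomputable def pD (p : EI n × EI n) : MvPolynomial (JV n) ℝ :=
  cA n p.1 * cB n p.2 - cA n p.2 * cB n p.1

noncomputable def pX (p : EI n × EI n) : MvPolynomial (JV n) ℝ :=
  cB n p.1 * cC n p.2 - cB n p.2 * cC n p.1

noncomputable def pY (p : EI n × EI n) : MvPolynomial (JV n) ℝ :=
  cC n p.1 * cA n p.2 - cC n p.2 * cA n p.1

noncomputable def pT (f : EI n) (p : EI n × EI n) : MvPolynomial (JV n) ℝ :=
  cA n f * pX p + cB n f * pY p + cC n f * pD p

noncomputable def pS (p : Fin 4 → EI n × EI n) (f : EI n) : MvPolynomial (JV n) ℝ :=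
  ∑ k, pD (p k) * pT f (p k)

noncomputable def pb (f : EI n) : MvPolynomial (JV n) ℝ :=
  cA n f * pm n + cB n f * pm n + cC n f

lemma td_D (p : EI n × EI n) : (pD p).totalDegree ≤ 2 :=
  td_sub (td_mul (td_A _) (td_B _) le_rfl) (td_mul (td_A _) (td_B _) le_rfl)

lemma td_T (f : EI n) (p : EI n × EI n) : (pT f p).totalDegree ≤ 4 := by
  have h1 : (pX p).totalDegree ≤ 3 :=
    td_sub (td_mul (td_B _) (td_C _) le_rfl) (td_mul (td_B _) (td_C _) le_rfl)
  have h2 : (pY p).totalDegree ≤ 3 :=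
    td_sub (td_mul (td_C _) (td_A _) le_rfl) (td_mul (td_C _) (td_A _) le_rfl)
  exact td_add (td_add (td_mul (td_A _) h1 le_rfl) (td_mul (td_B _) h2 le_rfl))
    (td_mul (td_C _) (td_D _) le_rfl)

lemma td_S (p : Fin 4 → EI n × EI n) (f : EI n) : (pS p f).totalDegree ≤ 6 := by
  unfold pS
  apply (totalDegree_finsetSum _ _).trans
  apply Finset.sup_le
  intro k _
  exact td_mul (td_D _) (td_T _ _) le_rfl

lemma td_b (f : EI n) : (pb f).totalDegree ≤ 2 :=
  td_add (td_add (td_mul (td_A _) td_m le_rfl) (td_mul (td_B _) td_m le_rfl)) (td_C _)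

lemma ev_D (v : Fin n → ℝ × ℝ) (M : ℝ) (p : EI n × EI n) :
    eval (par v M) (pD p) = Dt (arr v M) p := by
  unfold pD Dt
  simp only [map_sub, map_mul, ev_A, ev_B]

lemma ev_S (v : Fin n → ℝ × ℝ) (M : ℝ) (p : Fin 4 → EI n × EI n) (f : EI n) :
    SignType.sign (eval (par v M) (pS p f)) = sv (arr v M) p f := by
  unfold pS sv pT pX pY Tf Dx Dy
  simp only [map_sum, map_add, map_sub, map_mul, ev_A, ev_B, ev_C, ev_D]

lemma ev_b (v : Fin n → ℝ × ℝ) (M : ℝ) (f : EI n) :
    SignType.sign (eval (par v M) (pb f)) = sg' v M (M, M) f := by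
  have : eval (par v M) (pm n) = M := by simp [pm, par]
  unfold pb sg' Aff.ev
  simp only [map_add, map_mul, ev_A, ev_B, ev_C, this]

/-- the index type of the polynomials -/
abbrev KI (n : ℕ) : Type := (EI n × EI n) ⊕ ((Fin 4 → EI n × EI n) × EI n) ⊕ EI n

noncomputable def fam : KI n → MvPolynomial (JV n) ℝ
  | .inl p => pD p
  | .inr (.inl (p, f)) => pS p f
  | .inr (.inr f) => pb f

lemma td_fam (k : KI n) : (fam k).totalDegree ≤ 6 := by
  rcases k with p | ⟨p, f⟩ | f
  · exact (td_D p).trans (by norm_num)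
  · exact td_S p f
  · exact (td_b f).trans (by norm_num)

noncomputable def sgn (v : Fin n → ℝ × ℝ) (M : ℝ) (k : KI n) : SignType :=
  SignType.sign (eval (par v M) (fam k))

/-- the visibility graph is determined by the sign vector -/
theorem determined {v w : Fin n → ℝ × ℝ} {M M' : ℝ} (hv : IsSimplePolygon v)
    (hw : IsSimplePolygon w) (hM0 : 0 < M) (hM0' : 0 < M')
    (hM : ∀ i, |(v i).1| < M ∧ |(v i).2| < M) (hM' : ∀ i, |(w i).1| < M' ∧ |(w i).2| < M')
    (h : sgn v M = sgn w M') : visGraph v = visGraph w := by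
  have h1 : ∀ p, Dt (arr v M) p ≠ 0 ↔ Dt (arr w M') p ≠ 0 := by
    intro p
    have := congrFun h (.inl p)
    simp only [sgn, fam, ev_D] at this
    rw [← sign_ne_zero (a := Dt (arr v M) p), this, sign_ne_zero]
  have h2 : ∀ p f, sv (arr v M) p f = sv (arr w M') p f := by
    intro p f
    have := congrFun h (.inr (.inl (p, f)))
    simp only [sgn, fam, ev_S] at this
    exact this
  have h3 : sg' v M (M, M) = sg' w M' (M', M') := by
    funext f
    have := congrFun h (.inr (.inr f))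
    simp only [sgn, fam, ev_b] at this
    exact this
  have h4 : SS v M = SS w M' := by
    ext σ
    unfold SS
    simp only [Set.mem_ofPred_eq]
    refine exists_congr fun p => ?_
    refine and_congr (forall_congr' fun k => h1 (p k)) ?_
    rw [funext (h2 p)]
  ext i j
  rw [vis_iff hv hM0 hM, vis_iff hw hM0' hM', h4, h3]

lemma exists_M (v : Fin n → ℝ × ℝ) : ∃ M : ℝ, 0 < M ∧ ∀ i, |(v i).1| < M ∧ |(v i).2| < M := by
  have h0 : ∀ i, 0 ≤ |(v i).1| + |(v i).2| := fun i => by positivity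
  refine ⟨1 + ∑ i, (|(v i).1| + |(v i).2|), ?_, fun i => ?_⟩
  · have : 0 ≤ ∑ i, (|(v i).1| + |(v i).2|) := Finset.sum_nonneg fun i _ => h0 i
    linarith
  · have h1 : |(v i).1| + |(v i).2| ≤ ∑ i, (|(v i).1| + |(v i).2|) :=
      Finset.single_le_sum (fun i _ => h0 i) (Finset.mem_univ i)
    have := abs_nonneg (v i).1
    have := abs_nonneg (v i).2
    constructor <;> linarith

end

/-- the number of visibility graphs -/
theorem card_graphs (n : ℕ) :
    {G : SimpleGraph (Fin n) | ∃ v, IsSimplePolygon v ∧ G = visGraph v}.ncard ≤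
      (4 * (Fintype.card (KI n) * 6) + 1) ^ (2 * n + 1) := by
  classical
  set 𝒢 := {G : SimpleGraph (Fin n) | ∃ v, IsSimplePolygon v ∧ G = visGraph v} with h𝒢
  have hfin : 𝒢.Finite := Set.toFinite _
  have hch : ∀ G : 𝒢, ∃ q : (Fin n → ℝ × ℝ) × ℝ, IsSimplePolygon q.1 ∧
      (G : SimpleGraph (Fin n)) = visGraph q.1 ∧ 0 < q.2 ∧
      ∀ i, |(q.1 i).1| < q.2 ∧ |(q.1 i).2| < q.2 := by
    rintro ⟨G, v, hv, hG⟩
    obtain ⟨M, h1, h2⟩ := exists_M v
    exact ⟨(v, M), hv, hG, h1, h2⟩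
  choose q hq1 hq2 hq3 hq4 using hch
  let Φ : 𝒢 → (KI n → SignType) := fun G => sgn (q G).1 (q G).2
  have hinj : Function.Injective Φ := by
    intro G G' h
    apply Subtype.ext
    rw [hq2 G, hq2 G']
    exact determined (hq1 G) (hq1 G') (hq3 G) (hq3 G') (hq4 G) (hq4 G') h
  have : Fintype 𝒢 := hfin.fintype
  have h1 := Pool.Agent.H247R2.Warren.sign_count (ι := JV n) (J := KI n) fam 6 td_fam
    (Finset.univ.image Φ) (by
      intro σ hσ
      rw [Finset.mem_image] at hσ
      obtain ⟨G, -, rfl⟩ := hσ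
      exact ⟨par (q G).1 (q G).2, fun j => rfl⟩)
  rw [Finset.card_image_of_injective _ hinj, Finset.card_univ] at h1
  have h2 : Fintype.card (JV n) = 2 * n + 1 := by
    simp [JV]; ring
  rw [h2] at h1
  rw [← Nat.card_coe_set_eq, Nat.card_eq_fintype_card]
  exact h1

lemma card_KI (n : ℕ) (hn : 3 ≤ n) : 4 * (Fintype.card (KI n) * 6) + 1 ≤ n ^ 32 := by
  have hE : Fintype.card (EI n) ≤ 3 * n ^ 2 := by
    simp only [EI, Fintype.card_sum, Fintype.card_prod, Fintype.card_fin, Fintype.card_bool]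
    nlinarith
  have hE1 : 1 ≤ Fintype.card (EI n) := by
    simp only [EI, Fintype.card_sum, Fintype.card_prod, Fintype.card_fin, Fintype.card_bool]
    omega
  have hK : Fintype.card (KI n) = Fintype.card (EI n) ^ 2 + (Fintype.card (EI n) ^ 9 +
      Fintype.card (EI n)) := by
    simp only [KI, Fintype.card_sum, Fintype.card_prod, Fintype.card_fun, Fintype.card_fin]
    ring
  set E := Fintype.card (EI n)
  have h1 : E ^ 2 ≤ E ^ 9 := Nat.pow_le_pow_right hE1 (by norm_num)
  have h2 : E ≤ E ^ 9 := Nat.le_self_pow (by norm_num) E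
  have h3 : E ^ 9 ≤ (3 * n ^ 2) ^ 9 := Nat.pow_le_pow_left hE 9
  have h4 : 1 ≤ E ^ 9 := Nat.one_le_pow _ _ hE1
  calc 4 * (Fintype.card (KI n) * 6) + 1 ≤ 73 * E ^ 9 := by rw [hK]; omega
    _ ≤ 73 * (3 * n ^ 2) ^ 9 := by omega
    _ = 73 * 3 ^ 9 * n ^ 18 := by ring
    _ ≤ 3 ^ 14 * n ^ 18 := Nat.mul_le_mul_right _ (by norm_num)
    _ ≤ n ^ 14 * n ^ 18 := Nat.mul_le_mul_right _ (Nat.pow_le_pow_left hn 14)
    _ = n ^ 32 := by ring

theorem card_classes (n : ℕ) (hn : 3 ≤ n) : (classes n).ncard ≤ n ^ (75 * n) := by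
  classical
  have h1 : classes n = Quotient.mk (isoSetoid n) ''
      {G : SimpleGraph (Fin n) | ∃ v, IsSimplePolygon v ∧ G = visGraph v} := by
    ext c
    constructor
    · rintro ⟨v, hv, rfl⟩
      exact ⟨visGraph v, ⟨v, hv, rfl⟩, rfl⟩
    · rintro ⟨_, ⟨v, hv, rfl⟩, rfl⟩
      exact ⟨v, hv, rfl⟩
  rw [h1]
  refine (Set.ncard_image_le (Set.toFinite _)).trans ((card_graphs n).trans ?_)
  calc (4 * (Fintype.card (KI n) * 6) + 1) ^ (2 * n + 1) ≤ (n ^ 32) ^ (2 * n + 1) :=
        Nat.pow_le_pow_left (card_KI n hn) _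
    _ = n ^ (32 * (2 * n + 1)) := by rw [← pow_mul]
    _ ≤ n ^ (75 * n) := Nat.pow_le_pow_right (by omega) (by omega)

/-- the upper bound -/
theorem upper (n : ℕ) (hn : 3 ≤ n) :
    Real.logb 2 ((classes n).ncard : ℝ) ≤ 75 * ((n : ℝ) * Real.logb 2 n) := by
  have hnR : (3 : ℝ) ≤ n := by exact_mod_cast hn
  have hlog : 0 ≤ Real.logb 2 n := Real.logb_nonneg (by norm_num) (by linarith)
  rcases Nat.eq_zero_or_pos (classes n).ncard with h0 | h0
  · rw [h0, Nat.cast_zero, Real.logb_zero]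
    positivity
  · have h1 : ((classes n).ncard : ℝ) ≤ (n : ℝ) ^ (75 * n) := by exact_mod_cast card_classes n hn
    calc Real.logb 2 ((classes n).ncard : ℝ) ≤ Real.logb 2 ((n : ℝ) ^ (75 * n)) :=
          Real.logb_le_logb_of_le (by norm_num) (by exact_mod_cast h0) h1
      _ = 75 * ((n : ℝ) * Real.logb 2 n) := by
          rw [Real.logb_pow]; push_cast; ring

end Pool.Agent.W115.Vis
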