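import Mathlib

set_option autoImplicit false

/-! Affine functions in the plane: every sign vector realised in a bounding box is given by four
vertices of the arrangement. -/

namespace Pool.Agent.W115.Vis

/-- the affine function `a x + b y + c` -/
structure Aff where
  a : ℝ
  b : ℝ
  c : ℝ

namespace Aff

def ev (φ : Aff) (x : ℝ × ℝ) : ℝ := φ.a * x.1 + φ.b * x.2 + φ.c

def lin (φ : Aff) (d : ℝ × ℝ) : ℝ := φ.a * d.1 + φ.b * d.2

lemma ev_add (φ : Aff) (x d : ℝ × ℝ) (t : ℝ) : φ.ev (x + t • d) = φ.ev x + t * φ.lin d := by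
  unfold ev lin
  simp only [Prod.fst_add, Prod.smul_fst, smul_eq_mul, Prod.snd_add, Prod.smul_snd]
  ring

end Aff

section

variable {E : Type} [Fintype E] (A : E → Aff)

/-- the signs at `y` are those at `x` or zero -/
def Weak (y x : ℝ × ℝ) : Prop :=
  ∀ f, (A f).ev y = 0 ∨ SignType.sign ((A f).ev y) = SignType.sign ((A f).ev x)

def Dt (p : E × E) : ℝ := (A p.1).a * (A p.2).b - (A p.2).a * (A p.1).b

def Dx (p : E × E) : ℝ := (A p.1).b * (A p.2).c - (A p.2).b * (A p.1).c

def Dy (p : E × E) : ℝ := (A p.1).c * (A p.2).a - (A p.2).c * (A p.1).a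

def Tf (f : E) (p : E × E) : ℝ := (A f).a * Dx A p + (A f).b * Dy A p + (A f).c * Dt A p

/-- the signs given by four vertices -/
noncomputable def sv (p : Fin 4 → E × E) (f : E) : SignType :=
  SignType.sign (∑ k, Dt A (p k) * Tf A f (p k))

variable {A}

omit [Fintype E] in
lemma vert_eval {p : E × E} {z : ℝ × ℝ} (h1 : (A p.1).ev z = 0) (h2 : (A p.2).ev z = 0) (f : E) :
    Dt A p * (A f).ev z = Tf A f p := by
  unfold Aff.ev at *
  unfold Tf Dt Dx Dy
  linear_combination ((A f).a * (A p.2).b - (A f).b * (A p.2).a) * h1 +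
    (-(A f).a * (A p.1).b + (A f).b * (A p.1).a) * h2

omit [Fintype E] in
lemma Weak.refl (x : ℝ × ℝ) : Weak A x x := fun _ => Or.inr rfl

omit [Fintype E] in
lemma Weak.trans {x y z : ℝ × ℝ} (h1 : Weak A z y) (h2 : Weak A y x) : Weak A z x := by
  intro f
  rcases h1 f with h | h
  · exact Or.inl h
  · rcases h2 f with h' | h'
    · left
      rw [h', sign_zero, sign_eq_zero_iff] at h
      exact h
    · right; rw [h, h']

omit [Fintype E] in
lemma Weak.zero {x y : ℝ × ℝ} (h : Weak A y x) {f : E} (hf : (A f).ev x = 0) : (A f).ev y = 0 := by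
  rcases h f with h' | h'
  · exact h'
  · rwa [hf, sign_zero, sign_eq_zero_iff] at h'

/-- walk until the first zero -/
lemma ray {x d : ℝ × ℝ} (hz : ∀ f, (A f).ev x = 0 → (A f).lin d = 0)
    (hex : ∃ f, (A f).lin d * (A f).ev x < 0) :
    ∃ t : ℝ, 0 < t ∧ ∃ e, (A e).lin d ≠ 0 ∧ (A e).ev (x + t • d) = 0 ∧ Weak A (x + t • d) x := by
  classical
  set S : Finset E := Finset.univ.filter fun f => (A f).lin d * (A f).ev x < 0 with hS
  have hne : S.Nonempty := by
    obtain ⟨f, hf⟩ := hex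
    exact ⟨f, by simp [hS, hf]⟩
  obtain ⟨e, he, hmin⟩ := S.exists_min_image (fun f => -(A f).ev x / (A f).lin d) hne
  have he' : (A e).lin d * (A e).ev x < 0 := by simpa [hS] using he
  have hl : (A e).lin d ≠ 0 := by
    intro h; rw [h, zero_mul] at he'; exact lt_irrefl _ he'
  have tpos : ∀ f, (A f).lin d * (A f).ev x < 0 → 0 < -(A f).ev x / (A f).lin d := by
    intro f hf
    rcases lt_trichotomy ((A f).lin d) 0 with h | h | h
    · have : 0 < (A f).ev x := by
        by_contra hc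
        push Not at hc
        nlinarith
      exact div_pos_of_neg_of_neg (by linarith) h
    · rw [h, zero_mul] at hf; exact absurd hf (lt_irrefl _)
    · have : (A f).ev x < 0 := by
        by_contra hc
        push Not at hc
        nlinarith
      exact div_pos (by linarith) h
  set t := -(A e).ev x / (A e).lin d with ht
  have ht0 : 0 < t := tpos e he'
  refine ⟨t, ht0, e, hl, ?_, ?_⟩
  · rw [Aff.ev_add, ht]; field_simp; ring
  · intro f
    rw [Aff.ev_add]
    rcases lt_trichotomy ((A f).lin d * (A f).ev x) 0 with h | h | h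
    · -- hits zero later
      have h1 := hmin f (by simp [hS, h])
      have hlf : (A f).lin d ≠ 0 := by
        intro h'; rw [h', zero_mul] at h; exact lt_irrefl _ h
      set s := -(A f).ev x / (A f).lin d with hs
      have hs0 := tpos f h
      have e1 : (A f).lin d = -(A f).ev x / s := by
        rw [hs]
        have : (A f).ev x ≠ 0 := by
          intro h'; rw [h', mul_zero] at h; exact lt_irrefl _ h
        field_simp
      have e2 : (A f).ev x + t * (A f).lin d = (A f).ev x * ((s - t) / s) := by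
        rw [e1]
        have := tpos f h
        have hs' : s ≠ 0 := this.ne'
        field_simp
        ring
      rw [e2]
      have h1' : t ≤ s := h1
      rcases h1'.lt_or_eq with h2 | h2
      · right
        rw [sign_mul, sign_pos (div_pos (by linarith) (tpos f h)), mul_one]
      · left
        rw [h2, sub_self, zero_div, mul_zero]
    · rcases mul_eq_zero.1 h with h' | h'
      · right; rw [h', mul_zero, add_zero]
      · left; rw [h', hz f h']; ring
    · right
      have : 0 < (A f).lin d * (A f).ev x := h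
      rcases lt_trichotomy ((A f).lin d) 0 with h' | h' | h'
      · have h3 : (A f).ev x < 0 := by
          by_contra hc
          push Not at hc
          nlinarith
        rw [sign_neg h3, sign_neg (by nlinarith)]
      · rw [h', zero_mul] at this; exact absurd this (lt_irrefl _)
      · have h3 : 0 < (A f).ev x := by
          by_contra hc
          push Not at hc
          nlinarith
        rw [sign_pos h3, sign_pos (by nlinarith)]

/-- a property playing the role of a bounding box -/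
structure BoxHyp (A : E → Aff) (P : ℝ × ℝ → Prop) : Prop where
  hit : ∀ x d : ℝ × ℝ, P x → d ≠ 0 → (∀ f, (A f).ev x = 0 → (A f).lin d = 0) →
    ∃ f, (A f).lin d * (A f).ev x < 0
  mono : ∀ x y, Weak A y x → P x → P y

variable {P : ℝ × ℝ → Prop}

/-- walk in both directions -/
lemma two_rays (B : BoxHyp A P) {x d : ℝ × ℝ} (hx : P x) (hd : d ≠ 0)
    (hz : ∀ f, (A f).ev x = 0 → (A f).lin d = 0) :
    ∃ y1 y2 : ℝ × ℝ, ∃ e1 e2 : E, P y1 ∧ P y2 ∧ Weak A y1 x ∧ Weak A y2 x ∧
      (A e1).lin d ≠ 0 ∧ (A e1).ev y1 = 0 ∧ (A e2).lin d ≠ 0 ∧ (A e2).ev y2 = 0 ∧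
      ∀ f, (A f).ev y1 = 0 → (A f).ev y2 = 0 → (A f).ev x = 0 := by
  obtain ⟨t, ht, e1, h1, h2, h3⟩ := ray hz (B.hit x d hx hd hz)
  have hneg : ∀ f : E, (A f).lin (-d) = -(A f).lin d := by
    intro f; unfold Aff.lin; simp only [Prod.fst_neg, Prod.snd_neg]; ring
  have hz' : ∀ f, (A f).ev x = 0 → (A f).lin (-d) = 0 := by
    intro f hf; rw [hneg, hz f hf, neg_zero]
  obtain ⟨s, hs, e2, k1, k2, k3⟩ := ray hz' (B.hit x (-d) hx (neg_ne_zero.2 hd) hz')
  refine ⟨x + t • d, x + s • (-d), e1, e2, B.mono _ _ h3 hx, B.mono _ _ k3 hx, h3, k3, h1, h2,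
    ?_, k2, ?_⟩
  · intro h; apply k1; rw [hneg, h, neg_zero]
  · intro f q1 q2
    rw [Aff.ev_add] at q1 q2
    rw [hneg] at q2
    have : (s + t) * (A f).ev x = 0 := by
      linear_combination s * q1 + t * q2
    rcases mul_eq_zero.1 this with h | h
    · linarith
    · exact h

lemma level1 (B : BoxHyp A P) {x : ℝ × ℝ} (hx : P x) :
    ∃ y1 y2 : ℝ × ℝ, ∃ e1 e2 : E, P y1 ∧ P y2 ∧ Weak A y1 x ∧ Weak A y2 x ∧
      ((A e1).a ≠ 0 ∨ (A e1).b ≠ 0) ∧ (A e1).ev y1 = 0 ∧
      ((A e2).a ≠ 0 ∨ (A e2).b ≠ 0) ∧ (A e2).ev y2 = 0 ∧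
      ∀ f, (A f).ev y1 = 0 → (A f).ev y2 = 0 → (A f).ev x = 0 := by
  by_cases h : ∃ e, (A e).ev x = 0 ∧ ((A e).a ≠ 0 ∨ (A e).b ≠ 0)
  · obtain ⟨e, h1, h2⟩ := h
    exact ⟨x, x, e, e, hx, hx, Weak.refl x, Weak.refl x, h2, h1, h2, h1, fun f q _ => q⟩
  · push Not at h
    have hz : ∀ f, (A f).ev x = 0 → (A f).lin ((1, 0) : ℝ × ℝ) = 0 := by
      intro f hf
      unfold Aff.lin
      rw [(h f hf).1]; simp
    have hlin : ∀ e : E, (A e).lin ((1, 0) : ℝ × ℝ) ≠ 0 → ((A e).a ≠ 0 ∨ (A e).b ≠ 0) := by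
      intro e he
      left
      intro h0
      apply he
      unfold Aff.lin
      rw [h0]; simp
    obtain ⟨y1, y2, e1, e2, a1, a2, a3, a4, a5, a6, a7, a8, a9⟩ :=
      two_rays B hx (d := (1, 0)) (by intro h; simpa using congrArg Prod.fst h) hz
    exact ⟨y1, y2, e1, e2, a1, a2, a3, a4, hlin _ a5, a6, hlin _ a7, a8, a9⟩

/-- `z` is the vertex of the pair `p` -/
def IsV (A : E → Aff) (p : E × E) (z : ℝ × ℝ) : Prop :=
  Dt A p ≠ 0 ∧ (A p.1).ev z = 0 ∧ (A p.2).ev z = 0

lemma level2 (B : BoxHyp A P) {y : ℝ × ℝ} (hy : P y) {e : E} (he : (A e).a ≠ 0 ∨ (A e).b ≠ 0)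
    (hey : (A e).ev y = 0) :
    ∃ z1 z2 : ℝ × ℝ, ∃ p1 p2 : E × E, Weak A z1 y ∧ Weak A z2 y ∧ IsV A p1 z1 ∧ IsV A p2 z2 ∧
      ∀ f, (A f).ev z1 = 0 → (A f).ev z2 = 0 → (A f).ev y = 0 := by
  by_cases h : ∃ e', (A e').ev y = 0 ∧ Dt A (e, e') ≠ 0
  · obtain ⟨e', h1, h2⟩ := h
    exact ⟨y, y, (e, e'), (e, e'), Weak.refl y, Weak.refl y, ⟨h2, hey, h1⟩, ⟨h2, hey, h1⟩,
      fun f q _ => q⟩
  · push Not at h
    set d : ℝ × ℝ := (-(A e).b, (A e).a) with hd
    have hlin : ∀ f : E, (A f).lin d = Dt A (e, f) := by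
      intro f; unfold Aff.lin Dt; rw [hd]; ring
    have hd0 : d ≠ 0 := by
      intro h0
      have h1 := congrArg Prod.fst h0
      have h2 := congrArg Prod.snd h0
      simp only [hd, Prod.fst_zero, Prod.snd_zero, neg_eq_zero] at h1 h2
      rcases he with h | h
      · exact h h2
      · exact h h1
    have hz : ∀ f, (A f).ev y = 0 → (A f).lin d = 0 := by
      intro f hf; rw [hlin]; exact h f hf
    obtain ⟨z1, z2, e1, e2, -, -, a3, a4, a5, a6, a7, a8, a9⟩ := two_rays B hy hd0 hz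
    rw [hlin] at a5 a7
    exact ⟨z1, z2, (e, e1), (e, e2), a3, a4, ⟨a5, a3.zero hey, a6⟩, ⟨a7, a4.zero hey, a8⟩, a9⟩

/-- every sign vector in the box comes from four vertices -/
theorem exists_four (B : BoxHyp A P) {x : ℝ × ℝ} (hx : P x) :
    ∃ p : Fin 4 → E × E, (∀ k, Dt A (p k) ≠ 0) ∧
      ∀ f, SignType.sign ((A f).ev x) = sv A p f := by
  obtain ⟨y1, y2, e1, e2, a1, a2, a3, a4, a5, a6, a7, a8, a9⟩ := level1 B hx
  obtain ⟨z1, z2, p1, p2, b1, b2, b3, b4, b5⟩ := level2 B a1 a5 a6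
  obtain ⟨z3, z4, p3, p4, c1, c2, c3, c4, c5⟩ := level2 B a2 a7 a8
  set z : Fin 4 → ℝ × ℝ := ![z1, z2, z3, z4] with hz
  set p : Fin 4 → E × E := ![p1, p2, p3, p4] with hp
  have hV : ∀ k, IsV A (p k) (z k) := by
    intro k; fin_cases k
    · exact b3
    · exact b4
    · exact c3
    · exact c4
  have hW : ∀ k, Weak A (z k) x := by
    intro k; fin_cases k
    · exact b1.trans a3
    · exact b2.trans a3
    · exact c1.trans a4
    · exact c2.trans a4
  have hZ : ∀ f, (∀ k, (A f).ev (z k) = 0) → (A f).ev x = 0 := by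
    intro f h
    exact a9 f (b5 f (h 0) (h 1)) (c5 f (h 2) (h 3))
  refine ⟨p, fun k => (hV k).1, fun f => ?_⟩
  unfold sv
  have hT : ∀ k, Dt A (p k) * Tf A f (p k) = Dt A (p k) ^ 2 * (A f).ev (z k) := by
    intro k
    rw [← vert_eval (hV k).2.1 (hV k).2.2 f]; ring
  simp_rw [hT]
  have hpos : ∀ k, 0 < Dt A (p k) ^ 2 := fun k => by
    have := (hV k).1
    positivity
  rcases lt_trichotomy ((A f).ev x) 0 with h | h | h
  · rw [sign_neg h]
    symm
    rw [sign_eq_neg_one_iff]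
    have hle : ∀ k, (A f).ev (z k) ≤ 0 := by
      intro k
      rcases hW k f with h1 | h1
      · exact h1.le
      · rw [sign_neg h, sign_eq_neg_one_iff] at h1; exact h1.le
    have hlt : ∃ k, (A f).ev (z k) < 0 := by
      by_contra hc
      push Not at hc
      exact h.ne (hZ f fun k => le_antisymm (hle k) (hc k))
    obtain ⟨k, hk⟩ := hlt
    apply Finset.sum_neg' (fun k _ => mul_nonpos_of_nonneg_of_nonpos (hpos k).le (hle k))
    exact ⟨k, Finset.mem_univ _, mul_neg_of_pos_of_neg (hpos k) hk⟩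
  · rw [h, sign_zero]
    symm
    rw [sign_eq_zero_iff]
    apply Finset.sum_eq_zero
    intro k _
    rw [(hW k).zero h, mul_zero]
  · rw [sign_pos h]
    symm
    rw [sign_eq_one_iff]
    have hle : ∀ k, 0 ≤ (A f).ev (z k) := by
      intro k
      rcases hW k f with h1 | h1
      · exact h1.ge
      · rw [sign_pos h, sign_eq_one_iff] at h1; exact h1.le
    have hlt : ∃ k, 0 < (A f).ev (z k) := by
      by_contra hc
      push Not at hc
      exact h.ne' (hZ f fun k => le_antisymm (hc k) (hle k))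
    obtain ⟨k, hk⟩ := hlt
    apply Finset.sum_pos' (fun k _ => mul_nonneg (hpos k).le (hle k))
    exact ⟨k, Finset.mem_univ _, mul_pos (hpos k) hk⟩

omit [Fintype E] in
/-- conversely such a sign vector is realised somewhere in the plane -/
theorem realised (p : Fin 4 → E × E) (hp : ∀ k, Dt A (p k) ≠ 0) :
    ∃ y : ℝ × ℝ, ∀ f, SignType.sign ((A f).ev y) = sv A p f := by
  set L : ℝ := ∑ k, Dt A (p k) ^ 2 with hL
  have hL0 : 0 < L := by
    apply Finset.sum_pos (fun k _ => ?_) Finset.univ_nonempty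
    have := hp k
    positivity
  refine ⟨((∑ k, Dt A (p k) * Dx A (p k)) / L, (∑ k, Dt A (p k) * Dy A (p k)) / L), fun f => ?_⟩
  have h1 : L * (A f).ev ((∑ k, Dt A (p k) * Dx A (p k)) / L,
      (∑ k, Dt A (p k) * Dy A (p k)) / L) = ∑ k, Dt A (p k) * Tf A f (p k) := by
    unfold Aff.ev Tf
    simp only
    have e1 : ∀ k, Dt A (p k) * ((A f).a * Dx A (p k) + (A f).b * Dy A (p k) +
        (A f).c * Dt A (p k)) = (A f).a * (Dt A (p k) * Dx A (p k)) +
        (A f).b * (Dt A (p k) * Dy A (p k)) + (A f).c * Dt A (p k) ^ 2 := by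
      intro k; ring
    simp_rw [e1]
    rw [Finset.sum_add_distrib, Finset.sum_add_distrib, ← Finset.mul_sum, ← Finset.mul_sum,
      ← Finset.mul_sum, ← hL]
    field_simp
  unfold sv
  rw [← h1, sign_mul, sign_pos hL0, one_mul]

end

end Pool.Agent.W115.Vis
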