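import Mathlib

set_option autoImplicit false

/-! The combinatorial model of the visibility graphs and its rigidity. -/

namespace Pool.Agent.W115.Vis

open Finset

/-- vertices of the model: two base points for each of `m` teeth, the tips of the teeth, the
points of the lower chain (numbered from the right) -/
inductive VV (m e : ℕ) : Type
  | T : Fin m → Bool → VV m e
  | P : Fin m → VV m e
  | B : Fin (3 * m + e + 1) → VV m e
  deriving DecidableEq, Fintype

open VV

/-- adjacency of the model -/
def adjM (m e : ℕ) (f : Fin m → Fin m) : VV m e → VV m e → Prop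
  | T i a, T j b => i ≠ j ∨ a ≠ b
  | T _ _, B _ => True
  | B _, T _ _ => True
  | T i _, P j => i = j
  | P j, T i _ => i = j
  | P _, P _ => False
  | P i, B d => m + e ≤ (d : ℕ) + f i ∧ (d : ℕ) ≤ 2 * m + e + i + 1
  | B d, P i => m + e ≤ (d : ℕ) + f i ∧ (d : ℕ) ≤ 2 * m + e + i + 1
  | B c, B d => (c : ℕ) = d + 1 ∨ (d : ℕ) = c + 1

/-- the model graph -/
def Γ (m e : ℕ) (f : Fin m → Fin m) : SimpleGraph (VV m e) where
  Adj := adjM m e f
  symm := ⟨by
    intro u v h
    cases u <;> cases v <;> simp only [adjM] at h ⊢ <;> first | exact h | tauto⟩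
  loopless := ⟨by
    intro u h
    cases u <;> simp [adjM] at h⟩

section

variable {m e : ℕ} {f g : Fin m → Fin m}

/-- non-neighbours -/
noncomputable def NN {V : Type} [Fintype V] [DecidableEq V] (G : SimpleGraph V) (v : V) : Finset V :=
  open Classical in univ.filter fun w => w ≠ v ∧ ¬ G.Adj v w

lemma mem_NN {V : Type} [Fintype V] [DecidableEq V] (G : SimpleGraph V) (v w : V) :
    w ∈ NN G v ↔ w ≠ v ∧ ¬ G.Adj v w := by
  simp [NN]

lemma card_NN_iso {V : Type} [Fintype V] [DecidableEq V] {G G' : SimpleGraph V} (φ : G ≃g G')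
    (v : V) : (NN G' (φ v)).card = (NN G v).card := by
  symm
  apply card_bij (fun w _ => φ w)
  · intro w hw
    rw [mem_NN] at hw ⊢
    exact ⟨fun h => hw.1 (φ.injective h), fun h => hw.2 (φ.map_adj_iff.1 h)⟩
  · intro a _ b _ h
    exact φ.injective h
  · intro b hb
    refine ⟨φ.symm b, ?_, by simp⟩
    rw [mem_NN] at hb ⊢
    refine ⟨fun h => hb.1 ?_, fun h => hb.2 ?_⟩
    · rw [← h]; simp
    · have := φ.map_adj_iff.2 h
      simpa using this

lemma card_T (i : Fin m) (a : Bool) : (NN (Γ m e f) (T i a)).card + 1 ≤ m := by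
  have h1 : NN (Γ m e f) (T i a) ⊆ (univ.erase i).image (fun j => (P j : VV m e)) := by
    intro w hw
    rw [mem_NN] at hw
    rw [mem_image]
    cases w with
    | T j b =>
      exfalso
      apply hw.2
      show i ≠ j ∨ a ≠ b
      by_contra h
      push Not at h
      exact hw.1 (by rw [h.1, h.2])
    | P j =>
      refine ⟨j, ?_, rfl⟩
      rw [mem_erase]
      refine ⟨fun h => hw.2 ?_, mem_univ _⟩
      show i = j
      exact h.symm
    | B d => exact absurd trivial hw.2
  have h2 := (card_le_card h1).trans card_image_le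
  rw [card_erase_of_mem (mem_univ _), card_univ, Fintype.card_fin] at h2
  have := i.2
  omega

lemma card_P (hm : 2 ≤ m) (i : Fin m) : m ≤ (NN (Γ m e f) (P i)).card := by
  have h1 : ((univ.erase i) ×ˢ (univ : Finset Bool)).image
      (fun q => (T q.1 q.2 : VV m e)) ⊆ NN (Γ m e f) (P i) := by
    intro w hw
    rw [mem_image] at hw
    obtain ⟨⟨j, b⟩, hq, rfl⟩ := hw
    rw [mem_product, mem_erase] at hq
    rw [mem_NN]
    refine ⟨by simp, ?_⟩
    intro h
    have h' : j = i := h
    exact hq.1.1 h'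
  have h2 := card_le_card h1
  rw [card_image_of_injective, card_product, card_erase_of_mem (mem_univ _), card_univ, card_univ,
    Fintype.card_fin, Fintype.card_bool] at h2
  · omega
  · rintro ⟨a, b⟩ ⟨c, d⟩ h
    simpa using h

lemma card_B (hm : 1 ≤ m) (d : Fin (3 * m + e + 1)) : m ≤ (NN (Γ m e f) (B d)).card := by
  have key : ∀ c : ℕ, c + m ≤ 3 * m + e + 1 → (∀ j < m, (d : ℕ) + 1 < c + j ∨ c + j + 1 < d) →
      m ≤ (NN (Γ m e f) (B d)).card := by
    intro c hc hd
    have h1 : (univ : Finset (Fin m)).image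
        (fun j : Fin m => (B ⟨c + j, by have := j.2; omega⟩ : VV m e)) ⊆ NN (Γ m e f) (B d) := by
      intro w hw
      rw [mem_image] at hw
      obtain ⟨j, -, rfl⟩ := hw
      rw [mem_NN]
      have := hd j j.2
      refine ⟨?_, ?_⟩
      · intro h
        rw [B.injEq, Fin.ext_iff] at h
        simp only at h
        omega
      · intro h
        have h' : (d : ℕ) = (c + j) + 1 ∨ c + (j : ℕ) = d + 1 := h
        omega
    have h2 := card_le_card h1
    rw [card_image_of_injective, card_univ, Fintype.card_fin] at h2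
    · exact h2
    · intro a b h
      simp only [B.injEq, Fin.ext_iff] at h
      exact Fin.ext (by omega)
  rcases Nat.lt_or_ge m d with h | h
  · exact key 0 (by omega) (fun j hj => Or.inr (by omega))
  · exact key (m + 2) (by omega) (fun j hj => Or.inl (by omega))

/-- being one of the `T` vertices -/
def isT : VV m e → Prop
  | T _ _ => True
  | _ => False

lemma isT_iff (hm : 2 ≤ m) (v : VV m e) : isT v ↔ (NN (Γ m e f) v).card + 1 ≤ m := by
  cases v with
  | T i a => simp only [isT, true_iff]; exact card_T i a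
  | P i =>
    simp only [isT, false_iff]
    have := card_P (e := e) (f := f) hm i
    omega
  | B d =>
    simp only [isT, false_iff]
    have := card_B (e := e) (f := f) (by omega) d
    omega

lemma isT_iso (hm : 2 ≤ m) (φ : Γ m e f ≃g Γ m e g) (v : VV m e) : isT (φ v) ↔ isT v := by
  rw [isT_iff (f := g) hm, isT_iff (f := f) hm, card_NN_iso]

/-- the `B` vertices are the vertices outside `T` adjacent to all `T` vertices -/
lemma isB_iff (hm : 2 ≤ m) (v : VV m e) :
    (∃ d, v = B d) ↔ ¬ isT v ∧ ∀ w, isT w → (Γ m e f).Adj v w := by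
  constructor
  · rintro ⟨d, rfl⟩
    refine ⟨fun h => h, ?_⟩
    intro w hw
    cases w with
    | T i a => exact trivial
    | P i => exact absurd hw id
    | B d => exact absurd hw id
  · rintro ⟨h1, h2⟩
    cases v with
    | T i a => exact absurd trivial h1
    | P i =>
      exfalso
      have : ∃ j : Fin m, j ≠ i := by
        have : Nontrivial (Fin m) := Fin.nontrivial_iff_two_le.2 hm
        exact exists_ne i
      obtain ⟨j, hj⟩ := this
      have h3 : j = i := h2 (T j true) trivial
      exact hj h3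
    | B d => exact ⟨d, rfl⟩

lemma isB_iso (hm : 2 ≤ m) (φ : Γ m e f ≃g Γ m e g) (v : VV m e) :
    (∃ d, φ v = B d) ↔ ∃ d, v = B d := by
  rw [isB_iff (f := g) hm, isB_iff (f := f) hm, isT_iso hm φ]
  refine and_congr_right fun _ => ?_
  constructor
  · intro h w hw
    have := h (φ w) ((isT_iso hm φ w).2 hw)
    exact φ.map_adj_iff.1 this
  · intro h w hw
    have h1 : isT (φ.symm w) := by
      rw [← isT_iso hm φ]; simpa using hw
    have := φ.map_adj_iff.2 (h _ h1)
    simpa using this

lemma isP_iso (hm : 2 ≤ m) (φ : Γ m e f ≃g Γ m e g) (i : Fin m) : ∃ j, φ (P i) = P j := by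
  have h1 := isT_iso hm φ (P i)
  have h2 := isB_iso hm φ (P i)
  cases h : φ (P i) with
  | T j a => rw [h] at h1; exact absurd (h1.1 trivial) id
  | P j => exact ⟨j, rfl⟩
  | B d =>
    obtain ⟨d', hd'⟩ := h2.1 ⟨d, h⟩
    exact absurd hd' (by simp)

/-- the lower chain is fixed -/
lemma B_fixed (hm : 2 ≤ m) (φ : Γ m e f ≃g Γ m e g) (d : Fin (3 * m + e + 1)) :
    φ (B d) = B d := by
  -- images
  have hB : ∀ d, ∃ d', φ (B d) = B d' := fun d => (isB_iso hm φ (B d)).2 ⟨d, rfl⟩
  have hB' : ∀ d, ∃ d', φ.symm (B d) = B d' := by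
    intro d
    apply (isB_iso hm φ _).1
    exact ⟨d, by simp⟩
  have h0 : φ (B ⟨0, by omega⟩) = B ⟨0, by omega⟩ := by
    obtain ⟨c, hc⟩ := hB ⟨0, by omega⟩
    rcases Nat.eq_zero_or_pos (c : ℕ) with h | h
    · rw [hc, B.injEq]; exact Fin.ext h
    · exfalso
      rcases Nat.lt_or_ge c (3 * m + e) with h2 | h2
      · -- two neighbours
        obtain ⟨x, hx⟩ := hB' ⟨c - 1, by omega⟩
        obtain ⟨y, hy⟩ := hB' ⟨c + 1, by omega⟩
        have a1 : (Γ m e g).Adj (φ (B ⟨0, by omega⟩)) (B ⟨c - 1, by omega⟩) := by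
          rw [hc]; exact Or.inl (by simp only; omega)
        have a2 : (Γ m e g).Adj (φ (B ⟨0, by omega⟩)) (B ⟨c + 1, by omega⟩) := by
          rw [hc]; exact Or.inr rfl
        have a1' : (Γ m e f).Adj (B ⟨0, by omega⟩) (B x) := by
          rw [← hx]; apply φ.map_adj_iff.1; simpa using a1
        have a2' : (Γ m e f).Adj (B ⟨0, by omega⟩) (B y) := by
          rw [← hy]; apply φ.map_adj_iff.1; simpa using a2
        have b1 : 0 = (x : ℕ) + 1 ∨ (x : ℕ) = 0 + 1 := a1'
        have b2 : 0 = (y : ℕ) + 1 ∨ (y : ℕ) = 0 + 1 := a2'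
        have hxy : x = y := Fin.ext (by omega)
        rw [hxy, ← hy] at hx
        have := φ.symm.injective hx
        rw [B.injEq, Fin.ext_iff] at this
        simp only at this
        omega
      · -- the last vertex has a `P` neighbour
        have hc2 := c.2
        have a1 : (Γ m e g).Adj (B c) (P ⟨m - 1, by omega⟩) :=
          ⟨by omega, by simp only; omega⟩
        obtain ⟨j, hj⟩ := isP_iso hm φ.symm ⟨m - 1, by omega⟩
        have a2 : (Γ m e f).Adj (B ⟨0, by omega⟩) (P j) := by
          rw [← hj]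
          apply φ.map_adj_iff.1
          rw [hc]; simpa using a1
        have a3 : m + e ≤ 0 + (f j : ℕ) := a2.1
        have := (f j).2
        omega
  have key : ∀ k : ℕ, ∀ hk : k < 3 * m + e + 1, φ (B ⟨k, hk⟩) = B ⟨k, hk⟩ := by
    intro k
    induction k using Nat.strong_induction_on with
    | _ k ih =>
      intro hk
      rcases k with _ | _ | k
      · exact h0
      · obtain ⟨c, hc⟩ := hB ⟨0 + 1, hk⟩
        have a1 : (Γ m e f).Adj (B ⟨0, by omega⟩) (B ⟨0 + 1, hk⟩) := Or.inr rfl
        have a2 := φ.map_adj_iff.2 a1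
        rw [h0, hc] at a2
        have a3 : 0 = (c : ℕ) + 1 ∨ (c : ℕ) = 0 + 1 := a2
        rw [hc, B.injEq]
        exact Fin.ext (by simp only; omega)
      · obtain ⟨c, hc⟩ := hB ⟨k + 1 + 1, hk⟩
        have a1 : (Γ m e f).Adj (B ⟨k + 1, by omega⟩) (B ⟨k + 1 + 1, hk⟩) := Or.inr rfl
        have a2 := φ.map_adj_iff.2 a1
        rw [ih (k + 1) (by omega) (by omega), hc] at a2
        have a3 : k + 1 = (c : ℕ) + 1 ∨ (c : ℕ) = k + 1 + 1 := a2
        rcases a3 with a3 | a3
        · exfalso
          have h4 := ih k (by omega) (by omega)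
          have h5 : c = ⟨k, by omega⟩ := Fin.ext (by simp only; omega)
          rw [h5, ← h4] at hc
          have := φ.injective hc
          rw [B.injEq, Fin.ext_iff] at this
          simp only at this
          omega
        · rw [hc, B.injEq]
          exact Fin.ext a3
  exact key d d.2

theorem rigid (hm : 2 ≤ m) (h : Nonempty (Γ m e f ≃g Γ m e g)) : f = g := by
  obtain ⟨φ⟩ := h
  funext i
  obtain ⟨j, hj⟩ := isP_iso hm φ i
  have hadj : ∀ d, (Γ m e f).Adj (P i) (B d) ↔ (Γ m e g).Adj (P j) (B d) := by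
    intro d
    rw [← φ.map_adj_iff, hj, B_fixed hm φ d]
  have hi := i.2
  have hj' := j.2
  have hfi := (f i).2
  have hgj := (g j).2
  have hij : (i : ℕ) = j := by
    have h1 := hadj ⟨2 * m + e + i + 1, by omega⟩
    have h2 := hadj ⟨2 * m + e + j + 1, by omega⟩
    have h3 : (Γ m e f).Adj (P i) (B ⟨2 * m + e + i + 1, by omega⟩) :=
      ⟨by simp only; omega, by simp only; omega⟩
    have h4 : (Γ m e g).Adj (P j) (B ⟨2 * m + e + j + 1, by omega⟩) :=
      ⟨by simp only; omega, by simp only; omega⟩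
    have h5 := (h1.1 h3).2
    have h6 := (h2.2 h4).2
    simp only at h5 h6
    omega
  have hij' : i = j := Fin.ext hij
  subst hij'
  apply Fin.ext
  have h1 := hadj ⟨m + e - f i, by omega⟩
  have h2 := hadj ⟨m + e - g i, by omega⟩
  have h3 : (Γ m e f).Adj (P i) (B ⟨m + e - f i, by omega⟩) :=
    ⟨by simp only; omega, by simp only; omega⟩
  have h4 : (Γ m e g).Adj (P i) (B ⟨m + e - g i, by omega⟩) :=
    ⟨by simp only; omega, by simp only; omega⟩
  have h5 := (h1.1 h3).1
  have h6 := (h2.2 h4).1
  simp only at h5 h6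
  omega

end

end Pool.Agent.W115.Vis
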