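import Mathlib

set_option autoImplicit false

namespace Pool.Agent.W115.Vis

/-- The `i`-th side of the closed polygonal curve through `v 0, v 1, …, v (n-1), v 0`
(`finRotate n` is the cyclic successor `i ↦ i + 1` on `Fin n`). -/
def side {n : ℕ} (v : Fin n → ℝ × ℝ) (i : Fin n) : Set (ℝ × ℝ) :=
  segment ℝ (v i) (v (finRotate n i))

/-- The closed polygonal curve. -/
def curve {n : ℕ} (v : Fin n → ℝ × ℝ) : Set (ℝ × ℝ) := ⋃ i, side v i

/-- `v 0, …, v (n-1)` are, in this cyclic order, the `n` vertices of a simple polygon: consecutive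
vertices differ, consecutive sides meet only in their common vertex and any two other sides are
disjoint. -/
structure IsSimplePolygon {n : ℕ} (v : Fin n → ℝ × ℝ) : Prop where
  three_le : 3 ≤ n
  ne : ∀ i, v i ≠ v (finRotate n i)
  consecutive : ∀ i, side v i ∩ side v (finRotate n i) = {v (finRotate n i)}
  disjoint : ∀ i j, j ≠ i → j ≠ finRotate n i → i ≠ finRotate n j →
    Disjoint (side v i) (side v j)

/-- No vertex has a straight angle. -/
def NoStraightAngle {n : ℕ} (v : Fin n → ℝ × ℝ) : Prop :=
  ∀ i, ¬ Collinear ℝ {v i, v (finRotate n i), v (finRotate n (finRotate n i))}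

/-- The closed region bounded by the curve: the points whose connected component in the complement
of the curve is bounded (for the points of the curve this component is empty by convention). -/
def region {n : ℕ} (v : Fin n → ℝ × ℝ) : Set (ℝ × ℝ) :=
  {x | Bornology.IsBounded (connectedComponentIn (curve v)ᶜ x)}

/-- The visibility graph: two vertices are adjacent when the closed segment joining them is
contained in the closed region bounded by the polygon. -/
def visGraph {n : ℕ} (v : Fin n → ℝ × ℝ) : SimpleGraph (Fin n) where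
  Adj i j := i ≠ j ∧ segment ℝ (v i) (v j) ⊆ region v
  symm := ⟨fun i j h => ⟨h.1.symm, by rw [segment_symm]; exact h.2⟩⟩
  loopless := ⟨fun i h => h.1 rfl⟩

/-- Isomorphism of graphs on `Fin n`, as a setoid. -/
def isoSetoid (n : ℕ) : Setoid (SimpleGraph (Fin n)) where
  r G H := Nonempty (G ≃g H)
  iseqv := ⟨fun _ => ⟨SimpleGraph.Iso.refl⟩, fun ⟨e⟩ => ⟨e.symm⟩, fun ⟨e⟩ ⟨f⟩ => ⟨e.trans f⟩⟩

/-- The set of the isomorphism classes of the visibility graphs of simple polygons with `n`
vertices. -/
def classes (n : ℕ) : Set (Quotient (isoSetoid n)) :=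
  {c | ∃ v : Fin n → ℝ × ℝ, IsSimplePolygon v ∧ c = Quotient.mk (isoSetoid n) (visGraph v)}

/-- The same for the simple polygons with `n` vertices none of which has a straight angle. -/
def strictClasses (n : ℕ) : Set (Quotient (isoSetoid n)) :=
  {c | ∃ v : Fin n → ℝ × ℝ, IsSimplePolygon v ∧ NoStraightAngle v ∧
    c = Quotient.mk (isoSetoid n) (visGraph v)}

end Pool.Agent.W115.Vis
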