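import Pool.Agent.W115.Vis.Mono

set_option autoImplicit false

/-! The family of polygons. -/

namespace Pool.Agent.W115.Vis

open Set

namespace Fam

/-- size of the picture -/
noncomputable def W (m e : ℕ) : ℝ := 2 * m + e + 1

/-- height of the ceiling -/
noncomputable def H (m e : ℕ) : ℝ := 10 * W m e ^ 2

/-- where the line from `(i, H + 1)` to `(t, -t^2)` meets the ceiling, relative to `i` -/
noncomputable def sg (m e : ℕ) (i t : ℝ) : ℝ := (t - i) / (H m e + 1 + t ^ 2)

noncomputable def al (m e : ℕ) (i : ℕ) : ℝ := i + sg m e i (-i - 3 / 2)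

noncomputable def be (m e : ℕ) (f : ℕ → ℕ) (i : ℕ) : ℝ := i + sg m e i (m + f i + 1 / 2)

structure Par (m : ℕ) (f : ℕ → ℕ) : Prop where
  hm : 1 ≤ m
  hf : ∀ i, i < m → f i < m

variable {m e : ℕ} {f : ℕ → ℕ}

lemma W_ge (hm : 1 ≤ m) : 3 ≤ W m e := by
  have : (1 : ℝ) ≤ m := by exact_mod_cast hm
  have : (0 : ℝ) ≤ e := Nat.cast_nonneg _
  unfold W; linarith

lemma H_ge (hm : 1 ≤ m) : 90 ≤ H m e := by
  have := W_ge (e := e) hm
  unfold H; nlinarith

lemma den_pos (hm : 1 ≤ m) (t : ℝ) : 0 < H m e + 1 + t ^ 2 := by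
  have := H_ge (e := e) hm
  positivity

lemma sg_lt (hm : 1 ≤ m) {i t t' : ℝ} (hi : 0 ≤ i) (hi' : i ≤ W m e) (ht : |t| ≤ W m e)
    (ht' : |t'| ≤ W m e) (h : t < t') : sg m e i t < sg m e i t' := by
  unfold sg
  rw [div_lt_div_iff₀ (den_pos hm t) (den_pos hm t')]
  have hW := W_ge (e := e) hm
  have hH : H m e = 10 * W m e ^ 2 := rfl
  set w := W m e
  rw [abs_le] at ht ht'
  have h1 : -(w * w) ≤ t * t' ∧ t * t' ≤ w * w := by
    constructor <;> nlinarith [ht.1, ht.2, ht'.1, ht'.2]
  have h2 : -(w * (2 * w)) ≤ i * (t + t') := by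
    nlinarith [ht.1, ht'.1]
  have key : 0 < (H m e + 1) - t * t' + i * (t + t') := by
    rw [hH]; nlinarith [h1.2]
  have : (t' - i) * (H m e + 1 + t ^ 2) - (t - i) * (H m e + 1 + t' ^ 2) =
      (t' - t) * ((H m e + 1) - t * t' + i * (t + t')) := by ring
  have h3 : 0 < (t' - t) * ((H m e + 1) - t * t' + i * (t + t')) :=
    mul_pos (by linarith) key
  linarith

lemma sg_abs (hm : 1 ≤ m) {i t : ℝ} (hi : 0 ≤ i) (hi' : i ≤ W m e) (ht : |t| ≤ W m e) :
    |sg m e i t| < 1 / 2 := by
  unfold sg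
  rw [abs_div, abs_of_pos (den_pos hm t), div_lt_iff₀ (den_pos hm t)]
  have hW := W_ge (e := e) hm
  have hH : H m e = 10 * W m e ^ 2 := rfl
  set w := W m e
  have h1 : |t - i| ≤ 2 * w := by
    rw [abs_le] at ht ⊢
    constructor <;> linarith [ht.1, ht.2]
  rw [hH]
  nlinarith [sq_nonneg t]

lemma sg_neg (hm : 1 ≤ m) {i t : ℝ} (h : t < i) : sg m e i t < 0 :=
  div_neg_of_neg_of_pos (by linarith) (den_pos hm t)

lemma sg_pos (hm : 1 ≤ m) {i t : ℝ} (h : i < t) : 0 < sg m e i t :=
  div_pos (by linarith) (den_pos hm t)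

section

variable (p : Par m f)
include p

lemma cast_lt {i : ℕ} (hi : i < m) : (i : ℝ) + 1 ≤ m := by exact_mod_cast hi

lemma f_lt {i : ℕ} (hi : i < m) : (f i : ℝ) + 1 ≤ m := by exact_mod_cast p.hf i hi

omit p in
lemma one_le (hm : 1 ≤ m) : (1 : ℝ) ≤ m := by exact_mod_cast hm

lemma al_lt {i : ℕ} : al m e i < i := by
  have h0 : (0 : ℝ) ≤ i := Nat.cast_nonneg _
  have := sg_neg (m := m) (e := e) p.hm (i := i) (t := -i - 3 / 2) (by linarith)
  unfold al; linarith

lemma al_gt {i : ℕ} (hi : i < m) : (i : ℝ) - 1 / 2 < al m e i := by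
  have h0 : (0 : ℝ) ≤ i := Nat.cast_nonneg _
  have h1 := cast_lt p hi
  have he : (0 : ℝ) ≤ e := Nat.cast_nonneg _
  have := sg_abs (m := m) (e := e) p.hm (i := i) (t := -i - 3 / 2) h0 (by unfold W; linarith)
    (by rw [abs_le]; unfold W; constructor <;> linarith)
  rw [abs_lt] at this
  unfold al; linarith [this.1]

lemma be_gt {i : ℕ} (hi : i < m) : (i : ℝ) < be m e f i := by
  have h0 : (0 : ℝ) ≤ i := Nat.cast_nonneg _
  have h1 := cast_lt p hi
  have h2 : (0 : ℝ) ≤ f i := Nat.cast_nonneg _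
  have := sg_pos (m := m) (e := e) p.hm (i := i) (t := m + f i + 1 / 2) (by linarith)
  unfold be; linarith

lemma be_lt {i : ℕ} (hi : i < m) : be m e f i < i + 1 / 2 := by
  have h0 : (0 : ℝ) ≤ i := Nat.cast_nonneg _
  have h1 := cast_lt p hi
  have h2 : (0 : ℝ) ≤ f i := Nat.cast_nonneg _
  have h3 := f_lt p hi
  have he : (0 : ℝ) ≤ e := Nat.cast_nonneg _
  have := sg_abs (m := m) (e := e) p.hm (i := i) (t := m + f i + 1 / 2) h0 (by unfold W; linarith)
    (by rw [abs_le]; unfold W; constructor <;> linarith)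
  rw [abs_lt] at this
  unfold be; linarith [this.2]

lemma al_mono {i j : ℕ} (hij : i < j) (hj : j < m) : al m e i < al m e j := by
  have h1 := al_lt (e := e) p (i := i)
  have h2 := al_gt (e := e) p hj
  have h3 : (i : ℝ) + 1 ≤ j := by exact_mod_cast hij
  linarith

lemma be_mono {i j : ℕ} (hij : i < j) (hj : j < m) : be m e f i < be m e f j := by
  have h1 := be_lt (e := e) p (show i < m by omega)
  have h2 := be_gt (e := e) p hj
  have h3 : (i : ℝ) + 1 ≤ j := by exact_mod_cast hij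
  linarith

lemma be_al {i j : ℕ} (hij : i < j) (hj : j < m) : be m e f i < al m e j := by
  have h1 := be_lt (e := e) p (show i < m by omega)
  have h2 := al_gt (e := e) p hj
  have h3 : (i : ℝ) + 1 ≤ j := by exact_mod_cast hij
  linarith

end

/-- the `i`-th tooth -/
noncomputable def Tt (m e : ℕ) (f : ℕ → ℕ) (i : ℕ) (x : ℝ) : ℝ :=
  max 0 (min ((x - al m e i) / (i - al m e i)) ((be m e f i - x) / (be m e f i - i)))

/-- slopes of the walls -/
noncomputable def sL (m e : ℕ) : ℝ := (H m e + m ^ 2) / (al m e 0 + m)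

noncomputable def sR (m e : ℕ) (f : ℕ → ℕ) : ℝ :=
  (H m e + (2 * m + e) ^ 2) / (2 * m + e - be m e f (m - 1))

noncomputable def wL (m e : ℕ) (x : ℝ) : ℝ := -(m : ℝ) ^ 2 + (x + m) * sL m e

noncomputable def wR (m e : ℕ) (f : ℕ → ℕ) (x : ℝ) : ℝ :=
  -(2 * m + e : ℝ) ^ 2 + (2 * m + e - x) * sR m e f

noncomputable def h0 (m e : ℕ) (f : ℕ → ℕ) (x : ℝ) : ℝ := min (H m e) (min (wL m e x) (wR m e f x))

/-- the upper function -/
noncomputable def hh (m e : ℕ) (f : ℕ → ℕ) (x : ℝ) : ℝ :=
  h0 m e f x + ∑ i ∈ Finset.range m, Tt m e f i x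

/-- chords of the parabola `-x^2` -/
noncomputable def gl (m a : ℕ) (x : ℝ) : ℝ :=
  -(2 * ((a : ℝ) - m) + 1) * x + ((a : ℝ) - m) * ((a : ℝ) - m + 1)

/-- the lower function -/
noncomputable def gg (m e : ℕ) (x : ℝ) : ℝ :=
  (Finset.range (3 * m + e + 1)).inf' ⟨0, by simp⟩ (fun a => gl m a x)

/-- abscissae -/
noncomputable def X (m e : ℕ) (f : ℕ → ℕ) (k : ℕ) : ℝ :=
  if k = 0 then -(m : ℝ) else if k ≤ 3 * m then
    (if (k - 1) % 3 = 0 then al m e ((k - 1) / 3) else
      if (k - 1) % 3 = 1 then (((k - 1) / 3 : ℕ) : ℝ) else be m e f ((k - 1) / 3))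
  else (2 * m + e : ℝ) - ((k : ℝ) - 3 * m - 1)

lemma X_zero : X m e f 0 = -(m : ℝ) := by simp [X]

lemma X_al {i : ℕ} (hi : i < m) : X m e f (3 * i + 1) = al m e i := by
  unfold X
  rw [if_neg (by omega), if_pos (by omega), if_pos (by omega)]
  congr 1
  omega

lemma X_p {i : ℕ} (hi : i < m) : X m e f (3 * i + 2) = i := by
  unfold X
  rw [if_neg (by omega), if_pos (by omega), if_neg (by omega), if_pos (by omega)]
  congr 1
  omega

lemma X_be {i : ℕ} (hi : i < m) : X m e f (3 * i + 3) = be m e f i := by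
  unfold X
  rw [if_neg (by omega), if_pos (by omega), if_neg (by omega), if_neg (by omega)]
  congr 1
  omega

lemma X_low {k : ℕ} (hk : 3 * m + 1 ≤ k) : X m e f k = (2 * m + e : ℝ) - ((k : ℝ) - 3 * m - 1) := by
  unfold X
  rw [if_neg (by omega), if_neg (by omega)]

lemma Tt_left {i : ℕ} {x : ℝ} (p : Par m f) (hx : x ≤ al m e i) : Tt m e f i x = 0 := by
  unfold Tt
  apply max_eq_left
  refine (min_le_left _ _).trans ?_
  have := al_lt (e := e) p (i := i)
  exact div_nonpos_of_nonpos_of_nonneg (by linarith) (by linarith)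

lemma Tt_right {i : ℕ} {x : ℝ} (p : Par m f) (hi : i < m) (hx : be m e f i ≤ x) :
    Tt m e f i x = 0 := by
  unfold Tt
  apply max_eq_left
  refine (min_le_right _ _).trans ?_
  have := be_gt (e := e) p hi
  exact div_nonpos_of_nonpos_of_nonneg (by linarith) (by linarith)

lemma Tt_up {i : ℕ} {x : ℝ} (p : Par m f) (hi : i < m) (h1 : al m e i ≤ x) (h2 : x ≤ i) :
    Tt m e f i x = (x - al m e i) / (i - al m e i) := by
  unfold Tt
  have ha := al_lt (e := e) p (i := i)
  have hb := be_gt (e := e) p hi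
  rw [min_eq_left, max_eq_right]
  · exact div_nonneg (by linarith) (by linarith)
  · calc (x - al m e i) / (i - al m e i) ≤ 1 := by rw [div_le_one (by linarith)]; linarith
      _ ≤ _ := by rw [one_le_div (by linarith)]; linarith

lemma Tt_down {i : ℕ} {x : ℝ} (p : Par m f) (hi : i < m) (h1 : i ≤ x) (h2 : x ≤ be m e f i) :
    Tt m e f i x = (be m e f i - x) / (be m e f i - i) := by
  unfold Tt
  have ha := al_lt (e := e) p (i := i)
  have hb := be_gt (e := e) p hi
  rw [min_eq_right, max_eq_right]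
  · exact div_nonneg (by linarith) (by linarith)
  · calc (be m e f i - x) / (be m e f i - i) ≤ 1 := by rw [div_le_one (by linarith)]; linarith
      _ ≤ _ := by rw [one_le_div (by linarith)]; linarith

lemma Tt_nonneg (i : ℕ) (x : ℝ) : 0 ≤ Tt m e f i x := le_max_left _ _

lemma S_at {i : ℕ} {x : ℝ} (p : Par m f) (hi : i < m) (h1 : al m e i ≤ x) (h2 : x ≤ be m e f i) :
    ∑ j ∈ Finset.range m, Tt m e f j x = Tt m e f i x := by
  apply Finset.sum_eq_single_of_mem i (Finset.mem_range.2 hi)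
  intro j hj hji
  rw [Finset.mem_range] at hj
  rcases Nat.lt_or_gt_of_ne hji with h | h
  · exact Tt_right p hj ((be_al p h hi).le.trans h1)
  · exact Tt_left p (h2.trans (be_al p h hj).le)

lemma S_left {x : ℝ} (p : Par m f) (h1 : x ≤ al m e 0) :
    ∑ j ∈ Finset.range m, Tt m e f j x = 0 := by
  apply Finset.sum_eq_zero
  intro j hj
  rw [Finset.mem_range] at hj
  apply Tt_left p
  rcases Nat.eq_zero_or_pos j with rfl | h
  · exact h1
  · exact h1.trans (al_mono p h hj).le

lemma S_right {x : ℝ} (p : Par m f) (h1 : be m e f (m - 1) ≤ x) :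
    ∑ j ∈ Finset.range m, Tt m e f j x = 0 := by
  apply Finset.sum_eq_zero
  intro j hj
  rw [Finset.mem_range] at hj
  apply Tt_right p hj
  have hm := p.hm
  rcases Nat.lt_or_ge j (m - 1) with h | h
  · exact (be_mono p h (by omega)).le.trans h1
  · obtain rfl : j = m - 1 := by omega
    exact h1

lemma S_mid {i : ℕ} {x : ℝ} (p : Par m f) (hi : i + 1 < m) (h1 : be m e f i ≤ x)
    (h2 : x ≤ al m e (i + 1)) : ∑ j ∈ Finset.range m, Tt m e f j x = 0 := by
  apply Finset.sum_eq_zero
  intro j hj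
  rw [Finset.mem_range] at hj
  rcases Nat.lt_or_ge i j with h | h
  · apply Tt_left p
    rcases Nat.lt_or_ge (i + 1) j with h' | h'
    · exact h2.trans (al_mono p h' hj).le
    · obtain rfl : j = i + 1 := by omega
      exact h2
  · apply Tt_right p hj
    rcases Nat.lt_or_ge j i with h' | h'
    · exact (be_mono p h' (by omega)).le.trans h1
    · obtain rfl : j = i := by omega
      exact h1

lemma alm_pos (p : Par m f) : 0 < al m e 0 + m := by
  have := al_gt (e := e) p (i := 0) (by have := p.hm; omega)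
  have := one_le p.hm
  push_cast at *
  linarith

lemma bem_pos (p : Par m f) : 0 < 2 * (m : ℝ) + e - be m e f (m - 1) := by
  have hm := p.hm
  have h1 := be_lt (e := e) p (i := m - 1) (by omega)
  have h2 : ((m - 1 : ℕ) : ℝ) = m - 1 := by
    rw [Nat.cast_sub hm]; norm_num
  rw [h2] at h1
  have := one_le hm
  have he : (0 : ℝ) ≤ e := Nat.cast_nonneg _
  linarith

lemma sL_ge (p : Par m f) : 10 * W m e ≤ sL m e := by
  unfold sL
  rw [le_div_iff₀ (alm_pos (e := e) p)]
  have h1 := al_lt (e := e) p (i := 0)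
  push_cast at h1
  have h2 := one_le p.hm
  have hW := W_ge (e := e) p.hm
  have he : (0 : ℝ) ≤ e := Nat.cast_nonneg _
  have h3 : al m e 0 + m ≤ W m e := by unfold W; linarith
  have hH : H m e = 10 * W m e ^ 2 := rfl
  rw [hH]
  nlinarith

lemma sR_ge (p : Par m f) : 10 * W m e ≤ sR m e f := by
  unfold sR
  rw [le_div_iff₀ (bem_pos (e := e) p)]
  have hm := p.hm
  have h1 := be_gt (e := e) p (i := m - 1) (by omega)
  have h0 : (0 : ℝ) ≤ ((m - 1 : ℕ) : ℝ) := Nat.cast_nonneg _
  have hW := W_ge (e := e) p.hm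
  have h3 : 2 * (m : ℝ) + e - be m e f (m - 1) ≤ W m e := by unfold W; linarith
  have hH : H m e = 10 * W m e ^ 2 := rfl
  rw [hH]
  nlinarith [sq_nonneg (2 * (m : ℝ) + e)]

lemma wL_al (p : Par m f) : wL m e (al m e 0) = H m e := by
  unfold wL sL
  have := alm_pos (e := e) p
  field_simp
  ring

lemma wR_be (p : Par m f) : wR m e f (be m e f (m - 1)) = H m e := by
  unfold wR sR
  have := bem_pos (e := e) p
  field_simp
  ring

lemma wL_mono (p : Par m f) {x y : ℝ} (h : x ≤ y) : wL m e x ≤ wL m e y := by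
  unfold wL
  have h1 := sL_ge (e := e) p
  have hW := W_ge (e := e) p.hm
  nlinarith

lemma wR_anti (p : Par m f) {x y : ℝ} (h : x ≤ y) : wR m e f y ≤ wR m e f x := by
  unfold wR
  have h1 := sR_ge (e := e) p
  have hW := W_ge (e := e) p.hm
  nlinarith

lemma al_be_last (p : Par m f) : al m e 0 < be m e f (m - 1) := by
  have hm := p.hm
  have h1 := al_lt (e := e) p (i := 0)
  have h2 := be_gt (e := e) p (i := m - 1) (by omega)
  have h0 : (0 : ℝ) ≤ ((m - 1 : ℕ) : ℝ) := Nat.cast_nonneg _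
  push_cast at h1
  linarith

lemma h0_mid (p : Par m f) {x : ℝ} (h1 : al m e 0 ≤ x) (h2 : x ≤ be m e f (m - 1)) :
    h0 m e f x = H m e := by
  unfold h0
  apply min_eq_left
  apply le_min
  · rw [← wL_al (e := e) p]; exact wL_mono p h1
  · rw [← wR_be (e := e) p]; exact wR_anti p h2

lemma h0_left (p : Par m f) {x : ℝ} (h1 : x ≤ al m e 0) : h0 m e f x = wL m e x := by
  unfold h0
  have h2 : wL m e x ≤ H m e := by
    rw [← wL_al (e := e) p]; exact wL_mono p h1
  have h3 : H m e ≤ wR m e f x := by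
    rw [← wR_be (e := e) p]; exact wR_anti p (h1.trans (al_be_last p).le)
  rw [min_eq_left (h2.trans h3), min_eq_right h2]

lemma h0_right (p : Par m f) {x : ℝ} (h1 : be m e f (m - 1) ≤ x) : h0 m e f x = wR m e f x := by
  unfold h0
  have h2 : wR m e f x ≤ H m e := by
    rw [← wR_be (e := e) p]; exact wR_anti p h1
  have h3 : H m e ≤ wL m e x := by
    rw [← wL_al (e := e) p]; exact wL_mono p ((al_be_last p).le.trans h1)
  rw [min_eq_right (h2.trans h3), min_eq_right h2]

lemma al0_le (p : Par m f) {i : ℕ} (hi : i < m) : al m e 0 ≤ al m e i := by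
  rcases Nat.eq_zero_or_pos i with rfl | h
  · exact le_rfl
  · exact (al_mono p h hi).le

lemma le_bel (p : Par m f) {i : ℕ} (hi : i < m) : be m e f i ≤ be m e f (m - 1) := by
  rcases Nat.lt_or_ge i (m - 1) with h | h
  · exact (be_mono p h (by omega)).le
  · obtain rfl : i = m - 1 := by omega
    exact le_rfl

lemma al_lt_be (p : Par m f) {i : ℕ} (hi : i < m) : al m e i < be m e f i :=
  (al_lt p).trans (be_gt p hi)

/-- values of the upper function -/
lemma hh_left (p : Par m f) {x : ℝ} (h1 : x ≤ al m e 0) : hh m e f x = wL m e x := by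
  unfold hh; rw [S_left p h1, h0_left p h1, add_zero]

lemma hh_right (p : Par m f) {x : ℝ} (h1 : be m e f (m - 1) ≤ x) : hh m e f x = wR m e f x := by
  unfold hh; rw [S_right p h1, h0_right p h1, add_zero]

lemma hh_gap (p : Par m f) {i : ℕ} {x : ℝ} (hi : i + 1 < m) (h1 : be m e f i ≤ x)
    (h2 : x ≤ al m e (i + 1)) : hh m e f x = H m e := by
  unfold hh
  rw [S_mid p hi h1 h2, add_zero]
  apply h0_mid p
  · exact (al0_le p (show i < m by omega)).trans ((al_lt_be p (by omega)).le.trans h1)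
  · exact h2.trans ((al_lt_be p hi).le.trans (le_bel p hi))

lemma hh_tooth (p : Par m f) {i : ℕ} {x : ℝ} (hi : i < m) (h1 : al m e i ≤ x)
    (h2 : x ≤ be m e f i) : hh m e f x = H m e + Tt m e f i x := by
  unfold hh
  rw [S_at p hi h1 h2, h0_mid p ((al0_le p hi).trans h1) (h2.trans (le_bel p hi))]

lemma hh_al (p : Par m f) {i : ℕ} (hi : i < m) : hh m e f (al m e i) = H m e := by
  rw [hh_tooth p hi le_rfl (al_lt_be p hi).le, Tt_left p le_rfl, add_zero]

lemma hh_be (p : Par m f) {i : ℕ} (hi : i < m) : hh m e f (be m e f i) = H m e := by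
  rw [hh_tooth p hi (al_lt_be p hi).le le_rfl, Tt_right p hi le_rfl, add_zero]

lemma hh_i (p : Par m f) {i : ℕ} (hi : i < m) : hh m e f i = H m e + 1 := by
  have ha := al_lt (e := e) p (i := i)
  rw [hh_tooth p hi ha.le (be_gt p hi).le, Tt_up p hi ha.le le_rfl, div_self (by linarith)]

lemma h0_le_hh (x : ℝ) : h0 m e f x ≤ hh m e f x := by
  unfold hh
  have : 0 ≤ ∑ i ∈ Finset.range m, Tt m e f i x := Finset.sum_nonneg fun i _ => Tt_nonneg i x
  linarith

lemma hh_cont : Continuous (hh m e f) := by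
  unfold hh h0 wL wR Tt
  fun_prop

/-! the lower function -/

lemma gg_le {a : ℕ} (ha : a ≤ 3 * m + e) (x : ℝ) : gg m e x ≤ gl m a x :=
  Finset.inf'_le _ (Finset.mem_range.2 (by omega))

lemma gg_eq {a : ℕ} (ha : a ≤ 3 * m + e) {x : ℝ} (h1 : (a : ℝ) - m ≤ x) (h2 : x ≤ (a : ℝ) - m + 1) :
    gg m e x = gl m a x := by
  apply le_antisymm (gg_le ha x)
  apply Finset.le_inf'
  intro b _
  have key : gl m b x - gl m a x = ((a : ℝ) - b) * (2 * x - (a - m) - (b - m) - 1) := by
    unfold gl; ring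
  have : 0 ≤ ((a : ℝ) - b) * (2 * x - (a - m) - (b - m) - 1) := by
    rcases lt_trichotomy a b with h | h | h
    · have h3 : (a : ℝ) + 1 ≤ b := by exact_mod_cast h
      apply mul_nonneg_of_nonpos_of_nonpos <;> linarith
    · subst h; simp
    · have h3 : (b : ℝ) + 1 ≤ a := by exact_mod_cast h
      apply mul_nonneg <;> linarith
  linarith

lemma gg_int {a : ℕ} (ha : a ≤ 3 * m + e) : gg m e ((a : ℝ) - m) = -((a : ℝ) - m) ^ 2 := by
  rw [gg_eq ha le_rfl (by linarith)]
  unfold gl; ring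

lemma gg_cont : Continuous (gg m e) := by
  unfold gg
  apply Continuous.finset_inf'_apply
  intro a _
  unfold gl
  fun_prop

lemma gg_nonpos (p : Par m f) (x : ℝ) : gg m e x ≤ 0 := by
  have hm := p.hm
  rcases le_total 0 x with h | h
  · refine (gg_le (a := m) (by omega) x).trans ?_
    unfold gl
    rw [sub_self]; linarith
  · refine (gg_le (a := m - 1) (by omega) x).trans ?_
    unfold gl
    rw [Nat.cast_sub hm]
    push_cast
    nlinarith

lemma gg_lt_h0 (p : Par m f) {x : ℝ} (h1 : -(m : ℝ) < x) (h2 : x < 2 * m + e) :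
    gg m e x < h0 m e f x := by
  have hW := W_ge (e := e) p.hm
  have hWd : W m e = 2 * m + e + 1 := rfl
  have hm := one_le p.hm
  have he : (0 : ℝ) ≤ e := Nat.cast_nonneg _
  unfold h0
  apply lt_min
  · have := gg_nonpos (e := e) p x
    have := H_ge (e := e) p.hm
    linarith
  · apply lt_min
    · refine lt_of_le_of_lt (gg_le (a := 0) (by omega) x) ?_
      have hs := sL_ge (e := e) p
      have : wL m e x - gl m 0 x = (x + m) * (sL m e - (2 * m - 1)) := by
        unfold wL gl; push_cast; ring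
      have : 0 < (x + m) * (sL m e - (2 * m - 1)) := by
        apply mul_pos <;> nlinarith
      linarith
    · refine lt_of_le_of_lt (gg_le (a := 3 * m + e) le_rfl x) ?_
      have hs := sR_ge (e := e) p
      have : wR m e f x - gl m (3 * m + e) x =
          (2 * m + e - x) * (sR m e f - (2 * (2 * m + e) + 1)) := by
        unfold wR gl; push_cast; ring
      have : 0 < (2 * m + e - x) * (sR m e f - (2 * (2 * m + e) + 1)) := by
        apply mul_pos <;> nlinarith
      linarith

lemma affOn_of {φ : ℝ → ℝ} {a b A B : ℝ} (hab : a ≤ b)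
    (h : ∀ x, a ≤ x → x ≤ b → φ x = A + B * x) : AffOn φ a b := by
  intro t ht
  rw [h a le_rfl hab, h b hab le_rfl, h]
  · ring
  · nlinarith [ht.1]
  · nlinarith [ht.2]

/-- the number of vertices is `6 m + 1 + e` -/
theorem mono (p : Par m f) : Mono (6 * m + 1 + e) (3 * m + 1) (X m e f) (gg m e) (hh m e f) := by
  have hm := p.hm
  have hmR := one_le hm
  have he : (0 : ℝ) ≤ e := Nat.cast_nonneg _
  have split : ∀ k, k ≠ 0 → k < 3 * m + 1 → ∃ i, i < m ∧ (k = 3 * i + 1 ∨ k = 3 * i + 2 ∨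
      k = 3 * i + 3) := by
    intro k h1 h2
    exact ⟨(k - 1) / 3, by omega, by omega⟩
  have hlast : ∀ i, i < m → ¬ i + 1 < m → i = m - 1 := by
    intro i h1 h2; omega
  have Xs : X m e f (3 * m + 1) = 2 * m + e := by
    rw [X_low le_rfl]; push_cast; ring
  have Xn : X m e f (6 * m + 1 + e) = -(m : ℝ) := by
    rw [X_low (by omega)]; push_cast; ring
  refine ⟨by omega, by omega, by omega, ?_, ?_, ?_, gg_cont, hh_cont, ?_, ?_, ?_, ?_, ?_⟩
  · intro k hk
    rcases Nat.eq_zero_or_pos k with rfl | h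
    · rw [X_zero, show 0 + 1 = 3 * 0 + 1 by norm_num, X_al (by omega)]
      linarith [alm_pos (e := e) p]
    · obtain ⟨i, hi, rfl | rfl | rfl⟩ := split k (by omega) hk
      · rw [X_al hi, show 3 * i + 1 + 1 = 3 * i + 2 by ring, X_p hi]
        exact al_lt p
      · rw [X_p hi, show 3 * i + 2 + 1 = 3 * i + 3 by ring, X_be hi]
        exact be_gt p hi
      · rw [X_be hi]
        by_cases h2 : i + 1 < m
        · rw [show 3 * i + 3 + 1 = 3 * (i + 1) + 1 by ring, X_al h2]
          exact be_al p (by omega) h2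
        · obtain rfl := hlast i hi h2
          rw [show 3 * (m - 1) + 3 + 1 = 3 * m + 1 by omega, Xs]
          linarith [bem_pos (e := e) p]
  · intro k h1 h2
    rw [X_low h1, X_low (by omega)]
    push_cast
    linarith
  · rw [X_zero, Xn]
  · -- left
    rw [X_zero]
    have h1 := gg_int (m := m) (e := e) (a := 0) (by omega)
    rw [Nat.cast_zero, zero_sub] at h1
    rw [h1, hh_left p (by linarith [alm_pos (e := e) p])]
    unfold wL; ring
  · rw [Xs]
    have h1 := gg_int (m := m) (e := e) (a := 3 * m + e) le_rfl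
    have h2 : (((3 * m + e : ℕ) : ℝ) - m) = 2 * m + e := by push_cast; ring
    rw [h2] at h1
    rw [h1, hh_right p (by linarith [bem_pos (e := e) p])]
    unfold wR; ring
  · intro x h1 h2
    rw [X_zero] at h1
    rw [Xs] at h2
    exact (gg_lt_h0 p h1 h2).trans_le (h0_le_hh x)
  · intro k hk
    rcases Nat.eq_zero_or_pos k with rfl | h
    · rw [X_zero, show 0 + 1 = 3 * 0 + 1 by norm_num, X_al (by omega)]
      apply affOn_of (A := -(m : ℝ) ^ 2 + m * sL m e) (B := sL m e)
        (by linarith [alm_pos (e := e) p])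
      intro x _ h2
      rw [hh_left p h2]; unfold wL; ring
    · obtain ⟨i, hi, rfl | rfl | rfl⟩ := split k (by omega) hk
      · rw [X_al hi, show 3 * i + 1 + 1 = 3 * i + 2 by ring, X_p hi]
        have ha := al_lt (e := e) p (i := i)
        apply affOn_of (A := H m e - al m e i / (i - al m e i)) (B := 1 / (i - al m e i)) ha.le
        intro x h1 h2
        rw [hh_tooth p hi h1 (h2.trans (be_gt p hi).le), Tt_up p hi h1 h2]
        ring
      · rw [X_p hi, show 3 * i + 2 + 1 = 3 * i + 3 by ring, X_be hi]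
        have hb := be_gt (e := e) p hi
        apply affOn_of (A := H m e + be m e f i / (be m e f i - i))
          (B := -(1 / (be m e f i - i))) hb.le
        intro x h1 h2
        rw [hh_tooth p hi ((al_lt p).le.trans h1) h2, Tt_down p hi h1 h2]
        ring
      · rw [X_be hi]
        by_cases h2 : i + 1 < m
        · rw [show 3 * i + 3 + 1 = 3 * (i + 1) + 1 by ring, X_al h2]
          apply affOn_of (A := H m e) (B := 0) (be_al p (by omega) h2).le
          intro x h3 h4
          rw [hh_gap p h2 h3 h4]; ring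
        · obtain rfl := hlast i hi h2
          rw [show 3 * (m - 1) + 3 + 1 = 3 * m + 1 by omega, Xs]
          apply affOn_of (A := -(2 * m + e : ℝ) ^ 2 + (2 * m + e) * sR m e f) (B := -sR m e f)
            (by linarith [bem_pos (e := e) p])
          intro x h3 h4
          rw [hh_right p h3]; unfold wR; ring
  · intro k h1 h2
    apply AffOn.symm
    rw [X_low h1, X_low (by omega)]
    obtain ⟨a, ha⟩ : ∃ a, a + k + 1 = 6 * m + e + 1 := ⟨6 * m + e - k, by omega⟩
    have haR : (a : ℝ) + k + 1 = 6 * m + e + 1 := by exact_mod_cast ha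
    have e1 : (2 * m + e : ℝ) - (((k + 1 : ℕ) : ℝ) - 3 * m - 1) = (a : ℝ) - m := by
      push_cast; linarith
    have e2 : (2 * m + e : ℝ) - ((k : ℝ) - 3 * m - 1) = (a : ℝ) - m + 1 := by linarith
    rw [e1, e2]
    apply affOn_of (A := ((a : ℝ) - m) * ((a : ℝ) - m + 1)) (B := -(2 * ((a : ℝ) - m) + 1))
      (by linarith)
    intro x h3 h4
    rw [gg_eq (a := a) (by omega) h3 h4]
    unfold gl; ring

end Fam

end Pool.Agent.W115.Vis
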