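import Pool.Agent.W115.Vis.Fam
import Pool.Agent.W115.Vis.Comb

set_option autoImplicit false

/-! Visibility in the family of polygons. -/

namespace Pool.Agent.W115.Vis

open Set

lemma seg_split {P B q p : ℝ × ℝ} (hq : q ∈ segment ℝ P B) (hp : p ∈ segment ℝ P B) :
    p ∈ segment ℝ P q ∨ p ∈ segment ℝ q B := by
  obtain ⟨P1, P2⟩ := P
  obtain ⟨B1, B2⟩ := B
  obtain ⟨q1, q2⟩ := q
  rw [mem_seg] at hq hp
  obtain ⟨t0, ht0, h1, h2⟩ := hq
  obtain ⟨t, ht, h3, h4⟩ := hp
  simp only at h1 h2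
  rcases le_or_gt t t0 with h | h
  · left
    rw [mem_seg]
    rcases ht0.1.lt_or_eq with h0 | h0
    · refine ⟨t / t0, ⟨div_nonneg ht.1 h0.le, by rw [div_le_one h0]; exact h⟩, ?_, ?_⟩
      · rw [h3, h1]; field_simp; ring
      · rw [h4, h2]; field_simp; ring
    · refine ⟨0, ⟨le_rfl, zero_le_one⟩, ?_, ?_⟩
      · have : t = 0 := le_antisymm (by linarith) ht.1
        rw [h3, this]; ring
      · have : t = 0 := le_antisymm (by linarith) ht.1
        rw [h4, this]; ring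
  · right
    rw [mem_seg]
    have h5 : 0 < 1 - t0 := by linarith [ht.2]
    refine ⟨(t - t0) / (1 - t0), ⟨div_nonneg (by linarith) h5.le, by
      rw [div_le_one h5]; linarith [ht.2]⟩, ?_, ?_⟩
    · rw [h3, h1]; field_simp; ring
    · rw [h4, h2]; field_simp; ring

namespace Fam

variable {m e : ℕ} {f : ℕ → ℕ}

/-- the region -/
abbrev RR (m e : ℕ) (f : ℕ → ℕ) : Set (ℝ × ℝ) :=
  Mono.R (3 * m + 1) (X m e f) (gg m e) (hh m e f)

lemma X_s : X m e f (3 * m + 1) = 2 * m + e := by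
  rw [X_low le_rfl]; push_cast; ring

lemma mem_RR {x y : ℝ} : (x, y) ∈ RR m e f ↔
    -(m : ℝ) ≤ x ∧ x ≤ 2 * m + e ∧ gg m e x ≤ y ∧ y ≤ hh m e f x := by
  unfold RR Mono.R
  rw [mem_ofPred_eq, X_zero, X_s]

/-- the conditions cutting out a convex part of the region -/
def K (m e : ℕ) (f : ℕ → ℕ) (a : ℕ) (x y : ℝ) : Prop :=
  -(m : ℝ) ≤ x ∧ x ≤ 2 * m + e ∧ gl m a x ≤ y ∧ y ≤ H m e ∧ y ≤ wL m e x ∧ y ≤ wR m e f x

lemma K_R {a : ℕ} (ha : a ≤ 3 * m + e) {x y : ℝ} (h : K m e f a x y) : (x, y) ∈ RR m e f := by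
  obtain ⟨h1, h2, h3, h4, h5, h6⟩ := h
  rw [mem_RR]
  refine ⟨h1, h2, (gg_le ha x).trans h3, ?_⟩
  exact (le_min h4 (le_min h5 h6)).trans (h0_le_hh x)

lemma K_seg {a : ℕ} (ha : a ≤ 3 * m + e) {x y x' y' : ℝ} (h : K m e f a x y)
    (h' : K m e f a x' y') : segment ℝ (x, y) (x', y') ⊆ RR m e f := by
  rintro ⟨u, w⟩ hp
  rw [mem_seg] at hp
  obtain ⟨t, ht, h1, h2⟩ := hp
  simp only at h1 h2
  apply K_R ha
  obtain ⟨a1, a2, a3, a4, a5, a6⟩ := h
  obtain ⟨b1, b2, b3, b4, b5, b6⟩ := h'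
  have conv : ∀ c d c' d' : ℝ, c ≤ d → c' ≤ d' →
      c + t * (c' - c) ≤ d + t * (d' - d) := by
    intro c d c' d' h h'
    have h3 : 0 ≤ 1 - t := by linarith [ht.2]
    have h4 := mul_le_mul_of_nonneg_left h h3
    have h5 := mul_le_mul_of_nonneg_left h' ht.1
    nlinarith
  subst h1 h2
  refine ⟨?_, ?_, ?_, ?_, ?_, ?_⟩
  · have := conv _ _ _ _ a1 b1
    linarith
  · have := conv _ _ _ _ a2 b2
    linarith
  · refine le_trans (le_of_eq ?_) (conv _ _ _ _ a3 b3)
    unfold gl; ring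
  · have := conv _ _ _ _ a4 b4
    linarith
  · refine (conv _ _ _ _ a5 b5).trans (le_of_eq ?_)
    unfold wL; ring
  · refine (conv _ _ _ _ a6 b6).trans (le_of_eq ?_)
    unfold wR; ring

/-- a ceiling point satisfies all conditions -/
lemma K_top (p : Par m f) {a : ℕ} (ha : a ≤ 3 * m + e) {x : ℝ} (h1 : al m e 0 ≤ x)
    (h2 : x ≤ be m e f (m - 1)) : K m e f a x (H m e) := by
  have hm := p.hm
  have hmR := one_le hm
  have hW := W_ge (e := e) hm
  have he : (0 : ℝ) ≤ e := Nat.cast_nonneg _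
  have h3 := alm_pos (e := e) p
  have h4 := bem_pos (e := e) p
  have haR : (a : ℝ) ≤ 3 * m + e := by exact_mod_cast ha
  have ha0 : (0 : ℝ) ≤ a := Nat.cast_nonneg _
  refine ⟨by linarith, by linarith, ?_, le_rfl, ?_, ?_⟩
  · have hH : H m e = 10 * W m e ^ 2 := rfl
    have hWd : W m e = 2 * m + e + 1 := rfl
    rw [hH]
    unfold gl
    have e1 : |(a : ℝ) - m| ≤ W m e := by rw [abs_le, hWd]; constructor <;> linarith
    have e2 : |x| ≤ W m e := by rw [abs_le, hWd]; constructor <;> linarith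
    set w := W m e
    set A := (a : ℝ) - m
    rw [abs_le] at e1 e2
    have q1 : A * A ≤ w * w := by nlinarith [e1.1, e1.2]
    have q2 : -(A * x) ≤ w * w := by nlinarith [e1.1, e1.2, e2.1, e2.2]
    nlinarith [e1.1, e1.2, e2.1, e2.2]
  · rw [← wL_al (e := e) p]; exact wL_mono p h1
  · rw [← wR_be (e := e) p]; exact wR_anti p h2

/-- lower vertices, seen from either of the two adjacent chords -/
lemma K_low (p : Par m f) {a c : ℕ} (hc : c ≤ 3 * m + e) (h : c = a ∨ c = a + 1) :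
    K m e f a ((c : ℝ) - m) (-((c : ℝ) - m) ^ 2) := by
  have hm := p.hm
  have hmR := one_le hm
  have hW := W_ge (e := e) hm
  have he : (0 : ℝ) ≤ e := Nat.cast_nonneg _
  have hc0 : (0 : ℝ) ≤ c := Nat.cast_nonneg _
  have hcR : (c : ℝ) ≤ 3 * m + e := by exact_mod_cast hc
  have hWd : W m e = 2 * m + e + 1 := rfl
  refine ⟨by linarith, by linarith, ?_, ?_, ?_, ?_⟩
  · apply le_of_eq
    rcases h with rfl | rfl
    · unfold gl; ring
    · unfold gl; push_cast; ring
  · have := H_ge (e := e) hm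
    nlinarith [sq_nonneg ((c : ℝ) - m)]
  · have hs := sL_ge (e := e) p
    have : wL m e ((c : ℝ) - m) + ((c : ℝ) - m) ^ 2 = c * (sL m e + c - 2 * m) := by
      unfold wL; ring
    have h2 : 0 ≤ c * (sL m e + c - 2 * m) := mul_nonneg hc0 (by linarith)
    linarith
  · have hs := sR_ge (e := e) p
    have : wR m e f ((c : ℝ) - m) + ((c : ℝ) - m) ^ 2 =
        (3 * m + e - c) * (sR m e f - (m + e + c)) := by
      unfold wR; ring
    have h2 : 0 ≤ (3 * m + e - c) * (sR m e f - (m + e + c)) :=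
      mul_nonneg (by linarith) (by linarith)
    linarith

/-- the conditions of a tooth -/
def K' (m e : ℕ) (f : ℕ → ℕ) (i : ℕ) (x y : ℝ) : Prop :=
  al m e i ≤ x ∧ x ≤ be m e f i ∧ H m e ≤ y ∧ y ≤ H m e + (x - al m e i) / (i - al m e i) ∧
    y ≤ H m e + (be m e f i - x) / (be m e f i - i)

lemma K'_R (p : Par m f) {i : ℕ} (hi : i < m) {x y : ℝ} (h : K' m e f i x y) :
    (x, y) ∈ RR m e f := by
  obtain ⟨h1, h2, h3, h4, h5⟩ := h
  have q1 := alm_pos (e := e) p
  have q2 := bem_pos (e := e) p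
  have q3 := al0_le (e := e) p hi
  have q4 := le_bel (e := e) p hi
  rw [mem_RR]
  refine ⟨by linarith, by linarith, ?_, ?_⟩
  · have := gg_nonpos (e := e) p x
    have := H_ge (e := e) p.hm
    linarith
  · rw [hh_tooth p hi h1 h2]
    have : y - H m e ≤ Tt m e f i x := by
      unfold Tt
      exact (le_min (by linarith) (by linarith)).trans (le_max_right _ _)
    linarith

lemma K'_seg (p : Par m f) {i : ℕ} (hi : i < m) {x y x' y' : ℝ} (h : K' m e f i x y)
    (h' : K' m e f i x' y') : segment ℝ (x, y) (x', y') ⊆ RR m e f := by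
  rintro ⟨u, w⟩ hp
  rw [mem_seg] at hp
  obtain ⟨t, ht, h1, h2⟩ := hp
  simp only at h1 h2
  apply K'_R p hi
  obtain ⟨a1, a2, a3, a4, a5⟩ := h
  obtain ⟨b1, b2, b3, b4, b5⟩ := h'
  have conv : ∀ c d c' d' : ℝ, c ≤ d → c' ≤ d' →
      c + t * (c' - c) ≤ d + t * (d' - d) := by
    intro c d c' d' h h'
    have h3 : 0 ≤ 1 - t := by linarith [ht.2]
    have h4 := mul_le_mul_of_nonneg_left h h3
    have h5 := mul_le_mul_of_nonneg_left h' ht.1
    nlinarith
  subst h1 h2
  refine ⟨?_, ?_, ?_, ?_, ?_⟩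
  · have := conv _ _ _ _ a1 b1
    linarith
  · have := conv _ _ _ _ a2 b2
    linarith
  · have := conv _ _ _ _ a3 b3
    linarith
  · refine (conv _ _ _ _ a4 b4).trans (le_of_eq ?_)
    ring
  · refine (conv _ _ _ _ a5 b5).trans (le_of_eq ?_)
    ring

lemma K'_base (p : Par m f) {i : ℕ} (hi : i < m) {x : ℝ} (h1 : al m e i ≤ x)
    (h2 : x ≤ be m e f i) : K' m e f i x (H m e) := by
  have ha := al_lt (e := e) p (i := i)
  have hb := be_gt (e := e) p hi
  refine ⟨h1, h2, le_rfl, ?_, ?_⟩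
  · have : 0 ≤ (x - al m e i) / (i - al m e i) := div_nonneg (by linarith) (by linarith)
    linarith
  · have : 0 ≤ (be m e f i - x) / (be m e f i - i) := div_nonneg (by linarith) (by linarith)
    linarith

lemma K'_tip (p : Par m f) {i : ℕ} (hi : i < m) : K' m e f i i (H m e + 1) := by
  have ha := al_lt (e := e) p (i := i)
  have hb := be_gt (e := e) p hi
  refine ⟨ha.le, hb.le, by linarith, ?_, ?_⟩
  · rw [div_self (by linarith)]
  · rw [div_self (by linarith)]

/-- blocked to the left of a tooth -/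
lemma block_left (p : Par m f) {i : ℕ} (hi : i < m) {x y : ℝ} (hx : x < al m e i)
    (hy : (i - al m e i) * (H m e + 1 - y) < i - x) :
    ¬ segment ℝ ((i : ℝ), H m e + 1) (x, y) ⊆ RR m e f := by
  intro hs
  have ha := al_lt (e := e) p (i := i)
  have hix : 0 < (i : ℝ) - x := by linarith
  set t := (i - al m e i) / (i - x) with ht
  have ht0 : 0 ≤ t := div_nonneg (by linarith) hix.le
  have ht1 : t ≤ 1 := by rw [ht, div_le_one hix]; linarith
  have hmem : (al m e i, H m e + 1 + t * (y - (H m e + 1))) ∈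
      segment ℝ ((i : ℝ), H m e + 1) (x, y) := by
    rw [mem_seg]
    refine ⟨t, ⟨ht0, ht1⟩, ?_, rfl⟩
    simp only
    rw [ht]; field_simp; ring
  have h1 := hs hmem
  rw [mem_RR, hh_al p hi] at h1
  have h2 := h1.2.2.2
  have h3 : t * (H m e + 1 - y) < 1 := by
    rw [ht, div_mul_eq_mul_div, div_lt_one hix]
    exact hy
  nlinarith

lemma block_right (p : Par m f) {i : ℕ} (hi : i < m) {x y : ℝ} (hx : be m e f i < x)
    (hy : (be m e f i - i) * (H m e + 1 - y) < x - i) :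
    ¬ segment ℝ ((i : ℝ), H m e + 1) (x, y) ⊆ RR m e f := by
  intro hs
  have hb := be_gt (e := e) p hi
  have hix : 0 < x - (i : ℝ) := by linarith
  set t := (be m e f i - i) / (x - i) with ht
  have ht0 : 0 ≤ t := div_nonneg (by linarith) hix.le
  have ht1 : t ≤ 1 := by rw [ht, div_le_one hix]; linarith
  have hmem : (be m e f i, H m e + 1 + t * (y - (H m e + 1))) ∈
      segment ℝ ((i : ℝ), H m e + 1) (x, y) := by
    rw [mem_seg]
    refine ⟨t, ⟨ht0, ht1⟩, ?_, rfl⟩
    simp only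
    rw [ht]; field_simp; ring
  have h1 := hs hmem
  rw [mem_RR, hh_be p hi] at h1
  have h2 := h1.2.2.2
  have h3 : t * (H m e + 1 - y) < 1 := by
    rw [ht, div_mul_eq_mul_div, div_lt_one hix]
    exact hy
  nlinarith

/-- tips of teeth and lower vertices -/
lemma vis_PB (p : Par m f) {i : ℕ} (hi : i < m) {c : ℕ} (hc : c ≤ 3 * m + e) :
    segment ℝ ((i : ℝ), H m e + 1) ((c : ℝ) - m, -((c : ℝ) - m) ^ 2) ⊆ RR m e f ↔
      m ≤ c + i + 1 ∧ c ≤ 2 * m + f i := by
  have hm := p.hm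
  have hmR := one_le hm
  have hW := W_ge (e := e) hm
  have he : (0 : ℝ) ≤ e := Nat.cast_nonneg _
  have hc0 : (0 : ℝ) ≤ c := Nat.cast_nonneg _
  have hi0 : (0 : ℝ) ≤ i := Nat.cast_nonneg _
  have hf0 : (0 : ℝ) ≤ f i := Nat.cast_nonneg _
  have hiR := cast_lt p hi
  have hfR := f_lt p hi
  have hcR : (c : ℝ) ≤ 3 * m + e := by exact_mod_cast hc
  have hWd : W m e = 2 * m + e + 1 := rfl
  have ha := al_lt (e := e) p (i := i)
  have hb := be_gt (e := e) p hi
  have hiW : (i : ℝ) ≤ W m e := by linarith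
  have hxW : |(c : ℝ) - m| ≤ W m e := by rw [abs_le, hWd]; constructor <;> linarith
  have haW : |-(i : ℝ) - 3 / 2| ≤ W m e := by rw [abs_le, hWd]; constructor <;> linarith
  have hbW : |(m : ℝ) + f i + 1 / 2| ≤ W m e := by rw [abs_le, hWd]; constructor <;> linarith
  have hden := den_pos (m := m) (e := e) hm ((c : ℝ) - m)
  have hald : al m e i = i + sg m e i (-i - 3 / 2) := rfl
  have hbed : be m e f i = i + sg m e i (m + f i + 1 / 2) := rfl
  have hsg : sg m e i ((c : ℝ) - m) * (H m e + 1 + ((c : ℝ) - m) ^ 2) = (c : ℝ) - m - i := by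
    unfold sg; field_simp
  constructor
  · intro hs
    by_contra hcon
    rw [not_and_or, not_le, not_le] at hcon
    rcases hcon with h | h
    · have hR : (c : ℝ) + i + 2 ≤ m := by exact_mod_cast h
      have h1 := sg_lt (m := m) (e := e) hm hi0 hiW hxW haW (by linarith)
      refine block_left p hi ?_ ?_ hs
      · have h2 := al_gt (e := e) p hi
        linarith
      · have h3 : sg m e i ((c : ℝ) - m) < al m e i - i := by rw [hald]; linarith
        have h4 := mul_lt_mul_of_pos_right h3 hden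
        rw [hsg] at h4
        nlinarith
    · have hR : 2 * (m : ℝ) + f i + 1 ≤ c := by exact_mod_cast h
      have h1 := sg_lt (m := m) (e := e) hm hi0 hiW hbW hxW (by linarith)
      refine block_right p hi ?_ ?_ hs
      · have h2 := be_lt (e := e) p hi
        linarith
      · have h3 : be m e f i - i < sg m e i ((c : ℝ) - m) := by rw [hbed]; linarith
        have h4 := mul_lt_mul_of_pos_right h3 hden
        rw [hsg] at h4
        nlinarith
  · rintro ⟨h1, h2⟩
    have h1R : (m : ℝ) ≤ c + i + 1 := by exact_mod_cast h1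
    have h2R : (c : ℝ) ≤ 2 * m + f i := by exact_mod_cast h2
    have g1 := sg_lt (m := m) (e := e) hm hi0 hiW haW hxW (by linarith)
    have g2 := sg_lt (m := m) (e := e) hm hi0 hiW hxW hbW (by linarith)
    set q : ℝ × ℝ := ((i : ℝ) + sg m e i ((c : ℝ) - m), H m e) with hq
    have hqa : al m e i ≤ (i : ℝ) + sg m e i ((c : ℝ) - m) := by rw [hald]; linarith
    have hqb : (i : ℝ) + sg m e i ((c : ℝ) - m) ≤ be m e f i := by rw [hbed]; linarith
    have hqm : q ∈ segment ℝ ((i : ℝ), H m e + 1) ((c : ℝ) - m, -((c : ℝ) - m) ^ 2) := by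
      rw [mem_seg]
      have hH := H_ge (e := e) hm
      refine ⟨1 / (H m e + 1 + ((c : ℝ) - m) ^ 2), ⟨by positivity, ?_⟩, ?_, ?_⟩
      · rw [div_le_one hden]; nlinarith [sq_nonneg ((c : ℝ) - m)]
      · rw [hq]; unfold sg; simp only; ring
      · rw [hq]; simp only; field_simp; ring
    intro r hr
    rcases seg_split hqm hr with h | h
    · exact K'_seg p hi (K'_tip p hi) (K'_base p hi hqa hqb) h
    · exact K_seg (a := c) hc (K_top p hc ((al0_le p hi).trans hqa) (hqb.trans (le_bel p hi)))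
        (K_low p hc (Or.inl rfl)) h

/-- lower vertices -/
lemma vis_BB (p : Par m f) {a c : ℕ} (hac : a < c) (hc : c ≤ 3 * m + e) :
    segment ℝ ((a : ℝ) - m, -((a : ℝ) - m) ^ 2) ((c : ℝ) - m, -((c : ℝ) - m) ^ 2) ⊆ RR m e f ↔
      c = a + 1 := by
  constructor
  · intro hs
    by_contra hne
    have h1 : a + 2 ≤ c := by omega
    have h1R : (a : ℝ) + 2 ≤ c := by exact_mod_cast h1
    have hca : 0 < (c : ℝ) - a := by linarith
    have hmem : (((a + 1 : ℕ) : ℝ) - m, -((a : ℝ) - m) ^ 2 + 1 / ((c : ℝ) - a) *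
        (-((c : ℝ) - m) ^ 2 - -((a : ℝ) - m) ^ 2)) ∈
        segment ℝ ((a : ℝ) - m, -((a : ℝ) - m) ^ 2) ((c : ℝ) - m, -((c : ℝ) - m) ^ 2) := by
      rw [mem_seg]
      refine ⟨1 / ((c : ℝ) - a), ⟨by positivity, by rw [div_le_one hca]; linarith⟩, ?_, rfl⟩
      simp only
      push_cast
      field_simp
      ring
    have h2 := hs hmem
    rw [mem_RR, gg_int (a := a + 1) (by omega)] at h2
    have h3 := h2.2.2.1
    have h4 : 1 / ((c : ℝ) - a) * (-((c : ℝ) - m) ^ 2 - -((a : ℝ) - m) ^ 2) =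
        -((c : ℝ) - m) - ((a : ℝ) - m) := by
      field_simp; ring
    rw [h4] at h3
    push_cast at h3
    nlinarith
  · rintro rfl
    exact K_seg (a := a) (by omega) (K_low p (by omega) (Or.inl rfl)) (K_low p hc (Or.inr rfl))

lemma vis_TB (p : Par m f) {x : ℝ} (h1 : al m e 0 ≤ x) (h2 : x ≤ be m e f (m - 1)) {c : ℕ}
    (hc : c ≤ 3 * m + e) :
    segment ℝ (x, H m e) ((c : ℝ) - m, -((c : ℝ) - m) ^ 2) ⊆ RR m e f :=
  K_seg hc (K_top p hc h1 h2) (K_low p hc (Or.inl rfl))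

lemma vis_TT (p : Par m f) {x y : ℝ} (h1 : al m e 0 ≤ x) (h2 : x ≤ be m e f (m - 1))
    (h3 : al m e 0 ≤ y) (h4 : y ≤ be m e f (m - 1)) :
    segment ℝ (x, H m e) (y, H m e) ⊆ RR m e f :=
  K_seg (a := 0) (by omega) (K_top p (by omega) h1 h2) (K_top p (by omega) h3 h4)

lemma vis_PT_left (p : Par m f) {i : ℕ} (hi : i < m) {x : ℝ} (h : x < al m e i) :
    ¬ segment ℝ ((i : ℝ), H m e + 1) (x, H m e) ⊆ RR m e f := by
  apply block_left p hi h
  have := al_lt (e := e) p (i := i)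
  nlinarith

lemma vis_PT_right (p : Par m f) {i : ℕ} (hi : i < m) {x : ℝ} (h : be m e f i < x) :
    ¬ segment ℝ ((i : ℝ), H m e + 1) (x, H m e) ⊆ RR m e f := by
  apply block_right p hi h
  have := be_gt (e := e) p hi
  nlinarith

lemma vis_PP (p : Par m f) {i j : ℕ} (hij : i < j) (hj : j < m) :
    ¬ segment ℝ ((i : ℝ), H m e + 1) ((j : ℝ), H m e + 1) ⊆ RR m e f := by
  have hi : i < m := by omega
  have h1 : (i : ℝ) + 1 ≤ j := by exact_mod_cast hij
  apply block_right p hi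
  · have := be_lt (e := e) p hi
    linarith
  · have := be_gt (e := e) p hi
    nlinarith

end Fam

end Pool.Agent.W115.Vis
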