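import Pool.Agent.W115.Vis.Geo

set_option autoImplicit false

/-! The lower bound. -/

namespace Pool.Agent.W115.Vis

open Set

namespace Fam

variable {m e : ℕ} {f : ℕ → ℕ}

/-- extension of a function on `Fin m` -/
def ext (m : ℕ) (F : Fin m → Fin m) (i : ℕ) : ℕ := if h : i < m then F ⟨i, h⟩ else 0

lemma ext_val {F : Fin m → Fin m} (i : Fin m) : ext m F i = F i := by
  unfold ext
  rw [dif_pos i.2]

lemma par_ext (hm : 1 ≤ m) (F : Fin m → Fin m) : Par m (ext m F) := by
  refine ⟨hm, fun i hi => ?_⟩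
  unfold ext
  rw [dif_pos hi]
  exact (F ⟨i, hi⟩).2

/-- the vertices as points -/
noncomputable abbrev V (m e : ℕ) (f : ℕ → ℕ) (k : ℕ) : ℝ × ℝ :=
  vert (3 * m + 1) (X m e f) (gg m e) (hh m e f) k

lemma V_al (p : Par m f) {i : ℕ} (hi : i < m) : V m e f (3 * i + 1) = (al m e i, H m e) := by
  rw [V, Mono.vert_le _ (by omega), X_al hi, hh_al p hi]

lemma V_p (p : Par m f) {i : ℕ} (hi : i < m) : V m e f (3 * i + 2) = ((i : ℝ), H m e + 1) := by
  rw [V, Mono.vert_le _ (by omega), X_p hi, hh_i p hi]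

lemma V_be (p : Par m f) {i : ℕ} (hi : i < m) : V m e f (3 * i + 3) = (be m e f i, H m e) := by
  rw [V, Mono.vert_le _ (by omega), X_be hi, hh_be p hi]

lemma V_low (p : Par m f) {k c : ℕ} (hk : 3 * m + 1 ≤ k) (hc : c + k = 6 * m + 1 + e) :
    V m e f k = ((c : ℝ) - m, -((c : ℝ) - m) ^ 2) := by
  rw [V, (mono (e := e) p).vert_ge _ hk, X_low hk]
  have hcR : (c : ℝ) + k = 6 * m + 1 + e := by exact_mod_cast hc
  have e1 : (2 * m + e : ℝ) - ((k : ℝ) - 3 * m - 1) = (c : ℝ) - m := by linarith
  rw [e1, gg_int (by omega)]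

lemma V_zero (p : Par m f) : V m e f 0 = (-(m : ℝ), -(m : ℝ) ^ 2) := by
  have h1 := (mono (e := e) p).vert_n
  rw [V, ← h1]
  have := V_low (e := e) p (k := 6 * m + 1 + e) (c := 0) (by omega) (by omega)
  rw [V] at this
  rw [this]
  push_cast
  ext <;> simp

lemma det_of_collinear {a b c : ℝ × ℝ} (h : Collinear ℝ {a, b, c}) :
    (b.1 - a.1) * (c.2 - a.2) = (c.1 - a.1) * (b.2 - a.2) := by
  rw [collinear_iff_of_mem (p₀ := a) (by simp)] at h
  obtain ⟨v, hv⟩ := h
  obtain ⟨r, hr⟩ := hv b (by simp)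
  obtain ⟨s, hs⟩ := hv c (by simp)
  rw [hr, hs]
  simp only [vadd_eq_add, Prod.fst_add, Prod.smul_fst, smul_eq_mul, Prod.snd_add, Prod.smul_snd]
  ring

lemma turn (p : Par m f) (k : ℕ) (hk : k + 2 ≤ 6 * m + 1 + e) :
    ¬ Collinear ℝ {V m e f k, V m e f (k + 1), V m e f (k + 2)} := by
  intro hcol
  have hdet := det_of_collinear hcol
  have hm := p.hm
  have hmR := one_le hm
  have hW := W_ge (e := e) hm
  have hH := H_ge (e := e) hm
  have hHd : H m e = 10 * W m e ^ 2 := rfl
  have hWd : W m e = 2 * m + e + 1 := rfl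
  have he : (0 : ℝ) ≤ e := Nat.cast_nonneg _
  rcases Nat.eq_zero_or_pos k with rfl | hk0
  · have v1 := V_al (e := e) p (i := 0) (by omega)
    have v2 := V_p (e := e) p (i := 0) (by omega)
    rw [show 3 * 0 + 1 = 0 + 1 by norm_num] at v1
    rw [show 3 * 0 + 2 = 0 + 2 by norm_num] at v2
    rw [V_zero p, v1, v2] at hdet
    simp only at hdet
    have hald : al m e 0 = ((0 : ℕ) : ℝ) + sg m e ((0 : ℕ) : ℝ) (-((0 : ℕ) : ℝ) - 3 / 2) := rfl
    rw [Nat.cast_zero, zero_add, neg_zero, zero_sub] at hald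
    have hne : sg m e 0 (-(3 / 2)) ≠ sg m e 0 (-(m : ℝ)) := by
      have a1 : |-(3 / 2 : ℝ)| ≤ W m e := by rw [abs_le]; constructor <;> linarith
      have a2 : |-(m : ℝ)| ≤ W m e := by rw [abs_le, hWd]; constructor <;> linarith
      have hne' : -(3 / 2 : ℝ) ≠ -(m : ℝ) := by
        intro h
        have h1 : (3 : ℝ) = 2 * m := by linarith
        have h2 : (3 : ℕ) = 2 * m := by exact_mod_cast h1
        omega
      rcases lt_or_gt_of_ne hne' with h | h
      · exact (sg_lt hm le_rfl (by linarith) a1 a2 h).ne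
      · exact (sg_lt hm le_rfl (by linarith) a2 a1 h).ne'
    apply hne
    have hden := den_pos (m := m) (e := e) hm (-(m : ℝ))
    have h3 : sg m e 0 (-(m : ℝ)) * (H m e + 1 + (-(m : ℝ)) ^ 2) = -(m : ℝ) := by
      unfold sg; field_simp; ring
    rw [← hald]
    have h4 : (al m e 0 - sg m e 0 (-(m : ℝ))) * (H m e + 1 + (-(m : ℝ)) ^ 2) = 0 := by
      rw [sub_mul, h3]
      push_cast at hdet
      linarith
    rcases mul_eq_zero.1 h4 with h5 | h5
    · linarith
    · linarith
  rcases Nat.lt_or_ge k (3 * m + 1) with hk1 | hk1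
  · obtain ⟨i, hi, hki⟩ : ∃ i, i < m ∧ (k = 3 * i + 1 ∨ k = 3 * i + 2 ∨ k = 3 * i + 3) :=
      ⟨(k - 1) / 3, by omega, by omega⟩
    have ha := al_lt (e := e) p (i := i)
    have hb := be_gt (e := e) p hi
    rcases hki with rfl | rfl | rfl
    · rw [show 3 * i + 1 + 1 = 3 * i + 2 by ring, show 3 * i + 1 + 2 = 3 * i + 3 by ring,
        V_al p hi, V_p p hi, V_be p hi] at hdet
      simp only at hdet
      nlinarith
    · rw [show 3 * i + 2 + 1 = 3 * i + 3 by ring] at hdet
      by_cases h2 : i + 1 < m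
      · rw [show 3 * i + 2 + 2 = 3 * (i + 1) + 1 by ring, V_p p hi, V_be p hi,
          V_al p h2] at hdet
        simp only at hdet
        have := be_al (e := e) p (show i < i + 1 by omega) h2
        nlinarith
      · obtain rfl : i = m - 1 := by omega
        have v1 := V_low (e := e) p (k := 3 * (m - 1) + 2 + 2) (c := 3 * m + e) (by omega)
          (by omega)
        rw [V_p p hi, V_be p hi, v1] at hdet
        simp only at hdet
        push_cast at hdet
        have e1 : (3 * (m : ℝ) + e - m) = 2 * m + e := by ring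
        rw [e1] at hdet
        have h0i : (0 : ℝ) ≤ ((m - 1 : ℕ) : ℝ) := Nat.cast_nonneg _
        have hiR := cast_lt p hi
        have hfR := f_lt p hi
        have hf0 : (0 : ℝ) ≤ f (m - 1) := Nat.cast_nonneg _
        have h3 := sg_lt (m := m) (e := e) hm (i := ((m - 1 : ℕ) : ℝ)) (t := m + f (m - 1) + 1 / 2)
          (t' := 2 * m + e) h0i (by linarith)
          (by rw [abs_le, hWd]; constructor <;> linarith)
          (by rw [abs_le, hWd]; constructor <;> linarith) (by linarith)
        have hbed : be m e f (m - 1) = ((m - 1 : ℕ) : ℝ) +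
          sg m e ((m - 1 : ℕ) : ℝ) (m + f (m - 1) + 1 / 2) := rfl
        have hden := den_pos (m := m) (e := e) hm (2 * m + e : ℝ)
        have h4 : sg m e ((m - 1 : ℕ) : ℝ) (2 * m + e) * (H m e + 1 + (2 * m + e : ℝ) ^ 2) =
            2 * m + e - ((m - 1 : ℕ) : ℝ) := by
          unfold sg; field_simp
        have h5 : (be m e f (m - 1) - ((m - 1 : ℕ) : ℝ)) * (H m e + 1 + (2 * m + e : ℝ) ^ 2) <
            2 * m + e - ((m - 1 : ℕ) : ℝ) := by
          rw [← h4]
          apply mul_lt_mul_of_pos_right _ hden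
          rw [hbed]; linarith
        nlinarith
    · by_cases h2 : i + 1 < m
      · rw [show 3 * i + 3 + 1 = 3 * (i + 1) + 1 by ring,
          show 3 * i + 3 + 2 = 3 * (i + 1) + 2 by ring, V_be p hi, V_al p h2, V_p p h2] at hdet
        simp only at hdet
        have := be_al (e := e) p (show i < i + 1 by omega) h2
        nlinarith
      · obtain rfl : i = m - 1 := by omega
        have v1 := V_low (e := e) p (k := 3 * (m - 1) + 3 + 1) (c := 3 * m + e) (by omega)
          (by omega)
        have v2 := V_low (e := e) p (k := 3 * (m - 1) + 3 + 2) (c := 3 * m + e - 1) (by omega)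
          (by omega)
        rw [V_be p hi, v1, v2, Nat.cast_sub (by omega)] at hdet
        simp only at hdet
        push_cast at hdet
        have e1 : (3 * (m : ℝ) + e - m) = 2 * m + e := by ring
        have e2 : (3 * (m : ℝ) + e - 1 - m) = 2 * m + e - 1 := by ring
        rw [e1, e2] at hdet
        have h3 := be_gt (e := e) p hi
        have h0i : (0 : ℝ) ≤ ((m - 1 : ℕ) : ℝ) := Nat.cast_nonneg _
        rw [hHd, hWd] at hdet
        nlinarith
  · obtain ⟨c, hc⟩ : ∃ c, c + 2 + k = 6 * m + 1 + e := ⟨6 * m + 1 + e - k - 2, by omega⟩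
    rw [V_low (e := e) p (k := k) (c := c + 2) hk1 (by omega),
      V_low (e := e) p (k := k + 1) (c := c + 1) (by omega) (by omega),
      V_low (e := e) p (k := k + 2) (c := c) (by omega) (by omega)] at hdet
    simp only at hdet
    push_cast at hdet
    nlinarith

lemma turn_last (p : Par m f) :
    ¬ Collinear ℝ {V m e f (6 * m + e), V m e f (6 * m + 1 + e), V m e f 1} := by
  intro hcol
  have hdet := det_of_collinear hcol
  have hm := p.hm
  have hmR := one_le hm
  have hHd : H m e = 10 * W m e ^ 2 := rfl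
  have hWd : W m e = 2 * m + e + 1 := rfl
  have he : (0 : ℝ) ≤ e := Nat.cast_nonneg _
  have v1 := V_al (e := e) p (i := 0) (by omega)
  rw [show 3 * 0 + 1 = 1 by norm_num] at v1
  rw [v1, V_low (e := e) p (k := 6 * m + e) (c := 1) (by omega) (by omega),
    V_low (e := e) p (k := 6 * m + 1 + e) (c := 0) (by omega) (by omega)] at hdet
  simp only at hdet
  push_cast at hdet
  have h1 := al_lt (e := e) p (i := 0)
  have h2 := alm_pos (e := e) p
  push_cast at h1
  rw [hHd, hWd] at hdet
  nlinarith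

lemma noStraight (p : Par m f) :
    NoStraightAngle (vv (6 * m + 1 + e) (3 * m + 1) (X m e f) (gg m e) (hh m e f)) := by
  intro i
  have M := mono (e := e) p
  rw [M.vv_succ]
  rcases Mono.val_rot i with ⟨h1, h2⟩ | ⟨h1, h2⟩
  · rw [M.vv_succ, h2]
    exact turn p i (by omega)
  · rw [M.vv_succ, h2]
    have h3 : (i : ℕ) = 6 * m + e := by omega
    have := turn_last (e := e) p
    rw [vv, h3, show 6 * m + e + 1 = 6 * m + 1 + e by ring]
    exact this

/-- index of a vertex of the model -/
def idx (m e : ℕ) : VV m e → ℕ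
  | .T i b => if b then 3 * i + 3 else 3 * i + 1
  | .P i => 3 * i + 2
  | .B d => if (d : ℕ) = 3 * m + e then 0 else 3 * m + 1 + d

lemma idx_lt (u : VV m e) : idx m e u < 6 * m + 1 + e := by
  cases u with
  | T i b =>
    have := i.2
    cases b <;> simp only [idx] <;> norm_num <;> omega
  | P i => have := i.2; simp only [idx]; omega
  | B d => have := d.2; simp only [idx]; split_ifs <;> omega

/-- index map -/
def ι (m e : ℕ) (u : VV m e) : Fin (6 * m + 1 + e) := ⟨idx m e u, idx_lt u⟩

lemma ι_inj : Function.Injective (ι m e) := by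
  intro u w h
  have h' : idx m e u = idx m e w := congrArg Fin.val h
  cases u with
  | T i b =>
    have hi := i.2
    cases w with
    | T j c =>
      have hj := j.2
      cases b <;> cases c <;> simp only [idx] at h' <;> norm_num at h'
      · congr 1; exact Fin.ext h'
      · omega
      · omega
      · congr 1; exact Fin.ext h'
    | P j =>
      have hj := j.2
      cases b <;> simp only [idx] at h' <;> norm_num at h' <;> omega
    | B d =>
      cases b <;> simp only [idx] at h' <;> norm_num at h' <;> split_ifs at h' <;> omega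
  | P i =>
    have hi := i.2
    cases w with
    | T j c =>
      have hj := j.2
      cases c <;> simp only [idx] at h' <;> norm_num at h' <;> omega
    | P j =>
      simp only [idx] at h'
      congr 1; exact Fin.ext (by omega)
    | B d => simp only [idx] at h'; split_ifs at h' <;> omega
  | B c =>
    have hc := c.2
    cases w with
    | T j b =>
      have hj := j.2
      cases b <;> simp only [idx] at h' <;> norm_num at h' <;> split_ifs at h' <;> omega
    | P j => have hj := j.2; simp only [idx] at h'; split_ifs at h' <;> omega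
    | B d =>
      have hd := d.2
      simp only [idx] at h'
      congr 1
      apply Fin.ext
      split_ifs at h' <;> omega

lemma ι_surj : Function.Surjective (ι m e) := by
  intro k
  have hk := k.2
  rcases Nat.eq_zero_or_pos (k : ℕ) with h | h
  · exact ⟨.B ⟨3 * m + e, by omega⟩, by apply Fin.ext; simp [ι, idx, h]⟩
  rcases Nat.lt_or_ge k (3 * m + 1) with h1 | h1
  · obtain ⟨i, hi, hki⟩ : ∃ i, i < m ∧ ((k : ℕ) = 3 * i + 1 ∨ (k : ℕ) = 3 * i + 2 ∨
        (k : ℕ) = 3 * i + 3) := ⟨(k - 1) / 3, by omega, by omega⟩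
    rcases hki with h2 | h2 | h2
    · exact ⟨.T ⟨i, hi⟩ false, by apply Fin.ext; simp [ι, idx, h2]⟩
    · exact ⟨.P ⟨i, hi⟩, by apply Fin.ext; simp [ι, idx, h2]⟩
    · exact ⟨.T ⟨i, hi⟩ true, by apply Fin.ext; simp [ι, idx, h2]⟩
  · refine ⟨.B ⟨k - (3 * m + 1), by omega⟩, ?_⟩
    apply Fin.ext
    simp only [ι, idx]
    rw [if_neg (by omega)]
    omega

/-- position of a vertex of the model -/
noncomputable def pt (m e : ℕ) (f : ℕ → ℕ) : VV m e → ℝ × ℝ
  | .T i b => (if b then be m e f i else al m e i, H m e)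
  | .P i => ((i : ℕ), H m e + 1)
  | .B d => (((3 * m + e - d : ℕ) : ℝ) - m, -(((3 * m + e - d : ℕ) : ℝ) - m) ^ 2)

lemma V_idx (p : Par m f) (u : VV m e) : V m e f (idx m e u) = pt m e f u := by
  cases u with
  | T i b =>
    cases b
    · exact V_al p i.2
    · exact V_be p i.2
  | P i => exact V_p p i.2
  | B d =>
    have hd := d.2
    simp only [idx, pt]
    split_ifs with h
    · rw [V_zero p, h, Nat.sub_self]
      push_cast
      ext <;> simp
    · exact V_low p (by omega) (by omega)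

lemma xr (p : Par m f) (i : Fin m) (b : Bool) :
    al m e 0 ≤ (if b then be m e f i else al m e i) ∧
      (if b then be m e f i else al m e i) ≤ be m e f (m - 1) := by
  have h1 := al0_le (e := e) p i.2
  have h2 := le_bel (e := e) p i.2
  have h3 := al_lt_be (e := e) p i.2
  cases b
  · exact ⟨h1, h3.le.trans h2⟩
  · exact ⟨h1.trans h3.le, h2⟩

lemma adj_TB (p : Par m f) (i : Fin m) (b : Bool) (d : Fin (3 * m + e + 1)) :
    segment ℝ (pt m e f (.T i b)) (pt m e f (.B d)) ⊆ RR m e f :=
  vis_TB p (xr p i b).1 (xr p i b).2 (by omega)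

lemma adj_PT (p : Par m f) (i j : Fin m) (b : Bool) :
    segment ℝ (pt m e f (.P i)) (pt m e f (.T j b)) ⊆ RR m e f ↔ j = i := by
  constructor
  · intro h
    by_contra hne
    have hne' : (j : ℕ) ≠ i := fun h => hne (Fin.ext h)
    rcases Nat.lt_or_gt_of_ne hne' with h1 | h1
    · refine vis_PT_left p i.2 ?_ h
      have h2 := be_al (e := e) p h1 i.2
      have h3 := al_lt_be (e := e) p j.2
      cases b
      · exact h3.trans h2
      · exact h2
    · refine vis_PT_right p i.2 ?_ h
      have h2 := be_al (e := e) p h1 j.2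
      have h3 := al_lt_be (e := e) p j.2
      cases b
      · exact h2
      · exact h2.trans h3
  · rintro rfl
    apply K'_seg p j.2 (K'_tip p j.2)
    have h3 := al_lt_be (e := e) p j.2
    cases b
    · exact K'_base p j.2 le_rfl h3.le
    · exact K'_base p j.2 h3.le le_rfl

lemma adj_PB {F : Fin m → Fin m} (hm : 1 ≤ m) (i : Fin m) (d : Fin (3 * m + e + 1)) :
    segment ℝ (pt m e (ext m F) (.P i)) (pt m e (ext m F) (.B d)) ⊆ RR m e (ext m F) ↔
      m + e ≤ (d : ℕ) + F i ∧ (d : ℕ) ≤ 2 * m + e + i + 1 := by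
  have hd := d.2
  rw [pt, pt, vis_PB (par_ext hm F) i.2 (by omega), ext_val]
  omega

lemma adj_BB (p : Par m f) {c d : Fin (3 * m + e + 1)} (h : (c : ℕ) < d) :
    segment ℝ (pt m e f (.B d)) (pt m e f (.B c)) ⊆ RR m e f ↔ (d : ℕ) = c + 1 := by
  have hd := d.2
  rw [pt, pt, vis_BB p (by omega) (by omega)]
  omega

/-- adjacency in the model is visibility -/
lemma adj_iff {F : Fin m → Fin m} (hm : 1 ≤ m) (u w : VV m e) :
    (Γ m e F).Adj u w ↔ u ≠ w ∧
      segment ℝ (pt m e (ext m F) u) (pt m e (ext m F) w) ⊆ RR m e (ext m F) := by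
  have p := par_ext hm F
  cases u with
  | T i b =>
    cases w with
    | T j c =>
      have h1 : (Γ m e F).Adj (.T i b) (.T j c) ↔ i ≠ j ∨ b ≠ c := Iff.rfl
      have h2 : (VV.T i b : VV m e) ≠ .T j c ↔ i ≠ j ∨ b ≠ c := by
        rw [Ne, VV.T.injEq, not_and_or]
      rw [h1, h2, and_iff_left]
      exact vis_TT p (xr p i b).1 (xr p i b).2 (xr p j c).1 (xr p j c).2
    | P j =>
      have h1 : (Γ m e F).Adj (.T i b) (.P j) ↔ i = j := Iff.rfl
      rw [h1, segment_symm, adj_PT p]
      exact ⟨fun h => ⟨by simp, h⟩, fun h => h.2⟩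
    | B d =>
      have h1 : (Γ m e F).Adj (.T i b) (.B d) ↔ True := Iff.rfl
      rw [h1, true_iff]
      exact ⟨by simp, adj_TB p i b d⟩
  | P i =>
    cases w with
    | T j c =>
      have h1 : (Γ m e F).Adj (.P i) (.T j c) ↔ j = i := Iff.rfl
      rw [h1, adj_PT p]
      exact ⟨fun h => ⟨by simp, h⟩, fun h => h.2⟩
    | P j =>
      have h1 : (Γ m e F).Adj (.P i) (.P j) ↔ False := Iff.rfl
      rw [h1, false_iff]
      rintro ⟨h2, h3⟩
      have hne' : (i : ℕ) ≠ j := fun h => h2 (by rw [Fin.ext h])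
      rcases Nat.lt_or_gt_of_ne hne' with h4 | h4
      · exact vis_PP p h4 j.2 h3
      · rw [segment_symm] at h3
        exact vis_PP p h4 i.2 h3
    | B d =>
      have h1 : (Γ m e F).Adj (.P i) (.B d) ↔
        m + e ≤ (d : ℕ) + F i ∧ (d : ℕ) ≤ 2 * m + e + i + 1 := Iff.rfl
      rw [h1, adj_PB hm]
      exact ⟨fun h => ⟨by simp, h⟩, fun h => h.2⟩
  | B d =>
    cases w with
    | T j c =>
      have h1 : (Γ m e F).Adj (.B d) (.T j c) ↔ True := Iff.rfl
      rw [h1, true_iff, segment_symm]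
      exact ⟨by simp, adj_TB p j c d⟩
    | P i =>
      have h1 : (Γ m e F).Adj (.B d) (.P i) ↔
        m + e ≤ (d : ℕ) + F i ∧ (d : ℕ) ≤ 2 * m + e + i + 1 := Iff.rfl
      rw [h1, segment_symm, adj_PB hm]
      exact ⟨fun h => ⟨by simp, h⟩, fun h => h.2⟩
    | B c =>
      have h1 : (Γ m e F).Adj (.B d) (.B c) ↔ (d : ℕ) = c + 1 ∨ (c : ℕ) = d + 1 := Iff.rfl
      rw [h1]
      rcases Nat.lt_trichotomy (c : ℕ) d with h | h | h
      · rw [adj_BB p h]
        constructor
        · intro h2
          exact ⟨by rw [Ne, VV.B.injEq, Fin.ext_iff]; omega, by omega⟩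
        · rintro ⟨-, h2⟩; omega
      · have : c = d := Fin.ext h
        subst this
        simp
      · rw [segment_symm, adj_BB p h]
        constructor
        · intro h2
          exact ⟨by rw [Ne, VV.B.injEq, Fin.ext_iff]; omega, by omega⟩
        · rintro ⟨-, h2⟩; omega

/-- the polygon -/
noncomputable def poly (m e : ℕ) (F : Fin m → Fin m) : Fin (6 * m + 1 + e) → ℝ × ℝ :=
  vv (6 * m + 1 + e) (3 * m + 1) (X m e (ext m F)) (gg m e) (hh m e (ext m F))

/-- the model is the visibility graph -/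
lemma model_iso {F : Fin m → Fin m} (hm : 1 ≤ m) : Nonempty (Γ m e F ≃g visGraph (poly m e F)) := by
  have p := par_ext hm F
  have M := mono (e := e) p
  have hb : Function.Bijective (ι m e) := ⟨ι_inj, ι_surj⟩
  refine ⟨⟨Equiv.ofBijective (ι m e) hb, ?_⟩⟩
  intro u w
  rw [adj_iff hm]
  have h1 : ∀ u, poly m e F (ι m e u) = pt m e (ext m F) u := fun u => V_idx p u
  show ι m e u ≠ ι m e w ∧ segment ℝ (poly m e F (ι m e u)) (poly m e F (ι m e w)) ⊆
    region (poly m e F) ↔ _
  rw [h1, h1, poly, M.region_eq, ι_inj.ne_iff]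

end Fam

open Fam

lemma card_strict (m e : ℕ) (hm : 2 ≤ m) : m ^ m ≤ (strictClasses (6 * m + 1 + e)).ncard := by
  classical
  let Φ : (Fin m → Fin m) → Quotient (isoSetoid (6 * m + 1 + e)) :=
    fun F => Quotient.mk _ (visGraph (poly m e F))
  have hinj : Function.Injective Φ := by
    intro F G h
    have h1 : Nonempty (visGraph (poly m e F) ≃g visGraph (poly m e G)) := Quotient.exact h
    obtain ⟨a⟩ := h1
    obtain ⟨b⟩ := model_iso (e := e) (F := F) (by omega)
    obtain ⟨c⟩ := model_iso (e := e) (F := G) (by omega)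
    exact rigid hm ⟨(b.trans a).trans c.symm⟩
  have hfin : Finite (Quotient (isoSetoid (6 * m + 1 + e))) := Quotient.finite _
  have h2 : Set.range Φ ⊆ strictClasses (6 * m + 1 + e) := by
    rintro _ ⟨F, rfl⟩
    have p := par_ext (show 1 ≤ m by omega) F
    exact ⟨poly m e F, (mono p).simple, noStraight p, rfl⟩
  have h3 : (Set.range Φ).ncard = m ^ m := by
    rw [← Set.image_univ, Set.ncard_image_of_injective _ hinj, Set.ncard_univ]
    simp
  rw [← h3]
  exact Set.ncard_le_ncard h2 (Set.toFinite _)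

/-- the lower bound -/
theorem lower (n : ℕ) (hn : 144 ≤ n) :
    (n : ℝ) * Real.logb 2 n / 24 ≤ Real.logb 2 ((strictClasses n).ncard : ℝ) := by
  obtain ⟨m, e, hme, he⟩ : ∃ m e, n = 6 * m + 1 + e ∧ e < 6 :=
    ⟨(n - 1) / 6, (n - 1) % 6, by omega, by omega⟩
  have hm : 2 ≤ m := by omega
  have h1 := card_strict m e hm
  rw [← hme] at h1
  have h1R : (m : ℝ) ^ m ≤ (strictClasses n).ncard := by exact_mod_cast h1
  have hmR : (0 : ℝ) < m := by
    have : 0 < m := by omega
    exact_mod_cast this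
  have h2 : (m : ℝ) * Real.logb 2 m ≤ Real.logb 2 ((strictClasses n).ncard : ℝ) := by
    rw [← Real.logb_pow]
    exact Real.logb_le_logb_of_le (by norm_num) (by positivity) h1R
  refine le_trans ?_ h2
  have hnR : (144 : ℝ) ≤ n := by exact_mod_cast hn
  have h3 : (n : ℝ) ≤ 6 * m + 6 := by
    have : n ≤ 6 * m + 6 := by omega
    exact_mod_cast this
  have h4 : (n : ℝ) / 12 ≤ m := by linarith
  have h5 : Real.logb 2 n / 2 ≤ Real.logb 2 m := by
    have h6 : (n : ℝ) ≤ (m : ℝ) ^ 2 := by nlinarith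
    have h7 := Real.logb_le_logb_of_le (b := 2) (by norm_num) (by linarith) h6
    rw [Real.logb_pow] at h7
    push_cast at h7
    linarith
  have h8 : 0 ≤ Real.logb 2 n := Real.logb_nonneg (by norm_num) (by linarith)
  calc (n : ℝ) * Real.logb 2 n / 24 = (n / 12) * (Real.logb 2 n / 2) := by ring
    _ ≤ m * Real.logb 2 m := by gcongr

end Pool.Agent.W115.Vis
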