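import Pool.Agent.W115.Vis.Defs

set_option autoImplicit false

namespace Pool.Agent.W115.Vis

open Set

lemma mem_seg {a b c d : ℝ} {p : ℝ × ℝ} :
    p ∈ segment ℝ (a, b) (c, d) ↔
      ∃ t ∈ Icc (0 : ℝ) 1, p.1 = a + t * (c - a) ∧ p.2 = b + t * (d - b) := by
  rw [segment_eq_image']
  constructor
  · rintro ⟨t, ht, rfl⟩
    exact ⟨t, ht, by simp, by simp⟩
  · rintro ⟨t, ht, h1, h2⟩
    refine ⟨t, ht, ?_⟩
    ext <;> simp [h1, h2]

/-- a function affine on `[a, b]` in the sense we use -/
def AffOn (φ : ℝ → ℝ) (a b : ℝ) : Prop :=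
  ∀ t ∈ Icc (0 : ℝ) 1, φ (a + t * (b - a)) = φ a + t * (φ b - φ a)

lemma AffOn.symm {φ : ℝ → ℝ} {a b : ℝ} (h : AffOn φ a b) : AffOn φ b a := by
  intro t ht
  have := h (1 - t) ⟨by linarith [ht.2], by linarith [ht.1]⟩
  have e : a + (1 - t) * (b - a) = b + t * (a - b) := by ring
  rw [e] at this
  rw [this]; ring

lemma seg_graph {φ : ℝ → ℝ} {a b : ℝ} (hab : a < b) (h : AffOn φ a b) :
    segment ℝ (a, φ a) (b, φ b) = {p | a ≤ p.1 ∧ p.1 ≤ b ∧ p.2 = φ p.1} := by
  ext p
  rw [mem_seg]
  constructor
  · rintro ⟨t, ht, h1, h2⟩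
    refine ⟨?_, ?_, ?_⟩
    · rw [h1]; nlinarith [ht.1]
    · rw [h1]; nlinarith [ht.2]
    · rw [h2, h1, h t ht]
  · rintro ⟨h1, h2, h3⟩
    have hba : 0 < b - a := by linarith
    refine ⟨(p.1 - a) / (b - a), ⟨by apply div_nonneg <;> linarith, ?_⟩, ?_, ?_⟩
    · rw [div_le_one hba]; linarith
    · field_simp; ring
    · have ht : (p.1 - a) / (b - a) ∈ Icc (0 : ℝ) 1 :=
        ⟨by apply div_nonneg <;> linarith, by rw [div_le_one hba]; linarith⟩
      have h4 := h _ ht
      have h5 : a + (p.1 - a) / (b - a) * (b - a) = p.1 := by field_simp; ring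
      rw [h5] at h4
      rw [h3, h4]

lemma seg_graph' {φ : ℝ → ℝ} {a b : ℝ} (hab : a < b) (h : AffOn φ b a) :
    segment ℝ (b, φ b) (a, φ a) = {p | a ≤ p.1 ∧ p.1 ≤ b ∧ p.2 = φ p.1} := by
  rw [segment_symm, seg_graph hab h.symm]

/-- Data of an `x`-monotone polygon: the vertices `0, …, s` run from left to right along the graph
of `h`, the vertices `s, …, n` run back along the graph of `g`. -/
structure Mono (n s : ℕ) (X : ℕ → ℝ) (g h : ℝ → ℝ) : Prop where
  hs : 0 < s
  hsn : s < n
  three : 3 ≤ n
  inc : ∀ k, k < s → X k < X (k + 1)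
  dec : ∀ k, s ≤ k → k < n → X (k + 1) < X k
  close : X n = X 0
  gc : Continuous g
  hc : Continuous h
  left : g (X 0) = h (X 0)
  right : g (X s) = h (X s)
  lt : ∀ x, X 0 < x → x < X s → g x < h x
  affh : ∀ k, k < s → AffOn h (X k) (X (k + 1))
  affg : ∀ k, s ≤ k → k < n → AffOn g (X k) (X (k + 1))

/-- the `k`-th vertex -/
noncomputable def vert (s : ℕ) (X : ℕ → ℝ) (g h : ℝ → ℝ) (k : ℕ) : ℝ × ℝ :=
  if k ≤ s then (X k, h (X k)) else (X k, g (X k))

/-- the vertices -/
noncomputable def vv (n s : ℕ) (X : ℕ → ℝ) (g h : ℝ → ℝ) : Fin n → ℝ × ℝ :=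
  fun i => vert s X g h i

namespace Mono

variable {n s : ℕ} {X : ℕ → ℝ} {g h : ℝ → ℝ}

lemma vert_fst (k : ℕ) : (vert s X g h k).1 = X k := by
  unfold vert; split_ifs <;> rfl

lemma vert_le (k : ℕ) (hk : k ≤ s) : vert s X g h k = (X k, h (X k)) := by
  unfold vert; rw [if_pos hk]

lemma vert_ge (M : Mono n s X g h) (k : ℕ) (hk : s ≤ k) : vert s X g h k = (X k, g (X k)) := by
  unfold vert
  split_ifs with h1
  · obtain rfl : k = s := le_antisymm h1 hk
    rw [M.right]
  · rfl

lemma vert_n (M : Mono n s X g h) : vert s X g h n = vert s X g h 0 := by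
  rw [M.vert_ge n M.hsn.le, vert_le 0 (Nat.zero_le _), M.close, M.left]

lemma incr (M : Mono n s X g h) {a b : ℕ} (hab : a < b) (hb : b ≤ s) : X a < X b := by
  induction b with
  | zero => omega
  | succ b ih =>
    rcases Nat.lt_or_ge a b with h1 | h1
    · exact (ih h1 (by omega)).trans (M.inc b (by omega))
    · obtain rfl : a = b := by omega
      exact M.inc a (by omega)

lemma incr_le (M : Mono n s X g h) {a b : ℕ} (hab : a ≤ b) (hb : b ≤ s) : X a ≤ X b := by
  rcases hab.lt_or_eq with h1 | rfl
  · exact (M.incr h1 hb).le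
  · exact le_rfl

lemma decr (M : Mono n s X g h) {a b : ℕ} (ha : s ≤ a) (hab : a < b) (hb : b ≤ n) :
    X b < X a := by
  induction b with
  | zero => omega
  | succ b ih =>
    rcases Nat.lt_or_ge a b with h1 | h1
    · exact (M.dec b (by omega) (by omega)).trans (ih h1 (by omega))
    · obtain rfl : a = b := by omega
      exact M.dec a (by omega) (by omega)

lemma decr_le (M : Mono n s X g h) {a b : ℕ} (ha : s ≤ a) (hab : a ≤ b) (hb : b ≤ n) :
    X b ≤ X a := by
  rcases hab.lt_or_eq with h1 | rfl
  · exact (M.decr ha h1 hb).le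
  · exact le_rfl

/-- the cyclic successor -/
lemma vv_succ (M : Mono n s X g h) (i : Fin n) :
    vv n s X g h (finRotate n i) = vert s X g h (i + 1) := by
  obtain ⟨k, rfl⟩ : ∃ k, n = k + 1 := ⟨n - 1, by have := i.2; omega⟩
  unfold vv
  rcases eq_or_ne i (Fin.last k) with rfl | hi
  · rw [finRotate_last]
    simp only [Fin.val_zero, Fin.val_last]
    exact M.vert_n.symm
  · rw [coe_finRotate_of_ne_last hi]

lemma side_eq (M : Mono n s X g h) (i : Fin n) :
    side (vv n s X g h) i = segment ℝ (vert s X g h i) (vert s X g h (i + 1)) := by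
  unfold side
  rw [M.vv_succ]
  rfl

lemma side_lt (M : Mono n s X g h) (i : Fin n) (hi : (i : ℕ) < s) :
    side (vv n s X g h) i = {p | X i ≤ p.1 ∧ p.1 ≤ X (i + 1) ∧ p.2 = h p.1} := by
  rw [M.side_eq, vert_le _ hi.le, vert_le _ hi, seg_graph (M.inc _ hi) (M.affh _ hi)]

lemma side_ge (M : Mono n s X g h) (i : Fin n) (hi : s ≤ (i : ℕ)) :
    side (vv n s X g h) i = {p | X (i + 1) ≤ p.1 ∧ p.1 ≤ X i ∧ p.2 = g p.1} := by
  rw [M.side_eq, M.vert_ge _ hi, M.vert_ge _ (by omega), seg_graph' (M.dec _ hi i.2) (M.affg _ hi i.2)]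

lemma le_of (M : Mono n s X g h) {x : ℝ} (h1 : X 0 ≤ x) (h2 : x ≤ X s) : g x ≤ h x := by
  rcases h1.lt_or_eq with h3 | rfl
  · rcases h2.lt_or_eq with h4 | rfl
    · exact (M.lt x h3 h4).le
    · exact M.right.le
  · exact M.left.le

lemma eq_of (M : Mono n s X g h) {x : ℝ} (h1 : X 0 ≤ x) (h2 : x ≤ X s) (h3 : g x = h x) :
    x = X 0 ∨ x = X s := by
  by_contra hc
  push Not at hc
  exact absurd h3 (M.lt x (lt_of_le_of_ne h1 (Ne.symm hc.1)) (lt_of_le_of_ne h2 hc.2)).ne

/-- the curve consists of the two graphs -/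
lemma mem_curve (M : Mono n s X g h) (p : ℝ × ℝ) :
    p ∈ curve (vv n s X g h) ↔ X 0 ≤ p.1 ∧ p.1 ≤ X s ∧ (p.2 = g p.1 ∨ p.2 = h p.1) := by
  have hsn := M.hsn
  unfold curve
  rw [mem_iUnion]
  constructor
  · rintro ⟨i, hi⟩
    rcases Nat.lt_or_ge i s with h1 | h1
    · rw [M.side_lt i h1] at hi
      exact ⟨(M.incr_le (Nat.zero_le _) h1.le).trans hi.1,
        hi.2.1.trans (M.incr_le (by omega) le_rfl), Or.inr hi.2.2⟩
    · rw [M.side_ge i h1] at hi
      have h2 : X n ≤ X (i + 1) := M.decr_le (by omega) (by omega) le_rfl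
      rw [M.close] at h2
      exact ⟨h2.trans hi.1, hi.2.1.trans (M.decr_le le_rfl h1 (by omega)), Or.inl hi.2.2⟩
  · rintro ⟨h1, h2, h3⟩
    rcases h3 with h3 | h3
    · -- lower chain
      have : ∃ k, s ≤ k ∧ k < n ∧ X (k + 1) ≤ p.1 ∧ p.1 ≤ X k := by
        by_contra hc
        push Not at hc
        have key : ∀ j, s + j ≤ n → p.1 ≤ X (s + j) := by
          intro j
          induction j with
          | zero => intro _; exact h2
          | succ j ih =>
            intro hj
            have h4 := ih (by omega)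
            by_contra h5
            push Not at h5
            exact absurd h4 (not_le.2 (hc (s + j) (by omega) (by omega) h5.le))
        have h6 := key (n - s) (by omega)
        rw [show s + (n - s) = n by omega, M.close] at h6
        have h7 : p.1 = X 0 := le_antisymm h6 h1
        have h8 := hc (n - 1) (by omega) (by omega)
          (by rw [show n - 1 + 1 = n by omega, M.close]; exact h7.ge)
        have h9 := key (n - 1 - s) (by omega)
        rw [show s + (n - 1 - s) = n - 1 by omega] at h9
        exact absurd h9 (not_le.2 h8)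
      obtain ⟨k, hk1, hk2, hk3, hk4⟩ := this
      refine ⟨⟨k, hk2⟩, ?_⟩
      rw [M.side_ge _ hk1]
      exact ⟨hk3, hk4, h3⟩
    · have : ∃ k, k < s ∧ X k ≤ p.1 ∧ p.1 ≤ X (k + 1) := by
        by_contra hc
        push Not at hc
        have key : ∀ j, j ≤ s → X j ≤ p.1 := by
          intro j
          induction j with
          | zero => intro _; exact h1
          | succ j ih =>
            intro hj
            exact (hc j (by omega) (ih (by omega))).le
        have hs := M.hs
        have h6 := key (s - 1) (by omega)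
        have h7 := hc (s - 1) (by omega) h6
        rw [show s - 1 + 1 = s by omega] at h7
        exact absurd h2 (not_le.2 h7)
      obtain ⟨k, hk1, hk2, hk3⟩ := this
      refine ⟨⟨k, by omega⟩, ?_⟩
      rw [M.side_lt _ hk1]
      exact ⟨hk2, hk3, h3⟩

/-- the region between the two graphs -/
def R (s : ℕ) (X : ℕ → ℝ) (g h : ℝ → ℝ) : Set (ℝ × ℝ) :=
  {p | X 0 ≤ p.1 ∧ p.1 ≤ X s ∧ g p.1 ≤ p.2 ∧ p.2 ≤ h p.1}

lemma unbounded_up (a b : ℝ) : ¬ Bornology.IsBounded {p : ℝ × ℝ | p.1 = a ∧ b < p.2} := by
  intro hb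
  obtain ⟨C, hC⟩ := hb.exists_norm_le
  have h1 := hC (a, max (b + 1) (C + 1)) ⟨rfl, by
    show b < max (b + 1) (C + 1)
    exact lt_of_lt_of_le (by linarith) (le_max_left _ _)⟩
  have h2 : |max (b + 1) (C + 1)| ≤ ‖((a, max (b + 1) (C + 1)) : ℝ × ℝ)‖ := by
    rw [← Real.norm_eq_abs]
    exact norm_snd_le (a, max (b + 1) (C + 1))
  have h3 : C + 1 ≤ |max (b + 1) (C + 1)| := (le_max_right _ _).trans (le_abs_self _)
  linarith

lemma unbounded_down (a b : ℝ) : ¬ Bornology.IsBounded {p : ℝ × ℝ | p.1 = a ∧ p.2 < b} := by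
  intro hb
  obtain ⟨C, hC⟩ := hb.exists_norm_le
  have h1 := hC (a, min (b - 1) (-C - 1)) ⟨rfl, by
    show min (b - 1) (-C - 1) < b
    exact lt_of_le_of_lt (min_le_left _ _) (by linarith)⟩
  have h2 : |min (b - 1) (-C - 1)| ≤ ‖((a, min (b - 1) (-C - 1)) : ℝ × ℝ)‖ := by
    rw [← Real.norm_eq_abs]
    exact norm_snd_le (a, min (b - 1) (-C - 1))
  have h3 : C + 1 ≤ |min (b - 1) (-C - 1)| := by
    have := min_le_right (b - 1) (-C - 1)
    have := neg_le_abs (min (b - 1) (-C - 1))
    linarith
  linarith

lemma R_bounded (M : Mono n s X g h) : Bornology.IsBounded (R s X g h) := by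
  have hK : IsCompact (Icc (X 0) (X s)) := isCompact_Icc
  obtain ⟨A, hA⟩ := (hK.image M.gc).isBounded.exists_norm_le
  obtain ⟨B, hB⟩ := (hK.image M.hc).isBounded.exists_norm_le
  have : R s X g h ⊆ Icc (X 0) (X s) ×ˢ Icc (-A) B := by
    rintro p ⟨h1, h2, h3, h4⟩
    refine ⟨⟨h1, h2⟩, ?_, ?_⟩
    · have h5 := hA _ (mem_image_of_mem g (⟨h1, h2⟩ : p.1 ∈ Icc (X 0) (X s)))
      rw [Real.norm_eq_abs, abs_le] at h5
      linarith [h5.1]
    · have h5 := hB _ (mem_image_of_mem h (⟨h1, h2⟩ : p.1 ∈ Icc (X 0) (X s)))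
      rw [Real.norm_eq_abs, abs_le] at h5
      linarith [h5.2]
  exact ((Metric.isBounded_Icc _ _).prod (Metric.isBounded_Icc _ _)).subset this

/-- the region of an `x`-monotone polygon -/
theorem region_eq (M : Mono n s X g h) : region (vv n s X g h) = R s X g h := by
  ext p
  constructor
  · intro hp
    by_contra hR
    -- a vertical ray
    have hpc : p ∉ curve (vv n s X g h) := by
      rw [M.mem_curve]
      rintro ⟨h1, h2, h3⟩
      apply hR
      have h4 := M.le_of h1 h2
      rcases h3 with h3 | h3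
      · exact ⟨h1, h2, h3.ge, h3 ▸ h4⟩
      · exact ⟨h1, h2, h3 ▸ h4, h3.le⟩
    rcases le_or_gt (g p.1) p.2 with h1 | h1
    · -- go up
      have h5 : ∀ q : ℝ × ℝ, q.1 = p.1 → p.2 ≤ q.2 → q ∈ (curve (vv n s X g h))ᶜ := by
        intro q hq1 hq2 hq3
        rw [M.mem_curve] at hq3
        obtain ⟨h6, h7, h8⟩ := hq3
        rw [hq1] at h6 h7 h8
        have h9 := M.le_of h6 h7
        have h10 : ¬ p.2 ≤ h p.1 := fun h => hR ⟨h6, h7, h1, h⟩
        rcases h8 with h8 | h8 <;> linarith
      -- closed ray
      have hray : IsPreconnected {q : ℝ × ℝ | q.1 = p.1 ∧ p.2 ≤ q.2} := by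
        apply Convex.isPreconnected
        intro x hx y hy a b ha hb hab
        refine ⟨?_, ?_⟩
        · simp only [Prod.fst_add, Prod.smul_fst, smul_eq_mul, hx.1, hy.1]
          rw [← add_mul, hab, one_mul]
        · have h1 := hx.2
          have h2 := hy.2
          simp only [Prod.snd_add, Prod.smul_snd, smul_eq_mul]
          have h3 := mul_le_mul_of_nonneg_left h1 ha
          have h4 := mul_le_mul_of_nonneg_left h2 hb
          have h5 : p.2 = a * p.2 + b * p.2 := by rw [← add_mul, hab, one_mul]
          linarith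
      have h11 := hray.subset_connectedComponentIn (x := p) ⟨rfl, le_rfl⟩
        (F := (curve (vv n s X g h))ᶜ) (fun q hq => h5 q hq.1 hq.2)
      have hp' : Bornology.IsBounded (connectedComponentIn (curve (vv n s X g h))ᶜ p) := hp
      refine unbounded_up p.1 p.2 (hp'.subset (Subset.trans ?_ h11))
      rintro q ⟨hq1, hq2⟩
      exact ⟨hq1, hq2.le⟩
    · have h5 : ∀ q : ℝ × ℝ, q.1 = p.1 → q.2 ≤ p.2 → q ∈ (curve (vv n s X g h))ᶜ := by
        intro q hq1 hq2 hq3
        rw [M.mem_curve] at hq3
        obtain ⟨h6, h7, h8⟩ := hq3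
        rw [hq1] at h6 h7 h8
        have h9 := M.le_of h6 h7
        rcases h8 with h8 | h8 <;> linarith
      have hray : IsPreconnected {q : ℝ × ℝ | q.1 = p.1 ∧ q.2 ≤ p.2} := by
        apply Convex.isPreconnected
        intro x hx y hy a b ha hb hab
        refine ⟨?_, ?_⟩
        · simp only [Prod.fst_add, Prod.smul_fst, smul_eq_mul, hx.1, hy.1]
          rw [← add_mul, hab, one_mul]
        · have h1 := hx.2
          have h2 := hy.2
          simp only [Prod.snd_add, Prod.smul_snd, smul_eq_mul]
          have h3 := mul_le_mul_of_nonneg_left h1 ha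
          have h4 := mul_le_mul_of_nonneg_left h2 hb
          have h5 : p.2 = a * p.2 + b * p.2 := by rw [← add_mul, hab, one_mul]
          linarith
      have h11 := hray.subset_connectedComponentIn (x := p) ⟨rfl, le_rfl⟩
        (F := (curve (vv n s X g h))ᶜ) (fun q hq => h5 q hq.1 hq.2)
      have hp' : Bornology.IsBounded (connectedComponentIn (curve (vv n s X g h))ᶜ p) := hp
      refine unbounded_down p.1 p.2 (hp'.subset (Subset.trans ?_ h11))
      rintro q ⟨hq1, hq2⟩
      exact ⟨hq1, hq2.le⟩
  · intro hp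
    by_cases hc : p ∈ curve (vv n s X g h)
    · have : connectedComponentIn (curve (vv n s X g h))ᶜ p = ∅ :=
        connectedComponentIn_eq_empty (by simpa using hc)
      simp [region, this]
    · set U : Set (ℝ × ℝ) := {q | X 0 < q.1 ∧ q.1 < X s ∧ g q.1 < q.2 ∧ q.2 < h q.1} with hU
      set V : Set (ℝ × ℝ) := {q | q.1 < X 0 ∨ X s < q.1 ∨ q.2 < g q.1 ∨ h q.1 < q.2} with hV
      have hUo : IsOpen U := by
        have e : U = {q : ℝ × ℝ | X 0 < q.1} ∩ ({q | q.1 < X s} ∩ ({q | g q.1 < q.2} ∩
          {q | q.2 < h q.1})) := rfl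
        rw [e]
        have c1 : Continuous fun q : ℝ × ℝ => g q.1 := M.gc.comp continuous_fst
        have c2 : Continuous fun q : ℝ × ℝ => h q.1 := M.hc.comp continuous_fst
        exact (isOpen_lt continuous_const continuous_fst).inter
          ((isOpen_lt continuous_fst continuous_const).inter
          ((isOpen_lt c1 continuous_snd).inter (isOpen_lt continuous_snd c2)))
      have hVo : IsOpen V := by
        have e : V = {q : ℝ × ℝ | q.1 < X 0} ∪ ({q | X s < q.1} ∪ ({q | q.2 < g q.1} ∪
          {q | h q.1 < q.2})) := rfl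
        rw [e]
        have c1 : Continuous fun q : ℝ × ℝ => g q.1 := M.gc.comp continuous_fst
        have c2 : Continuous fun q : ℝ × ℝ => h q.1 := M.hc.comp continuous_fst
        exact (isOpen_lt continuous_fst continuous_const).union
          ((isOpen_lt continuous_const continuous_fst).union
          ((isOpen_lt continuous_snd c1).union (isOpen_lt c2 continuous_snd)))
      have hcover : (curve (vv n s X g h))ᶜ ⊆ U ∪ V := by
        intro q hq
        by_contra hn
        rw [mem_union, not_or] at hn
        obtain ⟨hn1, hn2⟩ := hn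
        simp only [hV, mem_ofPred_eq, not_or, not_lt] at hn2
        obtain ⟨h1, h2, h3, h4⟩ := hn2
        apply hq
        rw [M.mem_curve]
        refine ⟨h1, h2, ?_⟩
        by_contra h5
        push Not at h5
        have h3' : g q.1 < q.2 := lt_of_le_of_ne h3 (Ne.symm h5.1)
        have h4' : q.2 < h q.1 := lt_of_le_of_ne h4 h5.2
        have h6 : X 0 ≠ q.1 := by
          intro h
          have := M.left
          rw [h] at this
          linarith
        have h7 : q.1 ≠ X s := by
          intro h
          have := M.right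
          rw [← h] at this
          linarith
        exact hn1 ⟨lt_of_le_of_ne h1 h6, lt_of_le_of_ne h2 h7, h3', h4'⟩
      have hdisj : Disjoint U V := by
        rw [Set.disjoint_left]
        rintro q ⟨h1, h2, h3, h4⟩ (h5 | h5 | h5 | h5) <;> linarith
      have hpU : p ∈ U := by
        rcases hcover hc with h1 | h1
        · exact h1
        · exfalso
          obtain ⟨h2, h3, h4, h5⟩ := hp
          rcases h1 with h6 | h6 | h6 | h6 <;> linarith
      have hsub : connectedComponentIn (curve (vv n s X g h))ᶜ p ⊆ U := by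
        apply isPreconnected_connectedComponentIn.subset_left_of_subset_union hUo hVo hdisj
          ((connectedComponentIn_subset _ _).trans hcover)
        exact ⟨p, mem_connectedComponentIn hc, hpU⟩
      refine M.R_bounded.subset (hsub.trans ?_)
      rintro q ⟨h1, h2, h3, h4⟩
      exact ⟨h1.le, h2.le, h3.le, h4.le⟩

lemma val_rot {n : ℕ} (i : Fin n) :
    ((i : ℕ) + 1 < n ∧ (finRotate n i : ℕ) = i + 1) ∨
      ((i : ℕ) + 1 = n ∧ (finRotate n i : ℕ) = 0) := by
  obtain ⟨k, rfl⟩ : ∃ k, n = k + 1 := ⟨n - 1, by have := i.2; omega⟩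
  rcases eq_or_ne i (Fin.last k) with rfl | hi
  · right
    rw [finRotate_last]
    simp
  · left
    rw [coe_finRotate_of_ne_last hi]
    have : (i : ℕ) ≠ k := fun h => hi (Fin.ext h)
    have := i.2
    omega

/-- an `x`-monotone polygon is simple -/
theorem simple (M : Mono n s X g h) : IsSimplePolygon (vv n s X g h) := by
  have hs := M.hs
  have hsn := M.hsn
  refine ⟨M.three, ?_, ?_, ?_⟩
  · intro i hi
    rw [M.vv_succ] at hi
    have h1 := congrArg Prod.fst hi
    rw [vv, vert_fst, vert_fst] at h1
    rcases Nat.lt_or_ge i s with h2 | h2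
    · exact absurd h1 (M.inc i h2).ne
    · exact absurd h1 (M.dec i h2 i.2).ne'
  · intro i
    have hv : vv n s X g h (finRotate n i) ∈ side (vv n s X g h) i ∩
        side (vv n s X g h) (finRotate n i) :=
      ⟨right_mem_segment _ _ _, left_mem_segment _ _ _⟩
    apply Subset.antisymm
    · rintro p ⟨hp1, hp2⟩
      rw [mem_singleton_iff]
      rw [M.vv_succ]
      rcases val_rot i with ⟨h1, h2⟩ | ⟨h1, h2⟩
      · rcases Nat.lt_or_ge (finRotate n i) s with h3 | h3
        · -- both upper
          rw [M.side_lt _ (by omega)] at hp1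
          rw [M.side_lt _ h3] at hp2
          obtain ⟨-, h4, h5⟩ := hp1
          obtain ⟨h6, -, -⟩ := hp2
          rw [h2] at h6
          rw [vert_le _ (by omega)]
          have h7 : p.1 = X (i + 1) := le_antisymm h4 h6
          ext
          · exact h7
          · rw [h5, h7]
        · rcases Nat.lt_or_ge i s with h4 | h4
          · -- upper then lower, i + 1 = s
            have h5 : (i : ℕ) + 1 = s := by omega
            rw [M.side_lt _ h4] at hp1
            rw [M.side_ge _ h3] at hp2
            obtain ⟨h6, h7, h8⟩ := hp1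
            obtain ⟨h9, h10, h11⟩ := hp2
            rw [vert_le _ (by omega)]
            rw [h5] at h7 ⊢
            have h12 : X 0 ≤ X i := M.incr_le (Nat.zero_le _) (by omega)
            rcases M.eq_of (h12.trans h6) h7 (by rw [← h11, ← h8]) with h13 | h13
            · exfalso
              have h14 : X n < X (finRotate n i + 1) ∨ (finRotate n i : ℕ) + 1 = n := by
                rcases Nat.lt_or_ge ((finRotate n i : ℕ) + 1) n with h | h
                · left; exact M.decr (by omega) h le_rfl
                · right; omega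
              rcases Nat.lt_or_ge 0 (i : ℕ) with h15 | h15
              · have := M.incr h15 (by omega : (i : ℕ) ≤ s)
                linarith
              · -- i = 0, s = 1; then use n ≥ 3
                rcases h14 with h14 | h14
                · rw [M.close] at h14
                  linarith
                · have := M.three
                  omega
            · ext
              · exact h13
              · rw [h8, h13]
          · rw [M.side_ge _ h4] at hp1
            rw [M.side_ge _ h3] at hp2
            obtain ⟨h5, -, h6⟩ := hp1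
            obtain ⟨-, h7, -⟩ := hp2
            rw [h2] at h7
            rw [M.vert_ge _ (by omega)]
            have h8 : p.1 = X (i + 1) := le_antisymm h7 h5
            ext
            · exact h8
            · rw [h6, h8]
      · -- i = n - 1
        rw [M.side_ge _ (by omega)] at hp1
        rw [M.side_lt _ (by omega)] at hp2
        obtain ⟨h6, h7, h8⟩ := hp1
        obtain ⟨h9, h10, h11⟩ := hp2
        rw [h2] at h9 h10
        rw [h1, M.vert_n, vert_le 0 (Nat.zero_le _)]
        have h12 : p.1 ≤ X s := h10.trans (M.incr_le (by omega) le_rfl)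
        rcases M.eq_of h9 h12 (by rw [← h11, ← h8]) with h13 | h13
        · ext
          · exact h13
          · rw [h11, h13]
        · exfalso
          rcases Nat.lt_or_ge 1 s with h14 | h14
          · have := M.incr (show 0 + 1 < s by omega) le_rfl
            linarith
          · -- s = 1
            have := M.three
            have h15 : X (i : ℕ) < X s := M.decr le_rfl (by omega) (by omega)
            linarith
    · intro p hp
      rw [mem_singleton_iff] at hp
      rw [hp]; exact hv
  · intro i j h1 h2 h3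
    rw [Set.disjoint_left]
    intro p hp1 hp2
    have hne : (j : ℕ) ≠ i := fun h => h1 (Fin.ext h)
    have h2' : (j : ℕ) ≠ finRotate n i := fun h => h2 (Fin.ext h)
    have h3' : (i : ℕ) ≠ finRotate n j := fun h => h3 (Fin.ext h)
    have hi := i.2
    have hj := j.2
    have ri := val_rot i
    have rj := val_rot j
    rcases Nat.lt_or_ge i s with h4 | h4 <;> rcases Nat.lt_or_ge j s with h5 | h5
    · rw [M.side_lt _ h4] at hp1
      rw [M.side_lt _ h5] at hp2
      rcases Nat.lt_or_ge i j with h6 | h6
      · have := M.incr (show (i : ℕ) + 1 < j by omega) h5.le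
        linarith [hp1.2.1, hp2.1]
      · have := M.incr (show (j : ℕ) + 1 < i by omega) h4.le
        linarith [hp2.2.1, hp1.1]
    · rw [M.side_lt _ h4] at hp1
      rw [M.side_ge _ h5] at hp2
      have h12 : X 0 ≤ X i := M.incr_le (Nat.zero_le _) (by omega)
      have h13 : X (i + 1) ≤ X s := M.incr_le h4 le_rfl
      rcases M.eq_of (h12.trans hp1.1) (hp1.2.1.trans h13) (by rw [← hp1.2.2, ← hp2.2.2])
        with h14 | h14
      · -- then i = 0 and j = n - 1
        have h15 : (i : ℕ) = 0 := by
          by_contra h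
          have := M.incr (show 0 < (i : ℕ) by omega) h4.le
          linarith [hp1.1]
        have h16 : (j : ℕ) + 1 = n := by
          by_contra h
          have := M.decr (show s ≤ (j : ℕ) + 1 by omega) (show (j : ℕ) + 1 < n by omega) le_rfl
          rw [M.close] at this
          linarith [hp2.1]
        omega
      · have h15 : (i : ℕ) + 1 = s := by
          by_contra h
          have := M.incr (show (i : ℕ) + 1 < s by omega) le_rfl
          linarith [hp1.2.1]
        have h16 : (j : ℕ) = s := by
          by_contra h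
          have := M.decr le_rfl (show s < (j : ℕ) by omega) (by omega)
          linarith [hp2.2.1]
        omega
    · rw [M.side_ge _ h4] at hp1
      rw [M.side_lt _ h5] at hp2
      have h12 : X 0 ≤ X j := M.incr_le (Nat.zero_le _) (by omega)
      have h13 : X (j + 1) ≤ X s := M.incr_le h5 le_rfl
      rcases M.eq_of (h12.trans hp2.1) (hp2.2.1.trans h13) (by rw [← hp1.2.2, ← hp2.2.2])
        with h14 | h14
      · have h15 : (j : ℕ) = 0 := by
          by_contra h
          have := M.incr (show 0 < (j : ℕ) by omega) h5.le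
          linarith [hp2.1]
        have h16 : (i : ℕ) + 1 = n := by
          by_contra h
          have := M.decr (show s ≤ (i : ℕ) + 1 by omega) (show (i : ℕ) + 1 < n by omega) le_rfl
          rw [M.close] at this
          linarith [hp1.1]
        omega
      · have h15 : (j : ℕ) + 1 = s := by
          by_contra h
          have := M.incr (show (j : ℕ) + 1 < s by omega) le_rfl
          linarith [hp2.2.1]
        have h16 : (i : ℕ) = s := by
          by_contra h
          have := M.decr le_rfl (show s < (i : ℕ) by omega) (by omega)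
          linarith [hp1.2.1]
        omega
    · rw [M.side_ge _ h4] at hp1
      rw [M.side_ge _ h5] at hp2
      rcases Nat.lt_or_ge i j with h6 | h6
      · have := M.decr (show s ≤ (i : ℕ) + 1 by omega) (show (i : ℕ) + 1 < j by omega) (by omega)
        linarith [hp1.1, hp2.2.1]
      · have := M.decr (show s ≤ (j : ℕ) + 1 by omega) (show (j : ℕ) + 1 < i by omega) (by omega)
        linarith [hp2.1, hp1.2.1]

end Mono

end Pool.Agent.W115.Vis
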