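import Pool.Agent.W115.Vis.Defs
import Pool.Agent.W115.Vis.Arr
import Pool.Agent.W115.Vis.Mono

set_option autoImplicit false

/-! The region of a simple polygon in terms of sign vectors of an arrangement of lines. -/

namespace Pool.Agent.W115.Vis

open Set Topology

/-- lines and perpendicular lines for the pairs of vertices, and the four sides of the box -/
abbrev EI (n : ℕ) : Type := (Fin n × Fin n × Bool) ⊕ (Bool × Bool)

/-- the affine functions -/
def arr {n : ℕ} (v : Fin n → ℝ × ℝ) (M : ℝ) : EI n → Aff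
  | .inl (i, j, false) => ⟨-((v j).2 - (v i).2), (v j).1 - (v i).1,
      -((v j).1 - (v i).1) * (v i).2 + ((v j).2 - (v i).2) * (v i).1⟩
  | .inl (i, j, true) => ⟨(v j).1 - (v i).1, (v j).2 - (v i).2,
      -((v j).1 - (v i).1) * (v i).1 - ((v j).2 - (v i).2) * (v i).2⟩
  | .inr (false, false) => ⟨-1, 0, M⟩
  | .inr (false, true) => ⟨1, 0, M⟩
  | .inr (true, false) => ⟨0, -1, M⟩
  | .inr (true, true) => ⟨0, 1, M⟩

section

variable {n : ℕ} (v : Fin n → ℝ × ℝ) (M : ℝ)

/-- sign vector of a point -/
noncomputable def sg' (x : ℝ × ℝ) (e : EI n) : SignType := SignType.sign ((arr v M e).ev x)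

variable {v M}

/-- the combinatorial form of lying on the segment between two vertices -/
def segc (i j : Fin n) (σ : EI n → SignType) : Prop :=
  σ (.inl (i, j, false)) = 0 ∧ 0 ≤ σ (.inl (i, j, true)) ∧ 0 ≤ σ (.inl (j, i, true))

def InC (σ : EI n → SignType) : Prop := ∃ i, segc i (finRotate n i) σ

lemma seg_iff {i j : Fin n} (hne : v i ≠ v j) (x : ℝ × ℝ) :
    x ∈ segment ℝ (v i) (v j) ↔ segc i j (sg' v M x) := by
  have e1 : (arr v M (.inl (i, j, false))).ev x =
      ((v j).1 - (v i).1) * (x.2 - (v i).2) - ((v j).2 - (v i).2) * (x.1 - (v i).1) := by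
    simp only [arr, Aff.ev]; ring
  have e2 : ∀ i j : Fin n, (arr v M (.inl (i, j, true))).ev x =
      ((v j).1 - (v i).1) * (x.1 - (v i).1) + ((v j).2 - (v i).2) * (x.2 - (v i).2) := by
    intro i j; simp only [arr, Aff.ev]; ring
  unfold segc sg'
  rw [sign_eq_zero_iff, sign_nonneg_iff, sign_nonneg_iff, e1, e2, e2]
  have hv : v i = ((v i).1, (v i).2) := rfl
  have hv' : v j = ((v j).1, (v j).2) := rfl
  rw [hv, hv', mem_seg]
  simp only
  set a := (v i).1
  set b := (v i).2
  set c := (v j).1
  set d := (v j).2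
  constructor
  · rintro ⟨t, ht, h1, h2⟩
    rw [h1, h2]
    refine ⟨by ring, ?_, ?_⟩
    · have : (c - a) * (a + t * (c - a) - a) + (d - b) * (b + t * (d - b) - b) =
        t * ((c - a) ^ 2 + (d - b) ^ 2) := by ring
      rw [this]
      exact mul_nonneg ht.1 (by positivity)
    · have : (a - c) * (a + t * (c - a) - c) + (b - d) * (b + t * (d - b) - d) =
        (1 - t) * ((c - a) ^ 2 + (d - b) ^ 2) := by ring
      rw [this]
      exact mul_nonneg (by linarith [ht.2]) (by positivity)
  · rintro ⟨h1, h2, h3⟩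
    have hq : 0 < (c - a) ^ 2 + (d - b) ^ 2 := by
      rcases eq_or_ne (c - a) 0 with h | h
      · rcases eq_or_ne (d - b) 0 with h' | h'
        · exfalso
          apply hne
          rw [hv, hv']
          ext
          · simp only; linarith
          · simp only; linarith
        · positivity
      · positivity
    set q := (c - a) ^ 2 + (d - b) ^ 2 with hqd
    set s := (c - a) * (x.1 - a) + (d - b) * (x.2 - b) with hs
    refine ⟨s / q, ⟨div_nonneg h2 hq.le, ?_⟩, ?_, ?_⟩
    · rw [div_le_one hq]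
      have : (a - c) * (x.1 - c) + (b - d) * (x.2 - d) = q - s := by rw [hqd, hs]; ring
      linarith
    · have : q * x.1 = q * a + s * (c - a) := by
        rw [hqd, hs]
        linear_combination (-(d - b)) * h1
      field_simp
      linarith
    · have : q * x.2 = q * b + s * (d - b) := by
        rw [hqd, hs]
        linear_combination (c - a) * h1
      field_simp
      linarith

lemma curve_iff (hne : ∀ i, v i ≠ v (finRotate n i)) (x : ℝ × ℝ) :
    x ∈ curve v ↔ InC (sg' v M x) := by
  unfold curve InC side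
  rw [mem_iUnion]
  exact exists_congr fun i => seg_iff (hne i) x

/-- the box -/
def Box (M : ℝ) (x : ℝ × ℝ) : Prop := |x.1| ≤ M ∧ |x.2| ≤ M

lemma boxHyp : BoxHyp (arr v M) (Box M) := by
  have e1 : ∀ x : ℝ × ℝ, (arr v M (.inr (false, false))).ev x = M - x.1 := by
    intro x; simp only [arr, Aff.ev]; ring
  have e2 : ∀ x : ℝ × ℝ, (arr v M (.inr (false, true))).ev x = M + x.1 := by
    intro x; simp only [arr, Aff.ev]; ring
  have e3 : ∀ x : ℝ × ℝ, (arr v M (.inr (true, false))).ev x = M - x.2 := by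
    intro x; simp only [arr, Aff.ev]; ring
  have e4 : ∀ x : ℝ × ℝ, (arr v M (.inr (true, true))).ev x = M + x.2 := by
    intro x; simp only [arr, Aff.ev]; ring
  have l1 : ∀ x : ℝ × ℝ, (arr v M (.inr (false, false))).lin x = -x.1 := by
    intro x; simp only [arr, Aff.lin]; ring
  have l2 : ∀ x : ℝ × ℝ, (arr v M (.inr (false, true))).lin x = x.1 := by
    intro x; simp only [arr, Aff.lin]; ring
  have l3 : ∀ x : ℝ × ℝ, (arr v M (.inr (true, false))).lin x = -x.2 := by
    intro x; simp only [arr, Aff.lin]; ring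
  have l4 : ∀ x : ℝ × ℝ, (arr v M (.inr (true, true))).lin x = x.2 := by
    intro x; simp only [arr, Aff.lin]; ring
  constructor
  · intro x d hx hd hz
    obtain ⟨h1, h2⟩ := hx
    rw [abs_le] at h1 h2
    have z1 := hz (.inr (false, false))
    have z2 := hz (.inr (false, true))
    have z3 := hz (.inr (true, false))
    have z4 := hz (.inr (true, true))
    rw [e1, l1] at z1
    rw [e2, l2] at z2
    rw [e3, l3] at z3
    rw [e4, l4] at z4
    rcases lt_trichotomy d.1 0 with h | h | h
    · refine ⟨.inr (false, true), ?_⟩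
      rw [e2, l2]
      have : 0 < M + x.1 := lt_of_le_of_ne (by linarith) (fun h' => by
        have := z2 h'.symm; linarith)
      exact mul_neg_of_neg_of_pos h this
    · rcases lt_trichotomy d.2 0 with h' | h' | h'
      · refine ⟨.inr (true, true), ?_⟩
        rw [e4, l4]
        have : 0 < M + x.2 := lt_of_le_of_ne (by linarith) (fun h' => by
          have := z4 h'.symm; linarith)
        exact mul_neg_of_neg_of_pos h' this
      · exact absurd (Prod.ext h h') hd
      · refine ⟨.inr (true, false), ?_⟩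
        rw [e3, l3]
        have : 0 < M - x.2 := lt_of_le_of_ne (by linarith) (fun h' => by
          have := z3 h'.symm; linarith)
        exact mul_neg_of_neg_of_pos (by linarith) this
    · refine ⟨.inr (false, false), ?_⟩
      rw [e1, l1]
      have : 0 < M - x.1 := lt_of_le_of_ne (by linarith) (fun h' => by
        have := z1 h'.symm; linarith)
      exact mul_neg_of_neg_of_pos (by linarith) this
  · intro x y hw hx
    obtain ⟨h1, h2⟩ := hx
    rw [abs_le] at h1 h2
    have key : ∀ e, 0 ≤ (arr v M e).ev x → 0 ≤ (arr v M e).ev y := by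
      intro e he
      rcases hw e with h | h
      · exact h.ge
      · rw [← sign_nonneg_iff, h, sign_nonneg_iff]; exact he
    have k1 := key (.inr (false, false))
    have k2 := key (.inr (false, true))
    have k3 := key (.inr (true, false))
    have k4 := key (.inr (true, true))
    rw [e1, e1] at k1
    rw [e2, e2] at k2
    rw [e3, e3] at k3
    rw [e4, e4] at k4
    refine ⟨?_, ?_⟩
    · rw [abs_le]
      exact ⟨by linarith [k2 (by linarith)], by linarith [k1 (by linarith)]⟩
    · rw [abs_le]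
      exact ⟨by linarith [k4 (by linarith)], by linarith [k3 (by linarith)]⟩

/-- face relation of sign vectors -/
def le' (σ τ : EI n → SignType) : Prop := ∀ e, σ e = 0 ∨ σ e = τ e

/-- adjacency of sign vectors off the curve -/
def rr (S : Set (EI n → SignType)) (σ τ : EI n → SignType) : Prop :=
  σ ∈ S ∧ τ ∈ S ∧ ¬ InC σ ∧ ¬ InC τ ∧ (le' σ τ ∨ le' τ σ)

lemma rr.symm {S : Set (EI n → SignType)} {σ τ : EI n → SignType} (h : rr S σ τ) : rr S τ σ :=
  ⟨h.2.1, h.1, h.2.2.2.1, h.2.2.1, h.2.2.2.2.symm⟩

def Conn (S : Set (EI n → SignType)) : (EI n → SignType) → (EI n → SignType) → Prop :=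
  Relation.ReflTransGen (rr S)

lemma sg_mid {y z : ℝ × ℝ} (h : le' (sg' v M y) (sg' v M z)) {t : ℝ} (ht : 0 < t) (ht1 : t ≤ 1) :
    sg' v M (y + t • (z - y)) = sg' v M z := by
  funext e
  unfold sg'
  have e1 : (arr v M e).ev (y + t • (z - y)) = (1 - t) * (arr v M e).ev y +
      t * (arr v M e).ev z := by
    unfold Aff.ev
    simp only [Prod.fst_add, Prod.smul_fst, smul_eq_mul, Prod.snd_add, Prod.smul_snd,
      Prod.fst_sub, Prod.snd_sub]
    ring
  rw [e1]
  have h1 := h e
  unfold sg' at h1
  rcases h1 with h1 | h1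
  · rw [sign_eq_zero_iff] at h1
    rw [h1, mul_zero, zero_add, sign_mul, sign_pos ht, one_mul]
  · rcases lt_trichotomy ((arr v M e).ev z) 0 with h2 | h2 | h2
    · rw [sign_neg h2, sign_eq_neg_one_iff] at h1
      rw [sign_neg h2, sign_eq_neg_one_iff]
      have := mul_neg_of_pos_of_neg ht h2
      have := mul_nonpos_of_nonneg_of_nonpos (show 0 ≤ 1 - t by linarith) h1.le
      linarith
    · rw [h2, sign_zero, sign_eq_zero_iff] at h1
      rw [h1, h2]; simp
    · rw [sign_pos h2, sign_eq_one_iff] at h1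
      rw [sign_pos h2, sign_eq_one_iff]
      have := mul_pos ht h2
      have := mul_nonneg (show 0 ≤ 1 - t by linarith) h1.le
      linarith

variable (hne : ∀ i, v i ≠ v (finRotate n i))
include hne

lemma comp_eq {y z : ℝ × ℝ} (h : le' (sg' v M y) (sg' v M z)) (hy : ¬ InC (sg' v M y))
    (hz : ¬ InC (sg' v M z)) :
    connectedComponentIn (curve v)ᶜ y = connectedComponentIn (curve v)ᶜ z := by
  have hsub : segment ℝ y z ⊆ (curve v)ᶜ := by
    intro q hq
    rw [segment_eq_image'] at hq
    obtain ⟨t, ht, rfl⟩ := hq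
    show ¬ (y + t • (z - y) ∈ curve v)
    rw [curve_iff (M := M) hne]
    rcases ht.1.lt_or_eq with h0 | h0
    · rw [sg_mid h h0 ht.2]; exact hz
    · rw [← h0, zero_smul, add_zero]; exact hy
  have hc : IsPreconnected (segment ℝ y z) := (convex_segment y z).isPreconnected
  apply connectedComponentIn_eq
  exact hc.subset_connectedComponentIn (left_mem_segment ℝ y z) hsub (right_mem_segment ℝ y z)

lemma conn_comp {S : Set (EI n → SignType)} (hS : ∀ τ ∈ S, ∃ y, sg' v M y = τ)
    {σ τ : EI n → SignType} (h : Conn S σ τ) (hσ : ¬ InC σ) :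
    ∀ y z : ℝ × ℝ, sg' v M y = σ → sg' v M z = τ →
      connectedComponentIn (curve v)ᶜ y = connectedComponentIn (curve v)ᶜ z := by
  induction h with
  | refl =>
    intro y z hy hz
    apply comp_eq (M := M) hne
    · intro e; right; rw [hy, hz]
    · rw [hy]; exact hσ
    · rw [hz]; exact hσ
  | @tail b c _ hbc ih =>
    intro y z hy hz
    obtain ⟨w, hw⟩ := hS b hbc.1
    rw [ih y w hy hw]
    rcases hbc.2.2.2.2 with h1 | h1
    · apply comp_eq (M := M) hne
      · rw [hw, hz]; exact h1
      · rw [hw]; exact hbc.2.2.1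
      · rw [hz]; exact hbc.2.2.2.1
    · symm
      apply comp_eq (M := M) hne
      · rw [hw, hz]; exact h1
      · rw [hz]; exact hbc.2.2.2.1
      · rw [hw]; exact hbc.2.2.1

omit hne in
lemma local_le (y0 : ℝ × ℝ) : ∀ᶠ y in 𝓝 y0, le' (sg' v M y0) (sg' v M y) := by
  have : ∀ e : EI n, ∀ᶠ y in 𝓝 y0, sg' v M y0 e = 0 ∨ sg' v M y0 e = sg' v M y e := by
    intro e
    have hc : Continuous fun y : ℝ × ℝ => (arr v M e).ev y := by
      unfold Aff.ev; fun_prop
    rcases lt_trichotomy ((arr v M e).ev y0) 0 with h | h | h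
    · filter_upwards [(hc.tendsto y0).eventually (gt_mem_nhds h)] with y hy
      right
      unfold sg'
      rw [sign_neg h, sign_neg hy]
    · exact Filter.Eventually.of_forall fun y => Or.inl (by unfold sg'; rw [h, sign_zero])
    · filter_upwards [(hc.tendsto y0).eventually (lt_mem_nhds h)] with y hy
      right
      unfold sg'
      rw [sign_pos h, sign_pos hy]
  exact Filter.eventually_all.2 this

/-- connectivity is constant along connected subsets of the box off the curve -/
lemma conn_const {S : Set (EI n → SignType)} (hS : ∀ x, Box M x → sg' v M x ∈ S)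
    (σ : EI n → SignType) {T : Set (ℝ × ℝ)} (hT : IsPreconnected T)
    (hB : ∀ x ∈ T, Box M x ∧ x ∉ curve v) {y z : ℝ × ℝ} (hy : y ∈ T) (hz : z ∈ T) :
    Conn S σ (sg' v M y) ↔ Conn S σ (sg' v M z) := by
  classical
  let F : ℝ × ℝ → Bool := fun x => decide (Conn S σ (sg' v M x))
  have hF : ContinuousOn F T := by
    intro y0 hy0
    refine ContinuousWithinAt.congr_of_eventuallyEq (f := fun _ => F y0) (g := F)
      continuousWithinAt_const ?_ rfl
    filter_upwards [mem_nhdsWithin_of_mem_nhds (local_le (v := v) (M := M) y0),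
      self_mem_nhdsWithin] with y h1 h2
    have hr : rr S (sg' v M y0) (sg' v M y) := by
      refine ⟨hS _ (hB y0 hy0).1, hS _ (hB y h2).1, ?_, ?_, Or.inl h1⟩
      · rw [← curve_iff hne]; exact (hB y0 hy0).2
      · rw [← curve_iff hne]; exact (hB y h2).2
    show decide _ = decide _
    rw [decide_eq_decide]
    exact ⟨fun h => h.tail hr.symm, fun h => h.tail hr⟩
  have := hT.constant hF hy hz
  simpa [F] using this

end

lemma box_convex (M : ℝ) : Convex ℝ {x : ℝ × ℝ | Box M x} := by
  have : {x : ℝ × ℝ | Box M x} = Icc (-M) M ×ˢ Icc (-M) M := by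
    ext x
    rw [mem_prod, mem_Icc, mem_Icc]
    show |x.1| ≤ M ∧ |x.2| ≤ M ↔ _
    rw [abs_le, abs_le]
  rw [this]
  exact (convex_Icc _ _).prod (convex_Icc _ _)

/-- clamping to the box -/
noncomputable def clamp (M : ℝ) (x : ℝ × ℝ) : ℝ × ℝ :=
  (max (-M) (min M x.1), max (-M) (min M x.2))

lemma clamp_cont (M : ℝ) : Continuous (clamp M) := by
  unfold clamp; fun_prop

lemma clamp_box {M : ℝ} (hM : 0 < M) (x : ℝ × ℝ) : Box M (clamp M x) := by
  refine ⟨?_, ?_⟩ <;> rw [abs_le] <;> unfold clamp <;> constructor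
  · exact le_max_left _ _
  · exact max_le (by linarith) (min_le_left _ _)
  · exact le_max_left _ _
  · exact max_le (by linarith) (min_le_left _ _)

lemma clamp_id {M : ℝ} {x : ℝ × ℝ} (hx : Box M x) : clamp M x = x := by
  obtain ⟨h1, h2⟩ := hx
  rw [abs_le] at h1 h2
  unfold clamp
  rw [min_eq_right h1.2, min_eq_right h2.2, max_eq_right h1.1, max_eq_right h2.1]

lemma clamp_bd {M : ℝ} (hM : 0 < M) {x : ℝ × ℝ} (hx : ¬ Box M x) :
    |(clamp M x).1| = M ∨ |(clamp M x).2| = M := by
  unfold Box at hx
  rw [not_and_or, not_le, not_le] at hx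
  have key : ∀ s : ℝ, M < |s| → |max (-M) (min M s)| = M := by
    intro s hs
    rcases lt_abs.1 hs with h | h
    · rw [min_eq_left h.le, max_eq_right (by linarith), abs_of_pos hM]
    · rw [min_eq_right (by linarith), max_eq_left (by linarith), abs_neg, abs_of_pos hM]
  rcases hx with h | h
  · left; exact key _ h
  · right; exact key _ h

section

variable {n : ℕ} {v : Fin n → ℝ × ℝ} {M : ℝ}

lemma curve_inside (hM : ∀ i, |(v i).1| < M ∧ |(v i).2| < M) {x : ℝ × ℝ} (hx : x ∈ curve v) :
    |x.1| < M ∧ |x.2| < M := by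
  unfold curve at hx
  rw [mem_iUnion] at hx
  obtain ⟨i, hi⟩ := hx
  have hconv : Convex ℝ {x : ℝ × ℝ | |x.1| < M ∧ |x.2| < M} := by
    have : {x : ℝ × ℝ | |x.1| < M ∧ |x.2| < M} = Set.Ioo (-M) M ×ˢ Set.Ioo (-M) M := by
      ext x; simp [abs_lt]
    rw [this]
    exact (convex_Ioo _ _).prod (convex_Ioo _ _)
  exact hconv.segment_subset (hM i) (hM _) hi

/-- the region in terms of sign vectors -/
theorem region_iff (hne : ∀ i, v i ≠ v (finRotate n i)) (hM0 : 0 < M)
    (hM : ∀ i, |(v i).1| < M ∧ |(v i).2| < M) {S : Set (EI n → SignType)}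
    (hS : ∀ x, Box M x → sg' v M x ∈ S) (hS' : ∀ τ ∈ S, ∃ y, sg' v M y = τ)
    {x : ℝ × ℝ} (hx : Box M x) :
    x ∈ region v ↔ InC (sg' v M x) ∨ ¬ Conn S (sg' v M x) (sg' v M (M, M)) := by
  by_cases hC : InC (sg' v M x)
  · have hxc : x ∈ curve v := (curve_iff hne x).2 hC
    have : connectedComponentIn (curve v)ᶜ x = ∅ :=
      connectedComponentIn_eq_empty (by simpa using hxc)
    simp [region, this, hC]
  · simp only [hC, false_or]
    have hxc : x ∉ curve v := fun h => hC ((curve_iff hne x).1 h)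
    constructor
    · intro hr hcon
      have hr' : Bornology.IsBounded (connectedComponentIn (curve v)ᶜ x) := hr
      rw [conn_comp hne hS' hcon hC x (M, M) rfl rfl] at hr'
      -- the ray
      have hpre : IsPreconnected {q : ℝ × ℝ | q.1 = M ∧ M ≤ q.2} := by
        apply Convex.isPreconnected
        intro p hp q hq a b ha hb hab
        refine ⟨?_, ?_⟩
        · simp only [Prod.fst_add, Prod.smul_fst, smul_eq_mul, hp.1, hq.1]
          rw [← add_mul, hab, one_mul]
        · have h1 := mul_le_mul_of_nonneg_left hp.2 ha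
          have h2 := mul_le_mul_of_nonneg_left hq.2 hb
          have h5 : M = a * M + b * M := by rw [← add_mul, hab, one_mul]
          simp only [Prod.snd_add, Prod.smul_snd, smul_eq_mul]
          linarith
      have hsub : {q : ℝ × ℝ | q.1 = M ∧ M ≤ q.2} ⊆ (curve v)ᶜ := by
        intro q hq hqc
        have h1 := (curve_inside hM hqc).1
        rw [hq.1, abs_of_pos hM0] at h1
        exact lt_irrefl _ h1
      have h11 := hpre.subset_connectedComponentIn (x := (M, M)) ⟨rfl, le_rfl⟩ hsub
      refine Mono.unbounded_up M M (hr'.subset (Subset.trans ?_ h11))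
      rintro q ⟨hq1, hq2⟩
      exact ⟨hq1, hq2.le⟩
    · intro hcon
      by_contra hr
      have hr' : ¬ Bornology.IsBounded (connectedComponentIn (curve v)ᶜ x) := hr
      -- a point of the component outside the box
      obtain ⟨y, hyK, hyB⟩ : ∃ y ∈ connectedComponentIn (curve v)ᶜ x, ¬ Box M y := by
        by_contra hc
        push Not at hc
        apply hr'
        have : connectedComponentIn (curve v)ᶜ x ⊆ Icc (-M) M ×ˢ Icc (-M) M := by
          intro y hy
          obtain ⟨h1, h2⟩ := hc y hy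
          rw [abs_le] at h1 h2
          exact ⟨h1, h2⟩
        exact ((Metric.isBounded_Icc _ _).prod (Metric.isBounded_Icc _ _)).subset this
      have off : ∀ y : ℝ × ℝ, |y.1| = M ∨ |y.2| = M → y ∉ curve v := by
        intro y hy hyc
        have h1 := curve_inside hM hyc
        rcases hy with h | h
        · linarith [h1.1]
        · linarith [h1.2]
      have hTpre : IsPreconnected (clamp M '' connectedComponentIn (curve v)ᶜ x) :=
        isPreconnected_connectedComponentIn.image _ (clamp_cont M).continuousOn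
      have hTB : ∀ w ∈ clamp M '' connectedComponentIn (curve v)ᶜ x, Box M w ∧ w ∉ curve v := by
        rintro _ ⟨w, hw, rfl⟩
        refine ⟨clamp_box hM0 w, ?_⟩
        by_cases hwB : Box M w
        · rw [clamp_id hwB]
          exact connectedComponentIn_subset _ _ hw
        · exact off _ (clamp_bd hM0 hwB)
      have hxT : x ∈ clamp M '' connectedComponentIn (curve v)ᶜ x :=
        ⟨x, mem_connectedComponentIn hxc, clamp_id hx⟩
      have h1 := (conn_const hne hS (sg' v M x) hTpre hTB hxT (mem_image_of_mem _ hyK)).1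
        Relation.ReflTransGen.refl
      -- along the boundary
      have bd : ∀ p q : ℝ × ℝ, Box M p → Box M q →
          (p.1 = q.1 ∧ |p.1| = M ∨ p.2 = q.2 ∧ |p.2| = M) →
          (Conn S (sg' v M x) (sg' v M p) ↔ Conn S (sg' v M x) (sg' v M q)) := by
        intro p q hp hq hpq
        have hconv : Convex ℝ {x : ℝ × ℝ | Box M x} := box_convex M
        apply conn_const hne hS _ (convex_segment p q).isPreconnected _
          (left_mem_segment ℝ p q) (right_mem_segment ℝ p q)
        intro w hw
        refine ⟨hconv.segment_subset hp hq hw, ?_⟩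
        apply off
        obtain ⟨p1, p2⟩ := p
        obtain ⟨q1, q2⟩ := q
        rw [mem_seg] at hw
        obtain ⟨t, ht, h3, h4⟩ := hw
        simp only at hpq
        rcases hpq with ⟨h5, h6⟩ | ⟨h5, h6⟩
        · left; rw [h3, h5, sub_self, mul_zero, add_zero, ← h5]; exact h6
        · right; rw [h4, h5, sub_self, mul_zero, add_zero, ← h5]; exact h6
      have hMM : |M| = M := abs_of_pos hM0
      have hMn : |(-M)| = M := by rw [abs_neg, hMM]
      have b0 : Box M (M, M) := ⟨hMM.le, hMM.le⟩
      have b1 : Box M (-M, M) := ⟨hMn.le, hMM.le⟩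
      have b2 : Box M (M, -M) := ⟨hMM.le, hMn.le⟩
      have c1 := bd (-M, M) (M, M) b1 b0 (Or.inr ⟨rfl, hMM⟩)
      have c2 := bd (M, -M) (M, M) b2 b0 (Or.inl ⟨rfl, hMM⟩)
      have hcl := clamp_bd hM0 hyB
      have hclB := clamp_box hM0 y
      apply hcon
      set w := clamp M y with hw
      rcases hcl with h | h
      · rcases eq_or_eq_neg_of_abs_eq h with h2 | h2
        · exact (bd w (M, M) hclB b0 (Or.inl ⟨h2, h⟩)).1 h1
        · exact c1.1 ((bd w (-M, M) hclB b1 (Or.inl ⟨h2, h⟩)).1 h1)
      · rcases eq_or_eq_neg_of_abs_eq h with h2 | h2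
        · exact (bd w (M, M) hclB b0 (Or.inr ⟨h2, h⟩)).1 h1
        · exact c2.1 ((bd w (M, -M) hclB b2 (Or.inr ⟨h2, h⟩)).1 h1)

/-- the sign vectors given by four vertices of the arrangement -/
def SS (v : Fin n → ℝ × ℝ) (M : ℝ) : Set (EI n → SignType) :=
  {σ | ∃ p : Fin 4 → EI n × EI n, (∀ k, Dt (arr v M) (p k) ≠ 0) ∧ σ = sv (arr v M) p}

lemma SS_box {x : ℝ × ℝ} (hx : Box M x) : sg' v M x ∈ SS v M := by
  obtain ⟨p, h1, h2⟩ := exists_four (boxHyp (v := v) (M := M)) hx
  exact ⟨p, h1, funext h2⟩

lemma SS_real {τ : EI n → SignType} (hτ : τ ∈ SS v M) : ∃ y, sg' v M y = τ := by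
  obtain ⟨p, h1, rfl⟩ := hτ
  obtain ⟨y, hy⟩ := realised p h1
  exact ⟨y, funext hy⟩

lemma inj_of_simple (h : IsSimplePolygon v) : Function.Injective v := by
  intro i j hij
  by_contra hne
  by_cases h1 : j = finRotate n i
  · exact h.ne i (by rw [← h1]; exact hij)
  · by_cases h2 : i = finRotate n j
    · exact h.ne j (by rw [← h2]; exact hij.symm)
    · have h3 := h.disjoint i j (Ne.symm hne) h1 h2
      rw [Set.disjoint_left] at h3
      exact h3 (left_mem_segment ℝ _ _) (by
        unfold side
        rw [hij]; exact left_mem_segment ℝ _ _)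

/-- the visibility graph in terms of sign vectors -/
theorem vis_iff (h : IsSimplePolygon v) (hM0 : 0 < M) (hM : ∀ i, |(v i).1| < M ∧ |(v i).2| < M)
    (i j : Fin n) : (visGraph v).Adj i j ↔ i ≠ j ∧ ∀ τ ∈ SS v M, segc i j τ →
      InC τ ∨ ¬ Conn (SS v M) τ (sg' v M (M, M)) := by
  show i ≠ j ∧ segment ℝ (v i) (v j) ⊆ region v ↔ _
  refine and_congr_right fun hij => ?_
  have hvij : v i ≠ v j := (inj_of_simple h).ne hij
  have hconv : Convex ℝ {x : ℝ × ℝ | Box M x} := box_convex M
  have hbox : ∀ x ∈ segment ℝ (v i) (v j), Box M x := fun x hx =>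
    hconv.segment_subset ⟨(hM i).1.le, (hM i).2.le⟩ ⟨(hM j).1.le, (hM j).2.le⟩ hx
  constructor
  · intro hs τ hτ hseg
    obtain ⟨y, rfl⟩ := SS_real hτ
    have hy : y ∈ segment ℝ (v i) (v j) := (seg_iff hvij y).2 hseg
    exact (region_iff h.ne hM0 hM (fun x hx => SS_box hx) (fun τ hτ => SS_real hτ)
      (hbox y hy)).1 (hs hy)
  · intro hs y hy
    rw [region_iff h.ne hM0 hM (fun x hx => SS_box hx) (fun τ hτ => SS_real hτ) (hbox y hy)]
    exact hs _ (SS_box (hbox y hy)) ((seg_iff hvij y).1 hy)

end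

end Pool.Agent.W115.Vis
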